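import Pool.Agent.MP_c15733_al.H87.Defs

/-! Exponential charts, Lie brackets, matrix representations and words in exponentials. -/

namespace Pool.Agent.MP_c15733_al.H87

open Filter Topology NormedSpace

universe u

attribute [local instance 100] LieRing.ofAssociativeRing

/-- exponential chart: `e` is the exponential map of `G`, `l` its local inverse -/
structure IsE {E : Type} [NormedAddCommGroup E] [NormedSpace ℝ E] {G : Type u} [Group G]
    [TopologicalSpace G] (e : E → G) (l : G → E) : Prop where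
  cont : Continuous e
  add : ∀ (X : E) (s t : ℝ), e ((s + t) • X) = e (s • X) * e (t • X)
  le : ∀ᶠ X in 𝓝 (0 : E), l (e X) = X
  el : ∀ᶠ g in 𝓝 (1 : G), e (l g) = g
  tend : Tendsto l (𝓝 1) (𝓝 0)
  strict : HasStrictFDerivAt (fun p : E × E => l (e p.1 * e p.2))
    (ContinuousLinearMap.fst ℝ E E + ContinuousLinearMap.snd ℝ E E) 0

/-- a Lie bracket on a normed space -/
class LieBr (E : Type) [NormedAddCommGroup E] [NormedSpace ℝ E] where
  ad : E →L[ℝ] E →L[ℝ] E
  ad_self : ∀ X, ad X X = 0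
  ad_ad : ∀ X Y, ad (ad X Y) = ad X * ad Y - ad Y * ad X

noncomputable instance LieBr.lieRing (E : Type) [NormedAddCommGroup E] [NormedSpace ℝ E] [LieBr E] :
    LieRing E where
  bracket X Y := LieBr.ad X Y
  add_lie X Y Z := by
    show LieBr.ad (X + Y) Z = LieBr.ad X Z + LieBr.ad Y Z
    rw [map_add, add_apply]
  lie_add X Y Z := map_add (LieBr.ad X) Y Z
  lie_self := LieBr.ad_self
  leibniz_lie X Y Z := by
    show LieBr.ad X (LieBr.ad Y Z) = LieBr.ad (LieBr.ad X Y) Z + LieBr.ad Y (LieBr.ad X Z)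
    rw [LieBr.ad_ad]
    simp

noncomputable instance LieBr.lieAlgebra (E : Type) [NormedAddCommGroup E] [NormedSpace ℝ E] [LieBr E] :
    LieAlgebra ℝ E where
  lie_smul t X Y := map_smul (LieBr.ad X) t Y

theorem LieBr.ad_apply {E : Type} [NormedAddCommGroup E] [NormedSpace ℝ E] [LieBr E] (X Y : E) :
    LieBr.ad X Y = ⁅X, Y⁆ := rfl

/-- exponential chart compatible with the bracket -/
structure IsL {E : Type} [NormedAddCommGroup E] [NormedSpace ℝ E] [LieBr E] {G : Type u} [Group G]
    [TopologicalSpace G] (e : E → G) (l : G → E) : Prop extends IsE e l where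
  conj : ∀ X Y : E, e X * e Y * (e X)⁻¹ = e (exp (LieBr.ad X) Y)

section Exp

variable {A : Type*} [NormedRing A] [NormedAlgebra ℝ A] [CompleteSpace A]

theorem exp_add' {x y : A} (h : Commute x y) : exp (x + y) = exp x * exp y :=
  let _ : NormedAlgebra ℚ A := .restrictScalars ℚ ℝ A
  exp_add_of_commute h

theorem exp_mul_exp_neg (x : A) : exp x * exp (-x) = 1 := by
  rw [← exp_add' (Commute.refl x).neg_right, add_neg_cancel, exp_zero]

theorem exp_neg_mul_exp (x : A) : exp (-x) * exp x = 1 := by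
  rw [← exp_add' (Commute.refl x).neg_left, neg_add_cancel, exp_zero]

theorem exp_cont : Continuous (exp : A → A) :=
  let _ : NormedAlgebra ℚ A := .restrictScalars ℚ ℝ A
  exp_continuous

/-- the exponential as a unit -/
noncomputable def expU (x : A) : Aˣ := ⟨exp x, exp (-x), exp_mul_exp_neg x, exp_neg_mul_exp x⟩

@[simp] theorem expU_val (x : A) : (expU x : A) = exp x := rfl

@[simp] theorem expU_inv_val (x : A) : ((expU x)⁻¹ : Aˣ) = exp (-x) := rfl

/-- exponentials are computed through any continuous linear map that respects powers -/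
theorem map_exp_eq {B F : Type*} [NormedRing B] [NormedAlgebra ℝ B] [CompleteSpace B]
    [NormedAddCommGroup F] [NormedSpace ℝ F] (P : A →L[ℝ] F) (Q : B →L[ℝ] F) {a : A} {b : B}
    (h : ∀ n : ℕ, P (a ^ n) = Q (b ^ n)) : P (exp a) = Q (exp b) := by
  have h1 := (exp_series_hasSum_exp' (𝕂 := ℝ) a).mapL P
  have h2 := (exp_series_hasSum_exp' (𝕂 := ℝ) b).mapL Q
  simp only [map_smul, h] at h1 h2
  exact h1.unique h2

theorem map_exp_mem {F : Type*} [NormedAddCommGroup F] [NormedSpace ℝ F] [FiniteDimensional ℝ F]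
    (P : A →L[ℝ] F) (S : Submodule ℝ F) {a : A} (h : ∀ n : ℕ, P (a ^ n) ∈ S) : P (exp a) ∈ S := by
  have h1 := (exp_series_hasSum_exp' (𝕂 := ℝ) a).mapL P
  refine S.closed_of_finiteDimensional.mem_of_tendsto h1 (Eventually.of_forall fun s => ?_)
  refine S.sum_mem fun n _ => ?_
  rw [map_smul]
  exact S.smul_mem _ (h n)

/-- conjugation by an exponential -/
theorem conj_exp {E : Type*} [NormedAddCommGroup E] [NormedSpace ℝ E] (ψ : E →L[ℝ] A) (a : A)
    (T : E → E) (hT : ∀ y, ψ (T y) = a * ψ y - ψ y * a) (y : ℝ → E)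
    (hy : ∀ t, HasDerivAt y (T (y t)) t) : ψ (y 1) = exp a * ψ (y 0) * exp (-a) := by
  have hd : ∀ t : ℝ, HasDerivAt (fun t : ℝ => exp (t • -a) * ψ (y t) * exp (t • a)) 0 t := by
    intro t
    have h1 := ((hasDerivAt_exp_smul_const (𝕂 := ℝ) (-a) t).mul
      (ψ.hasFDerivAt.comp_hasDerivAt t (hy t))).mul (hasDerivAt_exp_smul_const' (𝕂 := ℝ) a t)
    refine h1.congr_deriv ?_
    simp only [Function.comp_apply, Pi.mul_apply, hT]
    noncomm_ring
  have h2 := is_const_of_deriv_eq_zero (fun t => (hd t).differentiableAt) (fun t => (hd t).deriv)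
    1 0
  simp only [one_smul, zero_smul, exp_zero, one_mul, mul_one] at h2
  rw [← h2, ← mul_assoc, ← mul_assoc, exp_mul_exp_neg, one_mul, mul_assoc, exp_mul_exp_neg,
    mul_one]

theorem conj_exp' {E : Type*} [NormedAddCommGroup E] [NormedSpace ℝ E] [CompleteSpace E]
    (ψ : E →L[ℝ] A) (a : A) (T : E →L[ℝ] E) (hT : ∀ y, ψ (T y) = a * ψ y - ψ y * a) (y : E) :
    ψ (exp T y) = exp a * ψ y * exp (-a) := by
  have h := conj_exp ψ a T hT (fun t => exp (t • T) y) fun t => by
    simpa using (hasDerivAt_exp_smul_const' (𝕂 := ℝ) T t).clm_apply (hasDerivAt_const t y)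
  simpa using h

end Exp

section Mat

open scoped Matrix.Norms.Operator
open Matrix

variable {ι κ : Type} [Fintype ι] [DecidableEq ι] [Fintype κ] [DecidableEq κ]

/-- the matrix exponential as an element of `GL` -/
noncomputable def expM (a : Matrix ι ι ℂ) : GL ι ℂ := expU a

@[simp] theorem expM_val (a : Matrix ι ι ℂ) : (expM a : Matrix ι ι ℂ) = exp a := rfl

@[simp] theorem expM_inv_val (a : Matrix ι ι ℂ) : ((expM a)⁻¹ : GL ι ℂ) = exp (-a) := rfl

theorem exp_intertwine {a : Matrix ι ι ℂ} {b : Matrix κ κ ℂ} {J : Matrix ι κ ℂ}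
    (h : a * J = J * b) : exp a * J = J * exp b := by
  have := map_exp_eq (F := Matrix ι κ ℂ) (a := a) (b := b)
    (LinearMap.toContinuousLinearMap
      { toFun := fun x => x * J, map_add' := fun x y => Matrix.add_mul x y J,
        map_smul' := fun c x => Matrix.smul_mul c x J })
    (LinearMap.toContinuousLinearMap
      { toFun := fun x => J * x, map_add' := fun x y => Matrix.mul_add J x y,
        map_smul' := fun c x => Matrix.mul_smul J c x }) (fun n => by
      show a ^ n * J = J * b ^ n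
      induction n with
      | zero => simp
      | succ n ih => rw [pow_succ, Matrix.mul_assoc, h, ← Matrix.mul_assoc, ih, pow_succ,
          Matrix.mul_assoc])
  exact this

theorem exp_mulVec_mem {a : Matrix ι ι ℂ} (S : Submodule ℝ (ι → ℂ)) (h : ∀ v ∈ S, a *ᵥ v ∈ S)
    {v : ι → ℂ} (hv : v ∈ S) : exp a *ᵥ v ∈ S := by
  have := map_exp_mem (F := ι → ℂ) (a := a)
    (LinearMap.toContinuousLinearMap
      { toFun := fun x => x *ᵥ v, map_add' := fun x y => Matrix.add_mulVec x y v,
        map_smul' := fun c x => Matrix.smul_mulVec c x v }) S (fun n => by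
      show (a ^ n) *ᵥ v ∈ S
      induction n with
      | zero => simpa using hv
      | succ n ih =>
        rw [pow_succ', ← Matrix.mulVec_mulVec]
        exact h _ ih)
  exact this

theorem hasDerivAt_exp_mulVec (a : Matrix ι ι ℂ) (v : ι → ℂ) (t : ℝ) :
    HasDerivAt (fun t : ℝ => exp (t • a) *ᵥ v) (a *ᵥ (exp (t • a) *ᵥ v)) t := by
  have h := (LinearMap.toContinuousLinearMap
      ({ toFun := fun x => x *ᵥ v, map_add' := fun x y => Matrix.add_mulVec x y v,
         map_smul' := fun c x => Matrix.smul_mulVec c x v } :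
        Matrix ι ι ℂ →ₗ[ℝ] (ι → ℂ))).hasFDerivAt.comp_hasDerivAt t
    (hasDerivAt_exp_smul_const' (𝕂 := ℝ) a t)
  rw [Matrix.mulVec_mulVec]
  exact h

end Mat

section Rep

open Matrix

/-- a complex matrix representation of a real Lie algebra -/
structure Rep (q : Type) [LieRing q] [LieAlgebra ℝ q] where
  ι : Type
  [fin : Fintype ι]
  [dec : DecidableEq ι]
  ρ : q →ₗ[ℝ] Matrix ι ι ℂ
  map_lie : ∀ x y, ρ ⁅x, y⁆ = ρ x * ρ y - ρ y * ρ x

attribute [instance] Rep.fin Rep.dec

variable {q : Type} [LieRing q] [LieAlgebra ℝ q]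

/-- the value of a word in exponentials -/
noncomputable def Rep.w (R : Rep q) : FreeGroup q →* GL R.ι ℂ :=
  FreeGroup.lift fun x => expM (R.ρ x)

@[simp] theorem Rep.w_of (R : Rep q) (x : q) : R.w (FreeGroup.of x) = expM (R.ρ x) :=
  FreeGroup.lift_apply_of

/-- the words that are trivial in every representation -/
noncomputable def Wd (q : Type) [LieRing q] [LieAlgebra ℝ q] : Subgroup (FreeGroup q) :=
  ⨅ R : Rep q, R.w.ker

theorem mem_Wd {c : FreeGroup q} : c ∈ Wd q ↔ ∀ R : Rep q, R.w c = 1 := by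
  simp [Wd, Subgroup.mem_iInf]

/-- the words that are central in every representation -/
def Cen (c : FreeGroup q) : Prop := ∀ (R : Rep q) (x : q), Commute (R.w c : Matrix R.ι R.ι ℂ) (R.ρ x)

theorem Rep.w_intertwine (R R' : Rep q) (J : Matrix R.ι R'.ι ℂ)
    (h : ∀ x, R.ρ x * J = J * R'.ρ x) (c : FreeGroup q) :
    (R.w c : Matrix R.ι R.ι ℂ) * J = J * (R'.w c : Matrix R'.ι R'.ι ℂ) := by
  induction c using FreeGroup.induction_on with
  | C1 => simp
  | of x => simpa using exp_intertwine (h x)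
  | inv_of x _ =>
    rw [map_inv, map_inv, Rep.w_of, Rep.w_of, expM_inv_val, expM_inv_val]
    exact exp_intertwine (by rw [Matrix.neg_mul, Matrix.mul_neg, h])
  | mul x y hx hy =>
    rw [map_mul, map_mul, Units.val_mul, Units.val_mul, Matrix.mul_assoc, hy, ← Matrix.mul_assoc,
      hx, Matrix.mul_assoc]

theorem Rep.w_mulVec_mem (R : Rep q) (S : Submodule ℝ (R.ι → ℂ))
    (h : ∀ x, ∀ v ∈ S, R.ρ x *ᵥ v ∈ S) (c : FreeGroup q) :
    ∀ v ∈ S, (R.w c : Matrix R.ι R.ι ℂ) *ᵥ v ∈ S := by
  induction c using FreeGroup.induction_on with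
  | C1 => simp
  | of x => exact fun v hv => by simpa using exp_mulVec_mem S (h x) hv
  | inv_of x _ =>
    intro v hv
    rw [map_inv, Rep.w_of, expM_inv_val]
    exact exp_mulVec_mem S (fun v hv => by rw [Matrix.neg_mulVec]; exact S.neg_mem (h x v hv)) hv
  | mul x y hx hy =>
    intro v hv
    rw [map_mul, Units.val_mul, ← Matrix.mulVec_mulVec]
    exact hx _ (hy v hv)

/-- the scalar characters of a group of words -/
def Om (C : Subgroup (FreeGroup q)) : Set (C →* ℂˣ) :=
  {ω | ∃ R : Rep q, Nonempty R.ι ∧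
    ∀ c : C, (R.w c : Matrix R.ι R.ι ℂ) = ((ω c : ℂˣ) : ℂ) • (1 : Matrix R.ι R.ι ℂ)}

end Rep

end Pool.Agent.MP_c15733_al.H87
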