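import Pool.Agent.MP_c15733_al.H87.Base

namespace Pool.Agent.MP_c15733_al.H87

open Filter Topology NormedSpace Matrix

universe u

attribute [local instance 100] LieRing.ofAssociativeRing

variable {q : Type} [LieRing q] [LieAlgebra ℝ q]

namespace Chars

open scoped Kronecker

/-- the trivial representation -/
noncomputable def triv (q : Type) [LieRing q] [LieAlgebra ℝ q] : Rep q where
  ι := Unit
  ρ := 0
  map_lie x y := by simp

theorem triv_w (c : FreeGroup q) :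
    ((triv q).w c : Matrix (triv q).ι (triv q).ι ℂ) = 1 := by
  induction c using FreeGroup.induction_on with
  | C1 => simp
  | of x =>
    rw [Rep.w_of, expM_val]
    exact exp_zero
  | inv_of x _ =>
    rw [map_inv, Rep.w_of, expM_inv_val, ← map_neg]
    exact exp_zero
  | mul x y hx hy => rw [map_mul, Units.val_mul, hx, hy, mul_one]

theorem one_mem (C : Subgroup (FreeGroup q)) : (1 : C →* ℂˣ) ∈ Om C :=
  ⟨triv q, ⟨()⟩, fun c => by
    have := triv_w (c : FreeGroup q)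
    simpa using this⟩

section Kron

open scoped Matrix.Norms.Operator

variable {ι κ : Type} [Fintype ι] [DecidableEq ι] [Fintype κ] [DecidableEq κ]

theorem exp_kron_left (a : Matrix ι ι ℂ) :
    exp (a ⊗ₖ (1 : Matrix κ κ ℂ)) = exp a ⊗ₖ (1 : Matrix κ κ ℂ) := by
  have := map_exp_eq (F := Matrix (ι × κ) (ι × κ) ℂ) (a := a ⊗ₖ (1 : Matrix κ κ ℂ)) (b := a)
    (ContinuousLinearMap.id ℝ _)
    (LinearMap.toContinuousLinearMap
      { toFun := fun x => x ⊗ₖ (1 : Matrix κ κ ℂ), map_add' := fun x y => add_kronecker x y _,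
        map_smul' := fun c x => smul_kronecker c x _ }) (fun n => by
      show (a ⊗ₖ (1 : Matrix κ κ ℂ)) ^ n = (a ^ n) ⊗ₖ (1 : Matrix κ κ ℂ)
      induction n with
      | zero => simp
      | succ n ih => rw [pow_succ, ih, ← mul_kronecker_mul, mul_one, pow_succ])
  exact this

theorem exp_kron_right (b : Matrix κ κ ℂ) :
    exp ((1 : Matrix ι ι ℂ) ⊗ₖ b) = (1 : Matrix ι ι ℂ) ⊗ₖ exp b := by
  have := map_exp_eq (F := Matrix (ι × κ) (ι × κ) ℂ) (a := (1 : Matrix ι ι ℂ) ⊗ₖ b) (b := b)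
    (ContinuousLinearMap.id ℝ _)
    (LinearMap.toContinuousLinearMap
      { toFun := fun x => (1 : Matrix ι ι ℂ) ⊗ₖ x, map_add' := fun x y => kronecker_add _ x y,
        map_smul' := fun c x => kronecker_smul c _ x }) (fun n => by
      show ((1 : Matrix ι ι ℂ) ⊗ₖ b) ^ n = (1 : Matrix ι ι ℂ) ⊗ₖ (b ^ n)
      induction n with
      | zero => simp
      | succ n ih => rw [pow_succ, ih, ← mul_kronecker_mul, mul_one, pow_succ])
  exact this

theorem exp_kron (a : Matrix ι ι ℂ) (b : Matrix κ κ ℂ) :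
    exp (a ⊗ₖ (1 : Matrix κ κ ℂ) + (1 : Matrix ι ι ℂ) ⊗ₖ b) = exp a ⊗ₖ exp b := by
  have h : Commute (a ⊗ₖ (1 : Matrix κ κ ℂ)) ((1 : Matrix ι ι ℂ) ⊗ₖ b) := by
    show _ * _ = _ * _
    rw [← mul_kronecker_mul, ← mul_kronecker_mul, mul_one, one_mul, mul_one, one_mul]
  refine (exp_add' h).trans ((congrArg₂ (· * ·) (exp_kron_left a) (exp_kron_right b)).trans ?_)
  show _ * _ = _
  rw [← mul_kronecker_mul, mul_one, one_mul]

end Kron

/-- the tensor product of two representations -/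
noncomputable def tens (R R' : Rep q) : Rep q where
  ι := R.ι × R'.ι
  ρ :=
    { toFun := fun x => R.ρ x ⊗ₖ (1 : Matrix R'.ι R'.ι ℂ) + (1 : Matrix R.ι R.ι ℂ) ⊗ₖ R'.ρ x
      map_add' := fun x y => by
        rw [map_add, map_add, add_kronecker, kronecker_add]
        abel
      map_smul' := fun c x => by
        rw [map_smul, map_smul, smul_kronecker, kronecker_smul, RingHom.id_apply, smul_add] }
  map_lie x y := by
    simp only [LinearMap.coe_mk, AddHom.coe_mk, R.map_lie, R'.map_lie, add_mul, mul_add,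
      ← mul_kronecker_mul, mul_one, one_mul, sub_eq_add_neg, add_kronecker, kronecker_add]
    rw [← neg_one_smul ℂ (R.ρ y * R.ρ x), ← neg_one_smul ℂ (R'.ρ y * R'.ρ x), smul_kronecker,
      kronecker_smul, neg_one_smul, neg_one_smul]
    abel

theorem tens_w (R R' : Rep q) (c : FreeGroup q) :
    ((tens R R').w c : Matrix (tens R R').ι (tens R R').ι ℂ) =
      (R.w c : Matrix R.ι R.ι ℂ) ⊗ₖ (R'.w c : Matrix R'.ι R'.ι ℂ) := by
  induction c using FreeGroup.induction_on with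
  | C1 =>
    rw [map_one, map_one, map_one, Units.val_one, Units.val_one, Units.val_one]
    exact one_kronecker_one.symm
  | of x =>
    rw [Rep.w_of, Rep.w_of, Rep.w_of, expM_val, expM_val, expM_val]
    exact exp_kron _ _
  | inv_of x _ =>
    rw [map_inv, map_inv, map_inv, Rep.w_of, Rep.w_of, Rep.w_of, expM_inv_val, expM_inv_val,
      expM_inv_val, ← map_neg, ← map_neg, ← map_neg]
    exact exp_kron _ _
  | mul x y hx hy =>
    rw [map_mul, map_mul, map_mul, Units.val_mul, Units.val_mul, Units.val_mul, hx, hy]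
    exact (mul_kronecker_mul _ _ _ _).symm

theorem mul_mem {C : Subgroup (FreeGroup q)} {ω ω' : C →* ℂˣ} (h : ω ∈ Om C) (h' : ω' ∈ Om C) :
    ω * ω' ∈ Om C := by
  obtain ⟨R, ⟨i⟩, hR⟩ := h
  obtain ⟨R', ⟨i'⟩, hR'⟩ := h'
  refine ⟨tens R R', ⟨(i, i')⟩, fun c => ?_⟩
  have := tens_w R R' (c : FreeGroup q)
  rw [hR, hR', smul_kronecker, kronecker_smul, one_kronecker_one, smul_smul] at this
  rw [MonoidHom.mul_apply, Units.val_mul]
  exact this

section Sub

variable {ι : Type} [Fintype ι] [DecidableEq ι]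

omit [DecidableEq ι] in
theorem exists_eig (M : Matrix ι ι ℂ) (W : Submodule ℂ (ι → ℂ)) (hW : W ≠ ⊥)
    (h : ∀ v ∈ W, M *ᵥ v ∈ W) : ∃ (a : ℂ) (v : ι → ℂ), v ∈ W ∧ v ≠ 0 ∧ M *ᵥ v = a • v := by
  have : Nontrivial W := Submodule.nontrivial_iff_ne_bot.2 hW
  obtain ⟨a, ha⟩ := Module.End.exists_eigenvalue (M.mulVecLin.restrict (p := W) (q := W) h)
  obtain ⟨v, hv⟩ := ha.exists_hasEigenvector
  refine ⟨a, v, v.2, fun h0 => hv.2 (Subtype.ext h0), ?_⟩
  exact congrArg Subtype.val hv.apply_eq_smul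

theorem exists_frame (W : Submodule ℂ (ι → ℂ)) :
    ∃ (k : ℕ) (J : Matrix ι (Fin k) ℂ) (P : Matrix (Fin k) ι ℂ), P * J = 1 ∧
      (∀ v ∈ W, J *ᵥ (P *ᵥ v) = v) ∧ ∀ u, J *ᵥ u ∈ W := by
  let e := (Module.finBasis ℂ W).equivFun
  obtain ⟨π, hπ⟩ := W.subtype.exists_leftInverse_of_injective W.ker_subtype
  have hπ' : ∀ v : W, π v = v := fun v => LinearMap.congr_fun hπ v
  refine ⟨_, LinearMap.toMatrix' (W.subtype ∘ₗ e.symm.toLinearMap),
    LinearMap.toMatrix' (e.toLinearMap ∘ₗ π), ?_, fun v hv => ?_, fun u => ?_⟩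
  · rw [Matrix.ext_iff_mulVec]
    intro u
    rw [← Matrix.mulVec_mulVec, LinearMap.toMatrix'_mulVec, LinearMap.toMatrix'_mulVec]
    simp [hπ']
  · rw [LinearMap.toMatrix'_mulVec, LinearMap.toMatrix'_mulVec]
    have := hπ' ⟨v, hv⟩
    simp only at this
    simp [this]
  · rw [LinearMap.toMatrix'_mulVec]
    simp

end Sub

/-- a subrepresentation on which all words of `C` are scalar gives a central character -/
theorem exists_om (R : Rep q) (C : Subgroup (FreeGroup q)) (W : Submodule ℂ (R.ι → ℂ))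
    (hW : W ≠ ⊥) (h : ∀ x, ∀ v ∈ W, R.ρ x *ᵥ v ∈ W)
    (hs : ∀ c : C, ∃ a : ℂ, ∀ v ∈ W, (R.w c : Matrix R.ι R.ι ℂ) *ᵥ v = a • v) :
    ∃ ω ∈ Om C, ∀ c : C, ∀ v ∈ W, (R.w c : Matrix R.ι R.ι ℂ) *ᵥ v = ((ω c : ℂˣ) : ℂ) • v := by
  obtain ⟨k, J, P, hPJ, hJP, hJ⟩ := exists_frame W
  obtain ⟨v0, hv0, hne⟩ := Submodule.exists_mem_ne_zero_of_ne_bot hW
  choose a ha using hs
  have ha1 : a 1 = 1 := by
    have := ha 1 v0 hv0
    simp only [OneMemClass.coe_one, map_one, Units.val_one, Matrix.one_mulVec] at this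
    exact smul_left_injective ℂ hne (by simpa using this.symm)
  have ham : ∀ c c', a (c * c') = a c * a c' := by
    intro c c'
    have := ha (c * c') v0 hv0
    rw [Subgroup.coe_mul, map_mul, Units.val_mul, ← Matrix.mulVec_mulVec, ha c' v0 hv0,
      Matrix.mulVec_smul, ha c v0 hv0, smul_smul, mul_comm] at this
    exact smul_left_injective ℂ hne this.symm
  let a' : C →* ℂ := { toFun := a, map_one' := ha1, map_mul' := ham }
  have key : ∀ x, R.ρ x * J = J * (P * R.ρ x * J) := by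
    intro x
    rw [Matrix.ext_iff_mulVec]
    intro u
    simp only [← Matrix.mulVec_mulVec]
    exact (hJP _ (h x _ (hJ u))).symm
  let R' : Rep q :=
    { ι := Fin k
      ρ :=
        { toFun := fun x => P * R.ρ x * J
          map_add' := fun x y => by rw [map_add, Matrix.mul_add, Matrix.add_mul]
          map_smul' := fun c x => by
            rw [map_smul, Matrix.mul_smul, Matrix.smul_mul, RingHom.id_apply] }
      map_lie := fun x y => by
        show P * R.ρ ⁅x, y⁆ * J = P * R.ρ x * J * (P * R.ρ y * J) - P * R.ρ y * J * (P * R.ρ x * J)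
        rw [Matrix.mul_assoc _ J, Matrix.mul_assoc _ J, ← key, ← key, R.map_lie, Matrix.mul_sub,
          Matrix.sub_mul]
        simp only [Matrix.mul_assoc] }
  refine ⟨a'.toHomUnits, ⟨R', ?_, fun c => ?_⟩, fun c v hv => ha c v hv⟩
  · by_contra hk
    have hk' : IsEmpty (Fin k) := not_nonempty_iff.1 hk
    apply hne
    rw [← hJP v0 hv0, Subsingleton.elim (P *ᵥ v0) 0, Matrix.mulVec_zero]
  · have h1 := R.w_intertwine R' J key (c : FreeGroup q)
    have h2 : (R.w c : Matrix R.ι R.ι ℂ) * J = a c • J := by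
      rw [Matrix.ext_iff_mulVec]
      intro u
      rw [← Matrix.mulVec_mulVec, ha c _ (hJ u), Matrix.smul_mulVec]
    have h3 := congrArg (fun X => P * X) (h2.symm.trans h1)
    simp only [Matrix.mul_smul, ← Matrix.mul_assoc, hPJ, Matrix.one_mul] at h3
    exact h3.symm

/-- the eigenvalues of central words are values of central characters -/
theorem eig_om (R : Rep q) (C : Subgroup (FreeGroup q)) (hC : ∀ c ∈ C, Cen c) (c : C) (a : ℂ)
    (v : R.ι → ℂ) (hv : v ≠ 0) (h : (R.w c : Matrix R.ι R.ι ℂ) *ᵥ v = a • v) :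
    ∃ ω ∈ Om C, ((ω c : ℂˣ) : ℂ) = a := by
  have stab : ∀ (c' : C) (b : ℂ) (x : q),
      ∀ u ∈ Module.End.eigenspace (R.w c' : Matrix R.ι R.ι ℂ).mulVecLin b,
        R.ρ x *ᵥ u ∈ Module.End.eigenspace (R.w c' : Matrix R.ι R.ι ℂ).mulVecLin b := by
    intro c' b x u hu
    rw [Module.End.mem_eigenspace_iff, Matrix.mulVecLin_apply] at hu ⊢
    rw [Matrix.mulVec_mulVec, (hC c' c'.2 R x).eq, ← Matrix.mulVec_mulVec, hu, Matrix.mulVec_smul]
  obtain ⟨W, ⟨hW, hWs, hWa⟩, hmin⟩ := (wellFounded_lt (α := Submodule ℂ (R.ι → ℂ))).has_min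
    {W | W ≠ ⊥ ∧ (∀ x, ∀ u ∈ W, R.ρ x *ᵥ u ∈ W) ∧
      W ≤ Module.End.eigenspace (R.w c : Matrix R.ι R.ι ℂ).mulVecLin a}
    ⟨_, fun h0 => hv (by
      have : v ∈ Module.End.eigenspace (R.w c : Matrix R.ι R.ι ℂ).mulVecLin a := by
        rw [Module.End.mem_eigenspace_iff, Matrix.mulVecLin_apply]
        exact h
      rw [h0] at this
      exact this), stab c a, le_rfl⟩
  obtain ⟨ω, hω, hωW⟩ := exists_om R C W hW hWs fun c' => by
    obtain ⟨b, u, huW, hu0, hu⟩ := exists_eig (R.w c' : Matrix R.ι R.ι ℂ) W hW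
      (R.w_mulVec_mem (W.restrictScalars ℝ) hWs c')
    refine ⟨b, fun u' hu' => ?_⟩
    have hle : W ≤ W ⊓ Module.End.eigenspace (R.w c' : Matrix R.ι R.ι ℂ).mulVecLin b := by
      by_contra hn
      refine hmin (W ⊓ Module.End.eigenspace (R.w c' : Matrix R.ι R.ι ℂ).mulVecLin b)
        ⟨fun h0 => hu0 ?_, fun x z hz => ⟨hWs x z hz.1, stab c' b x z hz.2⟩,
          inf_le_left.trans hWa⟩ (lt_of_le_not_ge inf_le_left hn)
      have : u ∈ W ⊓ Module.End.eigenspace (R.w c' : Matrix R.ι R.ι ℂ).mulVecLin b :=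
        ⟨huW, by
          rw [SetLike.mem_coe, Module.End.mem_eigenspace_iff, Matrix.mulVecLin_apply]
          exact hu⟩
      rw [h0] at this
      exact this
    have := (hle hu').2
    rwa [SetLike.mem_coe, Module.End.mem_eigenspace_iff, Matrix.mulVecLin_apply] at this
  obtain ⟨v0, hv0, hne⟩ := Submodule.exists_mem_ne_zero_of_ne_bot hW
  refine ⟨ω, hω, smul_left_injective ℂ hne ?_⟩
  have := hWa hv0
  rw [Module.End.mem_eigenspace_iff, Matrix.mulVecLin_apply, hωW c v0 hv0] at this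
  exact this

/-- the central characters separate the words -/
theorem sep
    (hw : ∀ (R : Rep q) (B : Submodule ℝ (R.ι → ℂ)), (∀ x, ∀ v ∈ B, R.ρ x *ᵥ v ∈ B) →
      ∃ B' : Submodule ℝ (R.ι → ℂ), IsCompl B B' ∧ ∀ x, ∀ v ∈ B', R.ρ x *ᵥ v ∈ B')
    (C : Subgroup (FreeGroup q)) (hC : ∀ c ∈ C, Cen c) (c : C) (h : ∀ ω ∈ Om C, ω c = 1) :
    (c : FreeGroup q) ∈ Wd q := by
  rw [mem_Wd]
  intro R
  set T : Matrix R.ι R.ι ℂ := (R.w c : Matrix R.ι R.ι ℂ) with hT
  have hTc : ∀ x, T * R.ρ x = R.ρ x * T := fun x => (hC c c.2 R x).eq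
  obtain ⟨B', hB, hB'⟩ := hw R ((LinearMap.ker (T - 1).mulVecLin).restrictScalars ℝ) (by
    intro x v hv
    rw [Submodule.restrictScalars_mem, LinearMap.mem_ker, Matrix.mulVecLin_apply] at hv ⊢
    rw [Matrix.mulVec_mulVec, sub_mul, hTc, one_mul, ← mul_sub_one, ← Matrix.mulVec_mulVec, hv,
      Matrix.mulVec_zero])
  have hTB := R.w_mulVec_mem B' hB' c
  by_cases h0 : LinearMap.range (T - 1).mulVecLin = ⊥
  · ext1
    rw [LinearMap.range_eq_bot] at h0
    rw [Units.val_one, ← sub_eq_zero, Matrix.ext_iff_mulVec]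
    intro v
    rw [Matrix.zero_mulVec]
    exact LinearMap.congr_fun h0 v
  obtain ⟨a, v, ⟨u, rfl⟩, hv0, hv⟩ := exists_eig T _ h0 (by
    rintro _ ⟨u, rfl⟩
    refine ⟨T *ᵥ u, ?_⟩
    simp only [Matrix.mulVecLin_apply, Matrix.mulVec_mulVec, sub_mul, mul_sub, one_mul, mul_one])
  obtain ⟨ω, hω, ha⟩ := eig_om R C hC c a _ hv0 hv
  rw [h ω hω, Units.val_one] at ha
  subst ha
  exfalso
  apply hv0
  refine (Submodule.disjoint_def.1 hB.disjoint) _ ?_ ?_
  · rw [Submodule.restrictScalars_mem, LinearMap.mem_ker, Matrix.mulVecLin_apply,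
      Matrix.sub_mulVec, hv, one_smul, Matrix.one_mulVec, sub_self]
  · have hu : u ∈ (LinearMap.ker (T - 1).mulVecLin).restrictScalars ℝ ⊔ B' := by
      rw [hB.sup_eq_top]
      trivial
    obtain ⟨y, hy, z, hz, rfl⟩ := Submodule.mem_sup.1 hu
    rw [Submodule.restrictScalars_mem, LinearMap.mem_ker] at hy
    rw [map_add, hy, zero_add, Matrix.mulVecLin_apply, Matrix.sub_mulVec, Matrix.one_mulVec]
    exact B'.sub_mem (hTB z hz) hz

/-- duality for a finite monoid of characters -/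
theorem mem_of_kills {G : Type} [Group G] (S : Set (G →* ℂˣ)) (hfin : S.Finite) (h1 : 1 ∈ S)
    (hm : ∀ ω ∈ S, ∀ ω' ∈ S, ω * ω' ∈ S) (χ : G →* ℂˣ)
    (hχ : ∀ c, (∀ ω ∈ S, ω c = 1) → χ c = 1) : χ ∈ S := by
  classical
  let s := hfin.toFinset
  have hs : ∀ ω, ω ∈ s ↔ ω ∈ S := fun ω => hfin.mem_toFinset
  have hinv : ∀ ω0 ∈ S, s.image (fun ω => ω0 * ω) = s := by
    intro ω0 h0
    apply Finset.eq_of_subset_of_card_le
    · intro ω hω
      obtain ⟨ω', h', rfl⟩ := Finset.mem_image.1 hω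
      exact (hs _).2 (hm _ h0 _ ((hs _).1 h'))
    · rw [Finset.card_image_of_injective _ (mul_right_injective ω0)]
  have hsum : ∀ (ψ : G →* ℂˣ) (c : G), ∑ ω ∈ s.image (fun ω => ψ * ω), ((ω c : ℂˣ) : ℂ) =
      ((ψ c : ℂˣ) : ℂ) * ∑ ω ∈ s, ((ω c : ℂˣ) : ℂ) := by
    intro ψ c
    rw [Finset.sum_image fun a _ b _ hab => mul_right_injective ψ hab, Finset.mul_sum]
    simp
  have hkey : ∀ c, ∑ ω ∈ s.image (fun ω => χ * ω), ((ω c : ℂˣ) : ℂ) =
      ∑ ω ∈ s, ((ω c : ℂˣ) : ℂ) := by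
    intro c
    rw [hsum]
    by_cases h0 : ∑ ω ∈ s, ((ω c : ℂˣ) : ℂ) = 0
    · rw [h0, mul_zero]
    · rw [hχ c fun ω0 hω0 => ?_, Units.val_one, one_mul]
      have := hsum ω0 c
      rw [hinv ω0 hω0] at this
      exact Units.ext (mul_right_cancel₀ h0 (by rw [← this, Units.val_one, one_mul]))
  by_contra hn
  have hli : LinearIndependent ℂ fun ω : G →* ℂˣ => fun c => ((ω c : ℂˣ) : ℂ) :=
    (linearIndependent_monoidHom G ℂ).comp (fun ω : G →* ℂˣ => (Units.coeHom ℂ).comp ω)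
      fun a b hab => MonoidHom.ext fun c => Units.ext (DFunLike.congr_fun hab c)
  have hχm : χ ∈ s.image (fun ω => χ * ω) := Finset.mem_image.2 ⟨1, (hs _).2 h1, mul_one χ⟩
  have := linearIndependent_iff'.1 hli (s.image (fun ω => χ * ω) ∪ s)
    (fun ω => (if ω ∈ s.image (fun ω => χ * ω) then (1 : ℂ) else 0) - if ω ∈ s then 1 else 0)
    (by
      funext c
      simp only [Finset.sum_apply, Pi.smul_apply, smul_eq_mul, sub_mul, ite_mul, one_mul, zero_mul,
        Finset.sum_sub_distrib, Finset.sum_ite_mem, Finset.union_inter_cancel_left,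
        Finset.union_inter_cancel_right, Pi.zero_apply, hkey c, sub_self])
    χ (Finset.mem_union_left _ hχm)
  rw [if_pos hχm, if_neg (fun h => hn ((hs _).1 h)), sub_zero] at this
  exact one_ne_zero this

end Chars

/-- every character that kills the universally trivial words is a central character -/
theorem chars
    (hw : ∀ (R : Rep q) (B : Submodule ℝ (R.ι → ℂ)), (∀ x, ∀ v ∈ B, R.ρ x *ᵥ v ∈ B) →
      ∃ B' : Submodule ℝ (R.ι → ℂ), IsCompl B B' ∧ ∀ x, ∀ v ∈ B', R.ρ x *ᵥ v ∈ B')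
    (C : Subgroup (FreeGroup q)) (hC : ∀ c ∈ C, Cen c) (hfin : (Om C).Finite) (χ : C →* ℂˣ)
    (hχ : ∀ c : C, (c : FreeGroup q) ∈ Wd q → χ c = 1) : χ ∈ Om C :=
  Chars.mem_of_kills _ hfin (Chars.one_mem C) (fun _ h _ h' => Chars.mul_mem h h') χ
    fun c hc => hχ c (Chars.sep hw C hC c hc)

end Pool.Agent.MP_c15733_al.H87
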