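import Pool.Agent.MP_c15733_al.H87.Base

namespace Pool.Agent.MP_c15733_al.H87

open Filter Topology NormedSpace Matrix

universe u

attribute [local instance 100] LieRing.ofAssociativeRing

section Flow

open Set Metric

variable {E : Type} [NormedAddCommGroup E] [NormedSpace ℝ E]

/-- the radial retraction on a ball -/
theorem chart_retr {ρ : ℝ} (hρ : 0 < ρ) : ∃ P : E → E, (∀ x, ‖P x‖ ≤ ρ) ∧
    (∀ x, ‖x‖ ≤ ρ → P x = x) ∧ ∀ x y, ‖P x - P y‖ ≤ 2 * ‖x - y‖ := by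
  have hm : ∀ x : E, 0 < max ρ ‖x‖ := fun x => lt_max_of_lt_left hρ
  refine ⟨fun x => (ρ / max ρ ‖x‖) • x, fun x => ?_, fun x hx => ?_, fun x y => ?_⟩
  · rw [norm_smul, Real.norm_of_nonneg (div_pos hρ (hm x)).le, div_mul_eq_mul_div,
      div_le_iff₀ (hm x)]
    exact mul_le_mul_of_nonneg_left (le_max_right _ _) hρ.le
  · simp only [max_eq_left hx, div_self hρ.ne', one_smul]
  · have h1 : (ρ / max ρ ‖x‖) • x - (ρ / max ρ ‖y‖) • y = (ρ / max ρ ‖x‖) • (x - y) +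
        ((ρ / max ρ ‖x‖) * (max ρ ‖y‖ - max ρ ‖x‖) / max ρ ‖y‖) • y := by
      have := (hm x).ne'
      have := (hm y).ne'
      rw [smul_sub, sub_add, ← sub_smul]
      congr 2
      field_simp
      ring
    have h2 : ρ / max ρ ‖x‖ ≤ 1 := (div_le_one (hm x)).2 (le_max_left _ _)
    have h3 : |max ρ ‖y‖ - max ρ ‖x‖| ≤ ‖x - y‖ := by
      rw [max_comm ρ, max_comm ρ, norm_sub_rev]
      exact (abs_max_sub_max_le_abs _ _ _).trans (abs_norm_sub_norm_le _ _)
    have h4 : ‖y‖ / max ρ ‖y‖ ≤ 1 := (div_le_one (hm y)).2 (le_max_right _ _)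
    have h5 := (div_pos hρ (hm x)).le
    simp only [h1]
    refine (norm_add_le _ _).trans ?_
    rw [norm_smul, norm_smul, Real.norm_of_nonneg h5, Real.norm_eq_abs, abs_div, abs_mul,
      abs_of_nonneg h5, abs_of_pos (hm y), div_mul_eq_mul_div _ _ ‖y‖, mul_div_assoc, two_mul]
    refine add_le_add (mul_le_of_le_one_left (norm_nonneg _) h2) ?_
    exact (mul_le_of_le_one_right (by positivity) h4).trans
      ((mul_le_of_le_one_left (abs_nonneg _) h2).trans h3)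

variable {B : E → E →L[ℝ] E} {K : ℝ}

theorem chart_lip (hK : 0 ≤ K) (hB : ∀ x y, ‖B x - B y‖ ≤ K * ‖x - y‖) (X : E) :
    LipschitzWith ⟨K * ‖X‖, by positivity⟩ fun x => B x X := by
  refine LipschitzWith.of_dist_le_mul fun x y => ?_
  rw [dist_eq_norm, dist_eq_norm, ← _root_.sub_apply]
  refine ((B x - B y).le_opNorm X).trans ?_
  change _ ≤ K * ‖X‖ * _
  rw [mul_right_comm]
  exact mul_le_mul_of_nonneg_right (hB x y) (norm_nonneg _)

theorem chart_uniq (hK : 0 ≤ K) (hB : ∀ x y, ‖B x - B y‖ ≤ K * ‖x - y‖) (X : E) {c : ℝ}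
    (hc : 0 < c) {f g : ℝ → E} (hf : ∀ t ∈ Icc (-c) c, HasDerivWithinAt f (B (f t) X) (Icc (-c) c) t)
    (hg : ∀ t ∈ Icc (-c) c, HasDerivWithinAt g (B (g t) X) (Icc (-c) c) t) (h : f 0 = g 0) :
    EqOn f g (Icc (-c) c) :=
  ODE_solution_unique_of_mem_Icc (v := fun _ x => B x X) (s := fun _ => univ)
    (fun _ _ => (chart_lip hK hB X).lipschitzOnWith) ⟨by linarith, hc⟩
    (fun t ht => (hf t ht).continuousWithinAt)
    (fun t ht => (hf t (Ioo_subset_Icc_self ht)).hasDerivAt (Icc_mem_nhds ht.1 ht.2))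
    (fun _ _ => trivial) (fun t ht => (hg t ht).continuousWithinAt)
    (fun t ht => (hg t (Ioo_subset_Icc_self ht)).hasDerivAt (Icc_mem_nhds ht.1 ht.2))
    (fun _ _ => trivial) h

theorem chart_flow [CompleteSpace E] (hK : 0 ≤ K) (hB : ∀ x y, ‖B x - B y‖ ≤ K * ‖x - y‖)
    (h2 : ∀ x, ‖B x‖ ≤ 2) (h0 : B 0 = 1) : ∃ α : E → ℝ → E, (∀ X, α X 0 = 0) ∧
      (∀ X, ∀ t ∈ Icc (-1 : ℝ) 1, HasDerivWithinAt (α X) (B (α X t) X) (Icc (-1) 1) t) ∧
      (∀ X, ∀ t ∈ Icc (-1 : ℝ) 1, ‖α X t‖ ≤ 2 * ‖X‖) ∧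
      (∀ X, ∀ s ∈ Icc (-1 : ℝ) 1, α (s • X) 1 = α X s) ∧
      ∀ X Y, K * ‖X‖ ≤ 1 → ‖α X 1 - α Y 1‖ ≤ 4 * ‖X - Y‖ ∧
        ‖α X 1 - α Y 1 - (X - Y)‖ ≤ K * (4 * ‖X‖ + 2 * ‖Y‖) * ‖X - Y‖ := by
  have hb : ∀ x X, ‖B x X‖ ≤ 2 * ‖X‖ := fun x X =>
    ((B x).le_opNorm X).trans (mul_le_mul_of_nonneg_right (h2 x) (norm_nonneg _))
  have h1 : ∀ X : E, ∃ α : ℝ → E, α 0 = 0 ∧
      ∀ t ∈ Icc (-1 : ℝ) 1, HasDerivWithinAt α (B (α t) X) (Icc (-1) 1) t := fun X =>
    (IsPicardLindelof.of_time_independent (f := fun x => B x X) (tmin := -1) (tmax := 1)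
      (t₀ := ⟨0, by simp⟩) (x₀ := 0) (a := 2 * ‖X‖₊) (r := 0) (L := 2 * ‖X‖₊)
      (fun x _ => hb x X) (chart_lip hK hB X).lipschitzOnWith
      (by simp)).exists_eq_forall_mem_Icc_hasDerivWithinAt₀
  choose α a0 a1 using h1
  have a2 : ∀ X, ∀ t ∈ Icc (-1 : ℝ) 1, ‖α X t‖ ≤ 2 * ‖X‖ := by
    intro X t ht
    have h3 := (convex_Icc (-1 : ℝ) 1).norm_image_sub_le_of_norm_hasDerivWithin_le (a1 X)
      (fun t _ => hb _ X) (x := 0) (by simp) ht
    rw [a0, sub_zero, sub_zero] at h3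
    exact h3.trans (mul_le_of_le_one_right (by positivity) (abs_le.2 ht))
  refine ⟨α, a0, a1, a2, fun X s hs => ?_, fun X Y hX => ?_⟩
  · have h3 := chart_uniq hK hB (s • X) one_pos (a1 (s • X)) (g := fun t => α X (s * t))
      (fun t ht => by
        have h4 : MapsTo (fun t => s * t) (Icc (-1 : ℝ) 1) (Icc (-1) 1) := fun t ht =>
          abs_le.1 (by
            rw [abs_mul]
            exact mul_le_one₀ (abs_le.2 hs) (abs_nonneg _) (abs_le.2 ht))
        have h5 := (a1 X _ (h4 ht)).scomp t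
          ((hasDerivAt_id t).const_mul s).hasDerivWithinAt h4
        rw [map_smul]
        simpa [Function.comp_def] using h5) (by simp [a0]) (right_mem_Icc.2 (by norm_num))
    simpa using h3
  · have hs : Icc (0 : ℝ) 1 ⊆ Icc (-1) 1 := Icc_subset_Icc_left (by norm_num)
    have d1 : ∀ t ∈ Icc (0 : ℝ) 1, HasDerivWithinAt (fun t => α X t - α Y t)
        (B (α X t) X - B (α Y t) Y) (Icc 0 1) t := fun t ht =>
      ((a1 X t (hs ht)).sub (a1 Y t (hs ht))).mono hs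
    have e1 : ∀ x y, ‖(B x - B y) X‖ ≤ K * ‖X‖ * ‖x - y‖ := fun x y =>
      ((B x - B y).le_opNorm X).trans (by
        rw [mul_right_comm]
        exact mul_le_mul_of_nonneg_right (hB x y) (norm_nonneg _))
    have d2 : ∀ t ∈ Icc (0 : ℝ) 1, ‖α X t - α Y t‖ ≤ 4 * ‖X - Y‖ := by
      intro t ht
      have h3 := norm_le_gronwallBound_of_norm_deriv_right_le (δ := 0) (K := 1)
        (ε := 2 * ‖X - Y‖) (fun t ht => (d1 t ht).continuousWithinAt)
        (fun t ht => (d1 t (Ico_subset_Icc_self ht)).mono_of_mem_nhdsWithin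
          (Icc_mem_nhdsGE_of_mem ht)) (by simp [a0]) (fun t _ => by
          have h4 : B (α X t) X - B (α Y t) Y = (B (α X t) - B (α Y t)) X + B (α Y t) (X - Y) := by
            simp
          rw [h4]
          refine (norm_add_le _ _).trans (add_le_add ((e1 _ _).trans ?_) (hb _ _))
          exact mul_le_mul_of_nonneg_right hX (norm_nonneg _)) t ht
      rw [gronwallBound_of_K_ne_0 one_ne_zero] at h3
      have h4 : Real.exp (1 * (t - 0)) ≤ 3 :=
        (Real.exp_le_exp.2 (by linarith [ht.2])).trans Real.exp_one_lt_three.le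
      have h5 := norm_nonneg (X - Y)
      nlinarith
    refine ⟨d2 1 (by simp), ?_⟩
    have h3 := norm_image_sub_le_of_norm_deriv_le_segment_01'
      (f := fun t => α X t - α Y t - t • (X - Y))
      (f' := fun t => B (α X t) X - B (α Y t) Y - (1 : ℝ) • (X - Y))
      (C := K * (4 * ‖X‖ + 2 * ‖Y‖) * ‖X - Y‖)
      (fun t ht => (d1 t ht).sub ((hasDerivAt_id t).smul_const (X - Y)).hasDerivWithinAt)
      fun t ht => by
        have h4 : B (α X t) X - B (α Y t) Y - (1 : ℝ) • (X - Y) =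
            (B (α X t) - B (α Y t)) X + (B (α Y t) - B 0) (X - Y) := by
          simp [h0]
          abel
        have h5 := d2 t (Ico_subset_Icc_self ht)
        have h6 := a2 Y t (hs (Ico_subset_Icc_self ht))
        have h7 := hB (α Y t) 0
        rw [sub_zero] at h7
        rw [h4]
        calc _ ≤ K * ‖X‖ * ‖α X t - α Y t‖ + ‖B (α Y t) - B 0‖ * ‖X - Y‖ :=
              (norm_add_le _ _).trans (add_le_add (e1 _ _) (ContinuousLinearMap.le_opNorm _ _))
          _ ≤ K * ‖X‖ * (4 * ‖X - Y‖) + K * (2 * ‖Y‖) * ‖X - Y‖ := by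
              gcongr
              exact h7.trans (by gcongr)
          _ = _ := by ring
    simpa [a0] using h3

end Flow

variable {G : Type u} [Group G] [TopologicalSpace G]

section Loc

variable {E : Type} [NormedAddCommGroup E] [NormedSpace ℝ E]

/-- a local one-parameter structure extends -/
theorem chart_glob [IsTopologicalGroup G] {e0 : E → G} {η : ℝ} (hη : 0 < η)
    (hc : ContinuousOn e0 (Metric.closedBall 0 η))
    (ha : ∀ (Z : E) (s t : ℝ), ‖s • Z‖ ≤ η → ‖t • Z‖ ≤ η → e0 ((s + t) • Z) = e0 (s • Z) * e0 (t • Z)) :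
    ∃ e : E → G, Continuous e ∧ (∀ (X : E) (s t : ℝ), e ((s + t) • X) = e (s • X) * e (t • X)) ∧
      ∀ X, ‖X‖ ≤ η → e X = e0 X := by
  have h0 : e0 0 = 1 := by
    have := ha 0 0 0 (by simpa using hη.le) (by simpa using hη.le)
    simpa using this
  have hv : ∀ (n : ℕ) (X : E), ‖X‖ ≤ (n + 1) * η → ‖((n : ℝ) + 1)⁻¹ • X‖ ≤ η := by
    intro n X h
    rw [norm_smul, Real.norm_of_nonneg (by positivity), inv_mul_le_iff₀ (by positivity)]
    exact h
  have h1 : ∀ (Y : E) (k j : ℕ), ‖Y‖ ≤ η → j ≤ k + 1 →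
      e0 ((j * ((k : ℝ) + 1)⁻¹) • Y) = e0 (((k : ℝ) + 1)⁻¹ • Y) ^ j := by
    intro Y k j hY
    have hs : ∀ j : ℕ, j ≤ k + 1 → ‖(j * ((k : ℝ) + 1)⁻¹) • Y‖ ≤ η := by
      intro j hj
      rw [norm_smul, Real.norm_of_nonneg (by positivity)]
      refine (mul_le_of_le_one_left (norm_nonneg _) ?_).trans hY
      rw [mul_inv_le_iff₀ (by positivity), one_mul]
      exact_mod_cast hj
    induction j with
    | zero => simp [h0]
    | succ j ih =>
      intro hj
      have h2 := hs 1 (by omega)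
      rw [Nat.cast_one, one_mul] at h2
      rw [Nat.cast_succ, add_mul, one_mul, ha _ _ _ (hs j (by omega)) h2, ih (by omega), pow_succ]
  have h2 : ∀ (n k : ℕ) (X : E), ‖X‖ ≤ (n + 1) * η → e0 (((n : ℝ) + 1)⁻¹ • X) ^ (n + 1) =
      e0 ((((n : ℝ) + 1) * (k + 1))⁻¹ • X) ^ ((n + 1) * (k + 1)) := by
    intro n k X h
    have h3 := h1 _ k (k + 1) (hv n X h) le_rfl
    rw [Nat.cast_succ, mul_inv_cancel₀ (by positivity), one_smul, smul_smul] at h3
    rw [h3, ← pow_mul, mul_comm (k + 1), mul_inv, mul_comm ((k : ℝ) + 1)⁻¹]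
  have hN : ∀ X : E, ‖X‖ ≤ (⌈‖X‖ / η⌉₊ + 1) * η := fun X => by
    rw [← div_le_iff₀ hη]
    linarith [Nat.le_ceil (‖X‖ / η)]
  have h3 : ∀ (n : ℕ) (X : E), ‖X‖ ≤ (n + 1) * η →
      e0 (((⌈‖X‖ / η⌉₊ : ℝ) + 1)⁻¹ • X) ^ (⌈‖X‖ / η⌉₊ + 1) = e0 (((n : ℝ) + 1)⁻¹ • X) ^ (n + 1) := by
    intro n X h
    rw [h2 _ n X (hN X), h2 n ⌈‖X‖ / η⌉₊ X h, mul_comm ((n : ℝ) + 1), mul_comm (n + 1)]
  refine ⟨fun X => e0 (((⌈‖X‖ / η⌉₊ : ℝ) + 1)⁻¹ • X) ^ (⌈‖X‖ / η⌉₊ + 1),
    continuous_iff_continuousAt.2 fun X => ?_, fun X s t => ?_, fun X hX => ?_⟩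
  · have h4 : ∀ᶠ Y in 𝓝 X, ‖Y‖ ≤ (⌈‖X‖ / η⌉₊ + 1) * η := by
      refine (continuous_norm.tendsto X).eventually (eventually_le_nhds ?_)
      rw [← div_lt_iff₀ hη]
      linarith [Nat.le_ceil (‖X‖ / η)]
    refine ContinuousAt.congr ?_ (h4.mono fun Y hY => (h3 _ Y hY).symm)
    refine ContinuousAt.pow (ContinuousOn.continuousAt ?_ h4) _
    exact hc.comp (continuous_const_smul _).continuousOn fun Y hY => by simpa using hv _ Y hY
  · obtain ⟨n, hn⟩ := exists_nat_ge ((‖s • X‖ + ‖t • X‖) / η)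
    rw [div_le_iff₀ hη] at hn
    have k0 := norm_nonneg (s • X)
    have k0' := norm_nonneg (t • X)
    have k1 : ‖s • X‖ ≤ (n + 1) * η := by linarith
    have k2 : ‖t • X‖ ≤ (n + 1) * η := by linarith
    have k3 : ‖(s + t) • X‖ ≤ (n + 1) * η := by
      rw [add_smul]
      linarith [norm_add_le (s • X) (t • X)]
    simp only [h3 n _ k1, h3 n _ k2, h3 n _ k3]
    have k4 := hv n _ k1
    have k5 := hv n _ k2
    simp only [smul_comm ((n : ℝ) + 1)⁻¹] at k4 k5 ⊢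
    have k6 := ha _ s t k4 k5
    rw [k6]
    refine Commute.mul_pow ?_ _
    rw [Commute, SemiconjBy, ← k6, add_comm s t, ha _ t s k5 k4]
  · have := h3 0 X (by simpa using hX)
    simpa using this

theorem chart_loc [IsTopologicalGroup G] [CompleteSpace E] {lam : G → E} {psi : E → G}
    (h1 : psi 0 = 1) (h2 : ∀ᶠ x in 𝓝 0, lam (psi x) = x) (h3 : ∀ᶠ g in 𝓝 1, psi (lam g) = g)
    (h4 : Tendsto lam (𝓝 1) (𝓝 0)) (h5 : ∀ᶠ x in 𝓝 0, ContinuousAt psi x)
    (h6 : ContDiffAt ℝ 2 (fun p : E × E => lam (psi p.1 * psi p.2)) 0) :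
    ∃ (e : E → G) (l : G → E), IsE e l := by
  set m := fun p : E × E => lam (psi p.1 * psi p.2) with hm
  have p0 : Tendsto psi (𝓝 0) (𝓝 1) := h1 ▸ h5.self_of_nhds.tendsto
  have p1 : Tendsto (fun p : E × E => psi p.1 * psi p.2) (𝓝 0) (𝓝 1) := by
    simpa using (p0.comp (continuous_fst.tendsto (0 : E × E))).mul
      (p0.comp (continuous_snd.tendsto (0 : E × E)))
  have p2 : ∀ᶠ p : E × E in 𝓝 0, psi (m p) = psi p.1 * psi p.2 := p1.eventually h3
  have p3 : Tendsto m (𝓝 0) (𝓝 0) := h4.comp p1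
  have p4 : ∀ᶠ x in 𝓝 (0 : E), m (x, 0) = x := h2.mono fun x hx => by simpa [hm, h1] using hx
  have p5 : ∀ᶠ x in 𝓝 (0 : E), m (0, x) = x := h2.mono fun x hx => by simpa [hm, h1] using hx
  have p6 : ∀ᶠ p : E × E in 𝓝 0, DifferentiableAt ℝ m p :=
    (h6.eventually (by simp)).mono fun p hp => hp.differentiableAt (by simp)
  have inr : ∀ x : E, DifferentiableAt ℝ m (x, 0) →
      HasFDerivAt (fun z => m (x, z)) ((fderiv ℝ m (x, 0)).comp (.inr ℝ E E)) 0 := fun x hx =>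
    hx.hasFDerivAt.comp (0 : E) (hasFDerivAt_prodMk_right x 0)
  have q1 : (fderiv ℝ m 0).comp (.inr ℝ E E) = 1 :=
    (inr 0 p6.self_of_nhds).unique ((hasFDerivAt_id (0 : E)).congr_of_eventuallyEq p5)
  have q2 : (fderiv ℝ m 0).comp (.inl ℝ E E) = 1 :=
    (HasFDerivAt.comp (0 : E) (g := m) (f := fun e : E => (e, (0 : E)))
      p6.self_of_nhds.hasFDerivAt (hasFDerivAt_prodMk_left (0 : E) (0 : E))).unique
      ((hasFDerivAt_id (0 : E)).congr_of_eventuallyEq p4)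
  have q3 : HasStrictFDerivAt m
      (ContinuousLinearMap.fst ℝ E E + ContinuousLinearMap.snd ℝ E E) 0 := by
    refine (h6.hasStrictFDerivAt (by simp)).congr_fderiv (ContinuousLinearMap.prod_ext ?_ ?_)
    · rw [q2]
      ext x
      simp
    · rw [q1]
      ext x
      simp
  set A := fun x : E => (fderiv ℝ m (x, 0)).comp (ContinuousLinearMap.inr ℝ E E) with hA
  have A1 : ContDiffAt ℝ 1 A 0 :=
    (ContDiffAt.comp (0 : E) (g := fderiv ℝ m) (f := fun x : E => (x, (0 : E)))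
      (h6.fderiv_right (m := 1) (by norm_num))
      (contDiffAt_id.prodMk contDiffAt_const)).clm_comp contDiffAt_const
  have A0 : A 0 = 1 := q1
  obtain ⟨K, s, hs, hK⟩ := A1.exists_lipschitzOnWith
  have A2 : ∀ᶠ x in 𝓝 (0 : E), ‖A x‖ ≤ 2 := by
    refine A1.continuousAt.norm.tendsto.eventually (eventually_le_nhds ?_)
    rw [A0]
    exact lt_of_le_of_lt ContinuousLinearMap.norm_id_le one_lt_two
  obtain ⟨ρ0, hρ0, r0⟩ := Metric.nhds_basis_closedBall.eventually_iff.1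
    (A2.and (show ∀ᶠ x in 𝓝 (0 : E), x ∈ s from hs))
  have as : ∀ᶠ p : E × E in 𝓝 0, ∀ V, fderiv ℝ m p (0, A p.2 V) = A (m p) V := by
    have t1 : Tendsto (fun q : (E × E) × E => (q.1.2, q.2)) (𝓝 (0, 0)) (𝓝 0) :=
      Continuous.tendsto' (by fun_prop) _ _ rfl
    have t2 : Tendsto (fun q : (E × E) × E => q.1) (𝓝 (0, 0)) (𝓝 0) := continuous_fst.tendsto _
    have t3 : ∀ᶠ q : (E × E) × E in 𝓝 (0, 0), m (q.1.1, m (q.1.2, q.2)) = m (m q.1, q.2) := by
      filter_upwards [t1.eventually p2, t2.eventually p2] with q k1 k2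
      simp only [hm] at k1 k2 ⊢
      rw [k1, k2, mul_assoc]
    have t4 : Tendsto (fun p : E × E => (p.2, (0 : E))) (𝓝 0) (𝓝 0) :=
      Continuous.tendsto' (by fun_prop) _ _ rfl
    have t5 : Tendsto (fun p : E × E => (m p, (0 : E))) (𝓝 0) (𝓝 0) :=
      p3.prodMk_nhds tendsto_const_nhds
    filter_upwards [t3.curry_nhds, p6, t4.eventually p6, t5.eventually p6,
      (continuous_snd.tendsto (0 : E × E)).eventually p4] with p k1 k2 k3 k4 k5 V
    have k6 : HasFDerivAt m (fderiv ℝ m p) (p.1, m (p.2, 0)) := by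
      rw [k5]
      exact k2.hasFDerivAt
    have k7 := (HasFDerivAt.comp (0 : E) (g := m) (f := fun z => (p.1, m (p.2, z))) k6
      ((hasFDerivAt_const p.1 (0 : E)).prodMk (inr _ k3))).unique
      ((inr _ k4).congr_of_eventuallyEq k1)
    simpa [hA] using congrArg (fun T : E →L[ℝ] E => T V) k7
  have b0 : ∀ᶠ x in 𝓝 (0 : E), ‖x‖ ≤ ρ0 :=
    continuous_norm.continuousAt.eventually (eventually_le_nhds (by simpa using hρ0))
  have f1 := continuous_fst.tendsto (0 : E × E)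
  obtain ⟨ρ, hρ, r1⟩ := Metric.nhds_basis_closedBall.eventually_iff.1
    (as.and (p6.and (p2.and ((p3.eventually b0).and ((f1.eventually b0).and
      ((f1.eventually p4).and (f1.eventually h5)))))))
  have r2 := fun (x y : E) (hx : ‖x‖ ≤ ρ) (hy : ‖y‖ ≤ ρ) =>
    r1 (x := (x, y)) (by simp [Prod.norm_def, hx, hy])
  obtain ⟨P, P1, P2, P3⟩ := chart_retr (E := E) hρ0
  have hB : ∀ x y, ‖A (P x) - A (P y)‖ ≤ K * 2 * ‖x - y‖ := fun x y => by
    refine (hK.norm_sub_le (r0 (by simpa using P1 x)).2 (r0 (by simpa using P1 y)).2).trans ?_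
    rw [mul_assoc]
    exact mul_le_mul_of_nonneg_left (P3 x y) K.2
  have hK0 : (0 : ℝ) ≤ K * 2 := by positivity
  obtain ⟨α, a0, a1, a2, a3, a4⟩ := chart_flow (B := fun x => A (P x)) hK0 hB
    (fun x => (r0 (by simpa using P1 x)).1) (by rw [P2 0 (by simpa using hρ0.le), A0])
  have hI : Set.Icc (-(1 / 2) : ℝ) (1 / 2) ⊆ Set.Icc (-1) 1 :=
    Set.Icc_subset_Icc (by norm_num) (by norm_num)
  have add1 : ∀ X, ‖X‖ ≤ ρ / 2 → ∀ s ∈ Set.Icc (-(1 / 2) : ℝ) (1 / 2),
      ∀ t ∈ Set.Icc (-(1 / 2) : ℝ) (1 / 2), psi (α X (s + t)) = psi (α X s) * psi (α X t) := by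
    intro X hX s hs t ht
    have k0 : ∀ t ∈ Set.Icc (-(1 / 2) : ℝ) (1 / 2), ‖α X t‖ ≤ ρ := fun t ht =>
      (a2 X t (hI ht)).trans (by linarith)
    have k1 := chart_uniq (B := fun x => A (P x)) hK0 hB X (c := 1 / 2) (by norm_num)
      (f := fun t => α X (s + t)) (g := fun t => m (α X s, α X t)) (fun t ht => by
        have k2 : Set.MapsTo (fun t => s + t) (Set.Icc (-(1 / 2) : ℝ) (1 / 2)) (Set.Icc (-1) 1) :=
          fun t ht => ⟨by linarith [hs.1, ht.1], by linarith [hs.2, ht.2]⟩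
        simpa [Function.comp_def] using (a1 X _ (k2 ht)).scomp t
          ((hasDerivAt_id t).const_add s).hasDerivWithinAt k2) (fun t ht => by
        have k2 := r2 _ _ (k0 s hs) (k0 t ht)
        have k3 := k2.2.1.hasFDerivAt.comp_hasDerivWithinAt t
          ((hasDerivWithinAt_const t _ (α X s)).prodMk ((a1 X t (hI ht)).mono hI))
        rw [P2 _ (r2 _ _ (k0 t ht) (k0 t ht)).2.2.2.2.1, k2.1] at k3
        rw [P2 _ k2.2.2.2.1]
        exact k3) (by
        simp only [add_zero, a0]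
        exact (r2 _ _ (k0 s hs) (k0 s hs)).2.2.2.2.2.1.symm) ht
    rw [show α X (s + t) = m (α X s, α X t) from k1]
    exact (r2 _ _ (k0 s hs) (k0 t ht)).2.2.1
  obtain ⟨η, hη, η1, η2⟩ : ∃ η : ℝ, 0 < η ∧ η ≤ ρ / 4 ∧ K * 2 * η ≤ 1 := by
    refine ⟨min (ρ / 4) (K * 2 + 1)⁻¹, by positivity, min_le_left _ _, ?_⟩
    refine (mul_le_mul_of_nonneg_left (min_le_right _ _) hK0).trans ?_
    rw [mul_inv_le_iff₀ (by positivity)]
    linarith
  have c1 : ContinuousOn (fun X => α X 1) (Metric.closedBall 0 η) :=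
    (LipschitzOnWith.of_dist_le_mul (K := 4) fun X hX Y _ => by
      rw [dist_eq_norm, dist_eq_norm]
      exact (a4 X Y ((mul_le_mul_of_nonneg_left (by simpa using hX) hK0).trans η2)).1).continuousOn
  obtain ⟨e, e1, e2, e3⟩ := chart_glob (e0 := fun X => psi (α X 1)) hη (fun X hX => by
      have k1 : ‖α X 1‖ ≤ ρ := (a2 X 1 (by simp)).trans (by
        have : ‖X‖ ≤ η := by simpa using hX
        linarith)
      exact ContinuousAt.comp_continuousWithinAt (g := psi) (f := fun X => α X 1)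
        (r2 _ _ k1 k1).2.2.2.2.2.2 (c1 X hX)) fun Z s t hs ht => by
    rcases eq_or_ne Z 0 with rfl | hZ
    · have := a2 0 1 (by simp)
      rw [norm_zero, mul_zero, norm_le_zero_iff] at this
      simp [this, h1]
    have hz := norm_pos_iff.2 hZ
    have k1 : ∀ s : ℝ, s • Z = (s * ‖Z‖ / (2 * η)) • ((2 * η / ‖Z‖) • Z) := fun s => by
      rw [smul_smul]
      congr 1
      field_simp
    have k2 : ∀ s : ℝ, ‖s • Z‖ ≤ η → s * ‖Z‖ / (2 * η) ∈ Set.Icc (-(1 / 2) : ℝ) (1 / 2) := by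
      intro s hs
      rw [norm_smul, Real.norm_eq_abs] at hs
      refine abs_le.1 ?_
      rw [abs_div, abs_mul, abs_of_pos hz, abs_of_pos (by positivity : 0 < 2 * η),
        div_le_iff₀ (by positivity)]
      linarith
    have k3 := k2 s hs
    have k4 := k2 t ht
    rw [k1 s, k1 t, k1 (s + t), a3 _ _ (hI k3), a3 _ _ (hI k4), add_mul, add_div,
      a3 _ _ ⟨by linarith [k3.1, k4.1], by linarith [k3.2, k4.2]⟩]
    refine add1 _ ?_ _ k3 _ k4
    rw [norm_smul, Real.norm_of_nonneg (by positivity), div_mul_cancel₀ _ hz.ne']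
    linarith
  have κ0 : α 0 1 = 0 := by simpa using a2 0 1 (by simp)
  have bη : ∀ᶠ x in 𝓝 (0 : E), ‖x‖ ≤ η :=
    continuous_norm.continuousAt.eventually (eventually_le_nhds (by simpa using hη))
  have κ1 : HasStrictFDerivAt (fun X => α X 1)
      ((ContinuousLinearEquiv.refl ℝ E : E ≃L[ℝ] E) : E →L[ℝ] E) 0 := by
    refine .of_isLittleO (Asymptotics.isLittleO_iff.2 fun c hc => ?_)
    have t1 : Tendsto (fun p : E × E => K * 2 * (4 * ‖p.1‖ + 2 * ‖p.2‖)) (𝓝 (0, 0)) (𝓝 0) :=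
      Continuous.tendsto' (by fun_prop) _ _ (by simp)
    filter_upwards [t1.eventually (eventually_le_nhds hc), f1.eventually bη] with p k1 k2
    exact (a4 p.1 p.2 ((mul_le_mul_of_nonneg_left k2 hK0).trans η2)).2.trans
      (mul_le_mul_of_nonneg_right k1 (norm_nonneg _))
  have κ2 : Tendsto (fun X => α X 1) (𝓝 0) (𝓝 0) := by simpa [κ0] using κ1.continuousAt.tendsto
  have i1 := κ1.localInverse_tendsto
  have i2 := κ1.eventually_right_inverse
  have i3 := κ1.to_localInverse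
  simp only [κ0] at i1 i2 i3
  refine ⟨e, fun g => κ1.localInverse _ _ _ (lam g), e1, e2, ?_, ?_, i1.comp h4, ?_⟩
  · filter_upwards [bη, κ2.eventually h2, κ1.eventually_left_inverse] with X k1 k2 k3
    rw [e3 X k1, k2, k3]
  · filter_upwards [h4.eventually (i1.eventually bη), h4.eventually i2, h3] with g k1 k2 k3
    rw [e3 _ k1, k2, k3]
  · have s1 : HasStrictFDerivAt (fun p : E × E => (α p.1 1, α p.2 1)) _ 0 :=
      (HasStrictFDerivAt.comp (0 : E × E) (g := fun X => α X 1) (f := Prod.fst) κ1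
        hasStrictFDerivAt_fst).prodMk (HasStrictFDerivAt.comp (0 : E × E) (g := fun X => α X 1)
          (f := Prod.snd) κ1 hasStrictFDerivAt_snd)
    have s2 := HasStrictFDerivAt.comp (0 : E × E) (g := m)
      (by simp only [Prod.fst_zero, Prod.snd_zero, κ0]; exact q3) s1
    have m0 : m (0, 0) = 0 := p4.self_of_nhds
    have s3 := HasStrictFDerivAt.comp (0 : E × E) (g := κ1.localInverse _ _ _)
      (by simpa [κ0, m0] using i3) s2
    refine (s3.congr_fderiv ?_).congr_of_eventuallyEq ?_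
    · ext x <;> simp
    · filter_upwards [f1.eventually bη, (continuous_snd.tendsto (0 : E × E)).eventually bη]
        with p k1 k2
      rw [e3 _ k1, e3 _ k2]

end Loc

theorem IsLie.isTopologicalGroup (h : IsLie G) : IsTopologicalGroup G := by
  obtain ⟨-, E, _, _, _, _, h⟩ := h
  exact topologicalGroup_of_lieGroup (modelWithCornersSelf ℝ E) ((⊤ : ℕ∞) : WithTop ℕ∞)

/-- a Lie group has an exponential chart -/
theorem IsLie.exists_isE (h : IsLie G) :
    ∃ (E : Type) (_ : NormedAddCommGroup E) (_ : NormedSpace ℝ E) (_ : FiniteDimensional ℝ E)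
      (e : E → G) (l : G → E), IsE e l := by
  have := h.isTopologicalGroup
  obtain ⟨-, E, _, _, _, _, h⟩ := h
  have := FiniteDimensional.complete ℝ E
  refine ⟨E, inferInstance, inferInstance, inferInstance, ?_⟩
  set φ := chartAt E (1 : G)
  have s1 : (1 : G) ∈ φ.source := mem_chart_source E 1
  have t1 : ∀ᶠ x in 𝓝 (0 : E), φ 1 + x ∈ φ.target :=
    (Continuous.tendsto' (f := fun x => φ 1 + x) (by fun_prop) _ _ (add_zero _)).eventually
      (φ.open_target.mem_nhds (φ.map_source s1))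
  have h1 : φ.symm (φ 1 + 0) = 1 := by rw [add_zero, φ.left_inv s1]
  refine chart_loc (lam := fun g => φ g - φ 1) (psi := fun x => φ.symm (φ 1 + x)) h1
    (t1.mono fun x hx => by rw [φ.right_inv hx, add_sub_cancel_left])
    (Eventually.mono (φ.open_source.mem_nhds s1) fun g hg => by
      rw [add_sub_cancel, φ.left_inv hg])
    (by simpa using (φ.continuousAt s1).tendsto.sub_const (φ 1))
    (t1.mono fun x hx => (φ.continuousAt_symm hx).comp (by fun_prop)) ?_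
  have c1 : ContMDiffAt (modelWithCornersSelf ℝ E) (modelWithCornersSelf ℝ E)
      ((⊤ : ℕ∞) : WithTop ℕ∞) φ.symm (φ 1 + 0) :=
    contMDiffOn_chart_symm.contMDiffAt (φ.open_target.mem_nhds t1.self_of_nhds)
  have c2 : ContMDiffAt (modelWithCornersSelf ℝ E) (modelWithCornersSelf ℝ E)
      ((⊤ : ℕ∞) : WithTop ℕ∞) φ (φ.symm (φ 1 + 0) * φ.symm (φ 1 + 0)) := by
    rw [h1, mul_one]
    exact contMDiffOn_chart.contMDiffAt (φ.open_source.mem_nhds s1)
  have c3 : ContMDiffAt (modelWithCornersSelf ℝ (E × E)) (modelWithCornersSelf ℝ E)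
      ((⊤ : ℕ∞) : WithTop ℕ∞) (fun p : E × E => φ.symm (φ 1 + p.1) * φ.symm (φ 1 + p.2)) 0 :=
    (c1.comp (0 : E × E) (f := fun p : E × E => φ 1 + p.1)
      (contMDiffAt_iff_contDiffAt.2 (by fun_prop))).mul
      (c1.comp (0 : E × E) (f := fun p : E × E => φ 1 + p.2)
        (contMDiffAt_iff_contDiffAt.2 (by fun_prop)))
  exact ((contMDiffAt_iff_contDiffAt.1 (c2.comp (0 : E × E) c3)).sub contDiffAt_const).of_le
    (WithTop.coe_le_coe.2 (le_top : (2 : ℕ∞) ≤ ⊤))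

end Pool.Agent.MP_c15733_al.H87
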