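import Pool.Agent.MP_c15733_al.H87.Base

/-! Lie theory in an exponential chart: one-parameter groups, derivatives, adjoint action. -/

namespace Pool.Agent.MP_c15733_al.H87

open Filter Topology NormedSpace

universe u v

variable {E : Type} [NormedAddCommGroup E] [NormedSpace ℝ E] {G : Type u} [Group G]
  [TopologicalSpace G] {e : E → G} {l : G → E}
  {E' : Type} [NormedAddCommGroup E'] [NormedSpace ℝ E'] {G' : Type v} [Group G']
  [TopologicalSpace G'] {e' : E' → G'} {l' : G' → E'}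

theorem tendsto_smul_zero (Z : E) : Tendsto (fun t : ℝ => t • Z) (𝓝 0) (𝓝 0) :=
  (by fun_prop : Continuous fun t : ℝ => t • Z).tendsto' _ _ (zero_smul _ _)

namespace IsE

theorem e_zero (h : IsE e l) : e 0 = 1 := by
  have := h.add 0 0 0
  simp only [smul_zero] at this
  exact left_eq_mul.1 this

theorem e_neg (h : IsE e l) (X : E) : e (-X) = (e X)⁻¹ := by
  have := h.add X 1 (-1)
  rw [add_neg_cancel, zero_smul, h.e_zero, one_smul, neg_one_smul] at this
  exact (eq_inv_of_mul_eq_one_right this.symm)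

theorem e_nsmul (h : IsE e l) (X : E) (n : ℕ) : e ((n : ℝ) • X) = e X ^ n := by
  induction n with
  | zero => simp [h.e_zero]
  | succ n ih => rw [Nat.cast_succ, h.add, ih, one_smul, pow_succ]

theorem l_one (h : IsE e l) : l 1 = 0 := by
  have := h.le.self_of_nhds
  rwa [h.e_zero] at this

theorem tendsto_e (h : IsE e l) : Tendsto e (𝓝 0) (𝓝 1) := by
  simpa [h.e_zero] using h.cont.tendsto 0

theorem image_mem (h : IsE e l) {U : Set E} (hU : U ∈ 𝓝 0) : e '' U ∈ 𝓝 (1 : G) := by
  filter_upwards [h.el, h.tend hU] with g h1 h2 using ⟨l g, h2, h1⟩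

theorem exists_r (h : IsE e l) : ∃ r > 0, ∀ X : E, ‖X‖ < r → l (e X) = X := by
  obtain ⟨r, hr, H⟩ := Metric.eventually_nhds_iff.1 h.le
  exact ⟨r, hr, fun X hX => H (by simpa using hX)⟩

theorem ext (h : IsE e l) {X Y : E} (H : ∀ t : ℝ, e (t • X) = e (t • Y)) : X = Y := by
  have h1 : ∀ Z : E, ∀ᶠ t : ℝ in 𝓝 0, l (e (t • Z)) = t • Z := fun Z =>
    (tendsto_smul_zero Z).eventually h.le
  have h2 : ∀ᶠ t : ℝ in 𝓝[≠] 0, t • X = t • Y := by
    filter_upwards [nhdsWithin_le_nhds (h1 X), nhdsWithin_le_nhds (h1 Y)] with t a b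
    rw [← a, ← b, H]
  obtain ⟨t, a, b⟩ := (h2.and self_mem_nhdsWithin).exists
  exact smul_right_injective E b a

variable [IsTopologicalGroup G]

theorem tendsto_mul (h : IsE e l) :
    Tendsto (fun p : E × E => e p.1 * e p.2) (𝓝 0) (𝓝 1) :=
  ((h.cont.comp continuous_fst).mul (h.cont.comp continuous_snd)).tendsto' _ _
    (by simp [h.e_zero])

theorem em (h : IsE e l) : ∀ᶠ p : E × E in 𝓝 0, e (l (e p.1 * e p.2)) = e p.1 * e p.2 :=
  h.tendsto_mul.eventually h.el

theorem trotter (h : IsE e l) (X Y : E) :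
    Tendsto (fun n : ℕ => (e ((1 / n : ℝ) • X) * e ((1 / n : ℝ) • Y)) ^ n) atTop
      (𝓝 (e (X + Y))) := by
  have hc : HasDerivAt (fun t : ℝ => ((t • X, t • Y) : E × E)) (X, Y) 0 := by
    simpa using ((hasDerivAt_id (0 : ℝ)).smul_const X).prodMk ((hasDerivAt_id (0 : ℝ)).smul_const Y)
  have hd : HasDerivAt (fun t : ℝ => l (e (t • X) * e (t • Y))) (X + Y) 0 := by
    exact h.strict.hasFDerivAt.comp_hasDerivAt_of_eq (0 : ℝ) hc (by simp; rfl)
  have hs := hasDerivAt_iff_tendsto_slope_zero.1 hd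
  have hn : Tendsto (fun n : ℕ => (1 / n : ℝ)) atTop (𝓝[≠] 0) := by
    refine tendsto_nhdsWithin_iff.2 ⟨tendsto_one_div_atTop_nhds_zero_nat, ?_⟩
    filter_upwards [eventually_gt_atTop 0] with n hn
    simp [hn.ne']
  have h1 := (h.cont.tendsto _).comp (hs.comp hn)
  refine h1.congr' ?_
  have h2 : Tendsto (fun n : ℕ => (((1 / n : ℝ) • X, (1 / n : ℝ) • Y) : E × E)) atTop (𝓝 0) := by
    have := hc.continuousAt.tendsto.comp (tendsto_nhdsWithin_iff.1 hn).1
    rw [zero_smul, zero_smul] at this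
    exact this
  filter_upwards [h2.eventually h.em] with n h3
  simp only [Function.comp_apply, zero_add, zero_smul, h.e_zero, mul_one, h.l_one, sub_zero,
    one_div, inv_inv] at h3 ⊢
  rw [h.e_nsmul, h3]

omit [IsTopologicalGroup G] in
theorem ops [T2Space G] (h : IsE e l) (γ : ℝ → G) (hc : Continuous γ)
    (hγ : ∀ s t, γ (s + t) = γ s * γ t) : ∃ X : E, ∀ t, γ t = e (t • X) := by
  obtain ⟨r, hr, H⟩ := h.exists_r
  have h0 : γ 0 = 1 := by simpa using hγ 0 0
  have ht : Tendsto γ (𝓝 0) (𝓝 1) := by simpa [h0] using hc.tendsto 0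
  have h1 : ∀ᶠ t in 𝓝 (0 : ℝ), e (l (γ t)) = γ t ∧ ‖l (γ t)‖ < r / 2 := by
    refine (ht.eventually h.el).and
      ((h.tend.comp ht).eventually (p := fun X => ‖X‖ < r / 2) ?_)
    filter_upwards [Metric.ball_mem_nhds (0 : E) (half_pos hr)] with X hX using by simpa using hX
  obtain ⟨δ, hδ, H1⟩ := Metric.eventually_nhds_iff.1 h1
  have hd : 0 < δ / 2 := half_pos hδ
  have key : ∀ n : ℕ, l (γ (δ / 2 / 2 ^ n)) = (1 / 2 ^ n : ℝ) • l (γ (δ / 2)) := by
    intro n
    induction n with
    | zero => simp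
    | succ n ih =>
      have hs : dist (δ / 2 / 2 ^ (n + 1)) 0 < δ := by
        rw [Real.dist_eq, sub_zero, abs_of_pos (by positivity)]
        exact (div_le_self hd.le (one_le_pow₀ (by norm_num))).trans_lt (half_lt_self hδ)
      obtain ⟨a, b⟩ := H1 hs
      have h2 : γ (δ / 2 / 2 ^ n) = e (((2 : ℕ) : ℝ) • l (γ (δ / 2 / 2 ^ (n + 1)))) := by
        rw [h.e_nsmul, a, sq, ← hγ]
        congr 1
        ring
      rw [h2, H _ (by rw [norm_smul]; norm_num; linarith)] at ih
      have h3 := congrArg (fun v => (1 / 2 : ℝ) • v) ih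
      simp only [smul_smul] at h3
      norm_num at h3
      rw [h3]
      congr 1
      ring
  refine ⟨(1 / (δ / 2) : ℝ) • l (γ (δ / 2)), ?_⟩
  set X := (1 / (δ / 2) : ℝ) • l (γ (δ / 2)) with hX
  let S : AddSubgroup ℝ :=
    { carrier := {t | γ t = e (t • X)}
      add_mem' := fun {s t} a b => by
        simp only [Set.mem_ofPred_eq] at a b ⊢
        rw [hγ, a, b, h.add]
      zero_mem' := by simp [h0, h.e_zero]
      neg_mem' := fun {t} a => by
        simp only [Set.mem_ofPred_eq] at a ⊢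
        rw [neg_smul, h.e_neg, ← a]
        exact eq_inv_of_mul_eq_one_right (by rw [← hγ, add_neg_cancel, h0]) }
  have hS : Dense (S : Set ℝ) := by
    refine S.dense_of_not_isolated_zero fun ε hε => ?_
    obtain ⟨n, hn⟩ := pow_unbounded_of_one_lt (δ / 2 / ε) (by norm_num : (1 : ℝ) < 2)
    refine ⟨δ / 2 / 2 ^ n, ?_, by positivity, ?_⟩
    · have hs : dist (δ / 2 / 2 ^ n) 0 < δ := by
        rw [Real.dist_eq, sub_zero, abs_of_pos (by positivity)]
        exact (div_le_self hd.le (one_le_pow₀ (by norm_num))).trans_lt (half_lt_self hδ)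
      show γ _ = e _
      rw [← (H1 hs).1, key, hX, smul_smul]
      congr 2
      field_simp
    · rw [div_lt_iff₀ (by positivity)]
      rw [div_lt_iff₀ hε] at hn
      linarith
  have hcl : IsClosed (S : Set ℝ) :=
    isClosed_eq hc (h.cont.comp (continuous_id.smul continuous_const))
  intro t
  have : t ∈ (S : Set ℝ) := by rw [← hcl.closure_eq, hS.closure_eq]; trivial
  exact this

theorem exists_deriv [FiniteDimensional ℝ E] [IsTopologicalGroup G'] [T2Space G'] (h : IsE e l)
    (h' : IsE e' l') (f : G →* G') (hf : Continuous f) :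
    ∃ φ : E →L[ℝ] E', ∀ X, f (e X) = e' (φ X) := by
  have H : ∀ X : E, ∃ Y : E', ∀ t : ℝ, f (e (t • X)) = e' (t • Y) := fun X =>
    h'.ops (fun t => f (e (t • X)))
      (hf.comp (h.cont.comp (continuous_id.smul continuous_const)))
      (fun s t => by rw [h.add, map_mul])
  choose φ hφ using H
  have hs : ∀ (c : ℝ) X, φ (c • X) = c • φ X := fun c X =>
    h'.ext fun t => by rw [← hφ, smul_smul, smul_smul, hφ]
  have h1 : ∀ X, f (e X) = e' (φ X) := fun X => by simpa using hφ X 1
  have ha : ∀ X Y, f (e (X + Y)) = e' (φ X + φ Y) := by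
    intro X Y
    have a := (hf.tendsto _).comp (h.trotter X Y)
    have b := h'.trotter (φ X) (φ Y)
    refine tendsto_nhds_unique a (b.congr fun n => ?_)
    simp only [Function.comp_apply, map_pow, map_mul, hφ]
  refine ⟨LinearMap.toContinuousLinearMap
    { toFun := φ, map_add' := fun X Y => h'.ext fun t => ?_, map_smul' := hs }, h1⟩
  rw [← hφ, smul_add, ha, hs, hs, smul_add]

theorem eq_top [ConnectedSpace G] (h : IsE e l) (S : Subgroup G) (hS : ∀ X, e X ∈ S) : S = ⊤ := by
  have ho : IsOpen (S : Set G) := S.isOpen_of_mem_nhds (g := 1)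
    (mem_of_superset (h.image_mem univ_mem) (by rintro _ ⟨X, -, rfl⟩; exact hS X))
  have := IsClopen.eq_univ ⟨S.isClosed_of_isOpen ho, ho⟩ ⟨1, S.one_mem⟩
  exact Subgroup.coe_eq_univ.1 this

theorem locallyCompact [FiniteDimensional ℝ E] (h : IsE e l) : LocallyCompactSpace G :=
  haveI := FiniteDimensional.proper_real E
  ((isCompact_closedBall (0 : E) 1).image h.cont).locallyCompactSpace_of_mem_nhds_of_group
    (h.image_mem (Metric.closedBall_mem_nhds _ one_pos))

end IsE

section Units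

variable {A : Type} [NormedRing A] [NormedAlgebra ℝ A] [CompleteSpace A]

theorem hasDerivAt_exp_zero' {B : Type*} [NormedRing B] [NormedAlgebra ℝ B] [CompleteSpace B]
    (a : B) : HasDerivAt (fun t : ℝ => exp (t • a)) a 0 := by
  simpa using hasDerivAt_exp_smul_const (𝕂 := ℝ) a 0

theorem exists_isE_units : ∃ lA : Aˣ → A, IsE (expU : A → Aˣ) lA := by
  have hs : HasStrictFDerivAt (exp : A → A)
      ((ContinuousLinearEquiv.refl ℝ A : A ≃L[ℝ] A) : A →L[ℝ] A) 0 :=
    hasStrictFDerivAt_exp_zero (𝕂 := ℝ)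
  have hv : Tendsto (fun u : Aˣ => (u : A)) (𝓝 1) (𝓝 (exp (0 : A))) := by
    simpa using Units.continuous_val.tendsto (1 : Aˣ)
  refine ⟨fun u => hs.localInverse _ _ _ (u : A), ?_, fun X s t => ?_, hs.eventually_left_inverse,
    ?_, ?_, ?_⟩
  · exact Units.continuous_iff.2 ⟨exp_cont, exp_cont.comp continuous_neg⟩
  · ext
    rw [Units.val_mul, expU_val, expU_val, expU_val, add_smul,
      exp_add' (((Commute.refl X).smul_left s).smul_right t)]
  · filter_upwards [hv.eventually hs.eventually_right_inverse] with u hu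
    exact Units.ext hu
  · exact hs.localInverse_tendsto.comp hv
  · have h1 : HasStrictFDerivAt (fun p : A × A => exp p.1 * exp p.2)
        (ContinuousLinearMap.fst ℝ A A + ContinuousLinearMap.snd ℝ A A) 0 := by
      have a := hs.comp (0 : A × A) (hasStrictFDerivAt_fst (𝕜 := ℝ) (p := (0 : A × A)))
      have b := hs.comp (0 : A × A) (hasStrictFDerivAt_snd (𝕜 := ℝ) (p := (0 : A × A)))
      refine (a.mul' b).congr_fderiv ?_
      ext <;> simp
    have h2 := hs.to_localInverse
    rw [show exp (0 : A) = (fun p : A × A => exp p.1 * exp p.2) 0 by simp] at h2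
    exact (h2.comp (0 : A × A) h1).congr_fderiv (by ext <;> simp)

theorem IsE.rep_deriv [FiniteDimensional ℝ E] [IsTopologicalGroup G] (h : IsE e l) (f : G →* Aˣ)
    (hf : Continuous f) : ∃ φ : E →L[ℝ] A, ∀ X, (f (e X) : A) = exp (φ X) := by
  obtain ⟨lA, hA⟩ := exists_isE_units (A := A)
  obtain ⟨φ, hφ⟩ := h.exists_deriv hA f hf
  exact ⟨φ, fun X => by rw [hφ, expU_val]⟩

end Units

variable [FiniteDimensional ℝ E] [IsTopologicalGroup G] [T2Space G]

theorem IsE.exists_Ad (h : IsE e l) : ∃ Ad : G →* (E →L[ℝ] E)ˣ, Continuous Ad ∧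
    ∀ g X, g * e X * g⁻¹ = e ((Ad g : E →L[ℝ] E) X) := by
  have H : ∀ g : G, ∃ A : E →L[ℝ] E, ∀ X, g * e X * g⁻¹ = e (A X) := fun g =>
    h.exists_deriv h (MulAut.conj g).toMonoidHom (by
      show Continuous fun x => g * x * g⁻¹
      fun_prop)
  choose A hA using H
  let A' : G →* (E →L[ℝ] E) :=
    { toFun := A
      map_one' := by
        ext X
        exact h.ext fun t => by rw [← map_smul, ← hA]; simp
      map_mul' := fun a b => by
        ext X
        refine h.ext fun t => ?_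
        rw [← map_smul, ← map_smul, ← hA, mul_apply_eq_comp, ← hA, ← hA]
        group }
  have hs : HasStrictFDerivAt (fun p : E × E => l (e p.1 * e p.2 * (e p.1)⁻¹))
      (ContinuousLinearMap.snd ℝ E E) 0 := by
    have a := h.strict.prodMk (hasStrictFDerivAt_fst (𝕜 := ℝ) (p := (0 : E × E))).neg
    have b := h.strict
    rw [show (0 : E × E) = (fun p : E × E => (l (e p.1 * e p.2), -p.1)) 0 by
      simp [h.e_zero, h.l_one]; rfl] at b
    refine ((b.comp (0 : E × E) a).congr_fderiv (by ext <;> simp)).congr_of_eventuallyEq ?_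
    filter_upwards [h.em] with p hp
    simp only [Pi.neg_apply, hp, h.e_neg]
  have h1 : ContinuousAt A' 1 := by
    rw [Metric.continuousAt_iff']
    intro ε hε
    have h2 := (hasStrictFDerivAt_iff_isLittleO.1 hs).def (half_pos hε)
    have h3 : Tendsto (fun p : E × E => ((p, (p.1, 0)) : (E × E) × (E × E))) (𝓝 0 ×ˢ 𝓝 0)
        (𝓝 (0, 0)) := by
      rw [← nhds_prod_eq]
      exact (by fun_prop : Continuous fun p : E × E =>
        ((p, (p.1, 0)) : (E × E) × (E × E))).tendsto' _ _ (by simp)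
    filter_upwards [h.tend.eventually (h3.eventually h2).curry, h.el] with g h4 h5
    rw [map_one, dist_eq_norm]
    refine lt_of_le_of_lt (ContinuousLinearMap.opNorm_le_bound _ (half_pos hε).le fun X => ?_)
      (half_lt_self hε)
    have t1 : ∀ Z : E, Tendsto (fun t : ℝ => t • Z) (𝓝[>] 0) (𝓝 0) := fun Z =>
      tendsto_nhdsWithin_of_tendsto_nhds (tendsto_smul_zero Z)
    obtain ⟨t, ⟨a, b⟩, ht⟩ := ((((t1 X).eventually h4).and ((t1 (A g X)).eventually h.le)).and
      self_mem_nhdsWithin).exists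
    have ht0 : 0 < t := ht
    simp only [h5, h.e_zero, mul_one, mul_inv_cancel, h.l_one, sub_zero, Prod.mk_sub_mk, sub_self,
      ContinuousLinearMap.coe_snd', hA, map_smul, b, Prod.norm_mk, norm_zero] at a
    rw [← smul_sub, norm_smul, max_eq_right (norm_nonneg _), norm_smul, Real.norm_of_nonneg ht0.le,
      mul_left_comm] at a
    exact le_of_mul_le_mul_left a ht0
  have h2 : Continuous A' := by
    refine continuous_iff_continuousAt.2 fun g => ?_
    have : (A' : G → E →L[ℝ] E) = fun x => A' g * A' (g⁻¹ * x) := by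
      funext x
      rw [← map_mul, mul_inv_cancel_left]
    rw [this]
    exact continuousAt_const.mul (h1.comp_of_eq (by fun_prop) (by simp))
  refine ⟨A'.toHomUnits, Units.continuous_iff.2 ⟨h2, ?_⟩, hA⟩
  exact h2.comp continuous_inv

theorem IsE.exists_isL (h : IsE e l) : ∃ _ : LieBr E, IsL e l := by
  obtain ⟨Ad, hc, hA⟩ := h.exists_Ad
  obtain ⟨ad, had⟩ := h.rep_deriv Ad hc
  suffices H : (∀ X, ad X X = 0) ∧ ∀ X Y, ad (ad X Y) = ad X * ad Y - ad Y * ad X by
    let _ : LieBr E := ⟨ad, H.1, H.2⟩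
    exact ⟨_, h, fun X Y => by rw [hA, had]; rfl⟩
  refine ⟨fun X => ?_, fun Y X => ?_⟩
  · have h1 : ∀ s : ℝ, exp (s • ad X) X = X := fun s => h.ext fun t => by
      rw [← map_smul ad, ← had, ← map_smul, ← hA, ← h.add, add_comm, h.add, mul_inv_cancel_right]
    have h2 := (hasDerivAt_exp_zero' (ad X)).clm_apply (hasDerivAt_const (0 : ℝ) X)
    simp only [h1, map_zero, add_zero] at h2
    exact h2.unique (hasDerivAt_const _ _)
  · have h1 : ∀ (g : G) (X : E), ad ((Ad g : E →L[ℝ] E) X) =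
        (Ad g : E →L[ℝ] E) * ad X * ((Ad g)⁻¹ : (E →L[ℝ] E)ˣ) := by
      intro g X
      have a := hasDerivAt_exp_zero' (ad ((Ad g : E →L[ℝ] E) X))
      have b := ((hasDerivAt_exp_zero' (ad X)).const_mul (Ad g : E →L[ℝ] E)).mul_const
        (((Ad g)⁻¹ : (E →L[ℝ] E)ˣ) : E →L[ℝ] E)
      refine a.unique (b.congr_of_eventuallyEq (Eventually.of_forall fun t => ?_))
      simp only [← map_smul, ← had, ← hA, map_mul, map_inv, Units.val_mul]
    have a := ad.hasFDerivAt.comp_hasDerivAt (0 : ℝ)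
      ((hasDerivAt_exp_zero' (ad Y)).clm_apply (hasDerivAt_const (0 : ℝ) X))
    have b := ((hasDerivAt_exp_zero' (ad Y)).mul_const (ad X)).mul (hasDerivAt_exp_zero' (-ad Y))
    have c := a.unique (b.congr_of_eventuallyEq (Eventually.of_forall fun t => by
      simp only [Function.comp_apply, Pi.mul_apply, smul_neg, ← map_smul, ← map_neg, ← had, h1,
        h.e_neg, map_inv]))
    simpa [sub_eq_add_neg] using c

variable [LieBr E]

omit [FiniteDimensional ℝ E] [IsTopologicalGroup G] [T2Space G] in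
theorem IsL.Ad_e (h : IsL e l) {A : E →L[ℝ] E} {X : E}
    (hA : ∀ Y, e X * e Y * (e X)⁻¹ = e (A Y)) : A = exp (LieBr.ad X) := by
  ext Y
  exact h.toIsE.ext fun t => by rw [← map_smul, ← map_smul, ← hA, h.conj]

omit [IsTopologicalGroup G] [T2Space G] in
theorem IsL.deriv_lie [FiniteDimensional ℝ E'] [LieBr E'] (h : IsL e l) (h' : IsL e' l')
    (f : G →* G') (φ : E →L[ℝ] E') (hφ : ∀ X, f (e X) = e' (φ X)) (X Y : E) :
    φ ⁅X, Y⁆ = ⁅φ X, φ Y⁆ := by
  have h1 : ∀ X : E, φ (exp (LieBr.ad X) Y) = exp (LieBr.ad (φ X)) (φ Y) := fun X =>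
    h'.toIsE.ext fun t => by
      rw [← map_smul, ← map_smul, ← map_smul, ← map_smul, ← hφ, ← h.conj, ← h'.conj, map_mul,
        map_mul, map_inv, hφ, hφ]
  have a := φ.hasFDerivAt.comp_hasDerivAt (0 : ℝ)
    ((hasDerivAt_exp_zero' (LieBr.ad X)).clm_apply (hasDerivAt_const (0 : ℝ) Y))
  have b := (hasDerivAt_exp_zero' (LieBr.ad (φ X))).clm_apply (hasDerivAt_const (0 : ℝ) (φ Y))
  have c := a.unique (b.congr_of_eventuallyEq (Eventually.of_forall fun t => by
    simp only [Function.comp_apply, ← map_smul, h1]))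
  simpa [LieBr.ad_apply] using c

omit [IsTopologicalGroup G] [T2Space G] in
theorem IsL.rep_lie {A : Type} [NormedRing A] [NormedAlgebra ℝ A] [CompleteSpace A] (h : IsL e l)
    (f : G →* Aˣ) (φ : E →L[ℝ] A) (hφ : ∀ X, (f (e X) : A) = exp (φ X)) (X Y : E) :
    φ ⁅X, Y⁆ = φ X * φ Y - φ Y * φ X := by
  have h1 : ∀ X : E, φ (exp (LieBr.ad X) Y) = exp (φ X) * φ Y * exp (φ (-X)) := by
    intro X
    have a := hasDerivAt_exp_zero' (φ (exp (LieBr.ad X) Y))
    have b := ((hasDerivAt_exp_zero' (φ Y)).const_mul (exp (φ X))).mul_const (exp (φ (-X)))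
    refine a.unique (b.congr_of_eventuallyEq (Eventually.of_forall fun t => ?_))
    simp only [← map_smul, ← hφ, ← h.conj, map_mul, Units.val_mul, h.toIsE.e_neg]
  have a := φ.hasFDerivAt.comp_hasDerivAt (0 : ℝ)
    ((hasDerivAt_exp_zero' (LieBr.ad X)).clm_apply (hasDerivAt_const (0 : ℝ) Y))
  have b := ((hasDerivAt_exp_zero' (φ X)).mul_const (φ Y)).mul (hasDerivAt_exp_zero' (φ (-X)))
  have c := a.unique (b.congr_of_eventuallyEq (Eventually.of_forall fun t => by
    simp only [Function.comp_apply, Pi.mul_apply, ← map_smul, h1, smul_neg]))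
  simpa [LieBr.ad_apply, sub_eq_add_neg] using c

omit [IsTopologicalGroup G] [T2Space G] in
theorem IsL.commute (h : IsL e l) {X Y : E} (hXY : ⁅X, Y⁆ = 0) : Commute (e X) (e Y) := by
  have h1 : exp (LieBr.ad X) Y = Y := by
    have := map_exp_eq (a := LieBr.ad X) (b := (0 : E →L[ℝ] E))
      (ContinuousLinearMap.apply ℝ E Y) (ContinuousLinearMap.apply ℝ E Y) (fun n => by
        cases n with
        | zero => simp
        | succ n => simp [pow_succ, LieBr.ad_apply, hXY])
    simpa using this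
  have := h.conj X Y
  rw [h1] at this
  exact mul_inv_eq_iff_eq_mul.1 this

theorem IsL.e_add (h : IsL e l) {X Y : E} (hXY : ⁅X, Y⁆ = 0) : e (X + Y) = e X * e Y := by
  refine tendsto_nhds_unique (h.toIsE.trotter X Y) (tendsto_const_nhds.congr' ?_)
  filter_upwards [eventually_gt_atTop 0] with n hn
  have hn' : (n : ℝ) ≠ 0 := by exact_mod_cast hn.ne'
  rw [(h.commute (by simp [hXY])).mul_pow, ← h.toIsE.e_nsmul, ← h.toIsE.e_nsmul, smul_smul,
    smul_smul, mul_one_div_cancel hn', one_smul, one_smul]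

end Pool.Agent.MP_c15733_al.H87
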