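import Pool.Agent.MP_c15733_al.H87.Core1

/-! Closed subgroups and quotients of groups with an exponential chart. -/

namespace Pool.Agent.MP_c15733_al.H87

open Filter Topology NormedSpace

universe u v

variable {E : Type} [NormedAddCommGroup E] [NormedSpace ℝ E] {G : Type u} [Group G]
  [TopologicalSpace G] [IsTopologicalGroup G] {e : E → G} {l : G → E}

namespace IsE

/-- the Lie algebra of a closed subgroup -/
def lie (h : IsE e l) (S : Subgroup G) (hS : IsClosed (S : Set G)) : Submodule ℝ E where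
  carrier := {X | ∀ t : ℝ, e (t • X) ∈ S}
  add_mem' := fun {X Y} a b t => by
    rw [smul_add]
    refine hS.mem_of_tendsto (h.trotter _ _) (Eventually.of_forall fun n => ?_)
    rw [smul_smul, smul_smul]
    exact S.pow_mem (S.mul_mem (a _) (b _)) n
  zero_mem' := fun t => by rw [smul_zero, h.e_zero]; exact S.one_mem
  smul_mem' := fun c X a t => by rw [smul_smul]; exact a _

theorem mem_lie (h : IsE e l) {S : Subgroup G} {hS : IsClosed (S : Set G)} {X : E} :
    X ∈ h.lie S hS ↔ ∀ t : ℝ, e (t • X) ∈ S := Iff.rfl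

theorem e_mem (h : IsE e l) {S : Subgroup G} {hS : IsClosed (S : Set G)} {X : E}
    (hX : X ∈ h.lie S hS) : e X ∈ S := by simpa using hX 1

theorem mem_lie_of_tendsto (h : IsE e l) {S : Subgroup G} (hS : IsClosed (S : Set G))
    {W : ℕ → E} {c : ℕ → ℝ} {X : E} (hW : ∀ n, e (W n) ∈ S) (hc : ∀ n, 0 < c n)
    (hc0 : Tendsto c atTop (𝓝 0)) (hX : Tendsto (fun n => (c n)⁻¹ • W n) atTop (𝓝 X)) :
    X ∈ h.lie S hS := by
  have key : ∀ t : ℝ, 0 ≤ t → e (t • X) ∈ S := by
    intro t ht
    have h1 : Tendsto (fun n => (⌊t / c n⌋₊ : ℝ) * c n) atTop (𝓝 t) := by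
      refine tendsto_of_tendsto_of_tendsto_of_le_of_le (g := fun n => t - c n) (h := fun _ => t)
        (by simpa using tendsto_const_nhds.sub hc0) tendsto_const_nhds (fun n => ?_) fun n => ?_
      · have := Nat.lt_floor_add_one (t / c n)
        rw [div_lt_iff₀ (hc n)] at this
        simp only
        linarith
      · have := Nat.floor_le (div_nonneg ht (hc n).le)
        rwa [le_div_iff₀ (hc n)] at this
    refine hS.mem_of_tendsto ((h.cont.tendsto _).comp (h1.smul hX))
      (Eventually.of_forall fun n => ?_)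
    rw [Function.comp_apply, smul_smul, mul_inv_cancel_right₀ (hc n).ne', h.e_nsmul]
    exact S.pow_mem (hW n) _
  intro t
  rcases le_total 0 t with ht | ht
  · exact key t ht
  · have := S.inv_mem (key (-t) (by linarith))
    rwa [neg_smul, h.e_neg, inv_inv] at this

omit [IsTopologicalGroup G] in
/-- the difference of two small exponentials -/
theorem diff (h : IsE e l) {ε : ℝ} (hε : 0 < ε) : ∀ᶠ p : E × E in 𝓝 0,
    ‖l ((e p.1)⁻¹ * e p.2) - (p.2 - p.1)‖ ≤ ε * ‖p.2 - p.1‖ := by
  have h2 := (hasStrictFDerivAt_iff_isLittleO.1 h.strict).def hε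
  have h3 : Tendsto (fun p : E × E => (((-p.1, p.2), (-p.1, p.1)) : (E × E) × (E × E))) (𝓝 0)
      (𝓝 (0, 0)) :=
    (by fun_prop : Continuous fun p : E × E =>
      (((-p.1, p.2), (-p.1, p.1)) : (E × E) × (E × E))).tendsto' _ _ (by simp)
  filter_upwards [h3.eventually h2] with p hp
  simpa [h.e_neg, h.l_one, Prod.norm_mk] using hp

theorem tendsto_diff (h : IsE e l) :
    Tendsto (fun p : E × E => (e p.1)⁻¹ * e p.2) (𝓝 0) (𝓝 1) :=
  ((h.cont.comp continuous_fst).inv.mul (h.cont.comp continuous_snd)).tendsto' _ _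
    (by simp [h.e_zero])

variable [FiniteDimensional ℝ E]

/-- Cartan's closed subgroup theorem -/
theorem cartan (h : IsE e l) {S : Subgroup G} (hS : IsClosed (S : Set G)) :
    ∀ᶠ g in 𝓝 (1 : G), g ∈ S → l g ∈ h.lie S hS := by
  suffices H : ∀ᶠ Z in 𝓝 (0 : E), e Z ∈ S → Z ∈ h.lie S hS by
    filter_upwards [h.tend.eventually H, h.el] with g a b hg using a (b.symm ▸ hg)
  by_contra H
  rw [not_eventually] at H
  obtain ⟨Z, hZ, hZ'⟩ := exists_seq_forall_of_frequently H
  simp only [Classical.not_imp] at hZ'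
  obtain ⟨V, hV⟩ := (h.lie S hS).exists_isCompl
  let P : E →L[ℝ] E := LinearMap.toContinuousLinearMap
    ((h.lie S hS).subtype ∘ₗ (h.lie S hS).projectionOnto V hV)
  have hP : ∀ X, P X ∈ h.lie S hS := fun X => ((h.lie S hS).projectionOnto V hV X).2
  have hQ : ∀ X, X - P X ∈ V := by
    intro X
    have := Submodule.projection_add_projection_eq_self hV X
    rw [show X - P X = _ from sub_eq_of_eq_add' this.symm]
    exact Submodule.projection_apply_mem hV.symm X
  have hc : ∀ n, 0 < ‖Z n - P (Z n)‖ := fun n => norm_pos_iff.2 fun h0 =>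
    (hZ' n).2 (by rw [sub_eq_zero.1 h0]; exact hP _)
  have t1 : Tendsto (fun n => ((P (Z n), Z n) : E × E)) atTop (𝓝 0) := by
    have := ((P.continuous.tendsto' 0 0 (map_zero P)).comp hZ).prodMk_nhds hZ
    exact this
  have t2 : Tendsto (fun n => ‖Z n - P (Z n)‖) atTop (𝓝 0) := by
    have := (hZ.sub ((P.continuous.tendsto' 0 0 (map_zero P)).comp hZ)).norm
    simpa using this
  have := FiniteDimensional.proper_real E
  obtain ⟨X, hX, φ, hφ, hl⟩ := (isCompact_sphere (0 : E) 1).tendsto_subseq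
    (x := fun n => ‖Z n - P (Z n)‖⁻¹ • (Z n - P (Z n))) (fun n => by
      simp [norm_smul, (hc n).ne'])
  have hXV : X ∈ V := V.closed_of_finiteDimensional.mem_of_tendsto hl
    (Eventually.of_forall fun n => V.smul_mem _ (hQ _))
  obtain ⟨N, hN⟩ := eventually_atTop.1 (((h.tendsto_diff.comp t1).eventually h.el))
  have t3 : Tendsto (fun n => ‖Z n - P (Z n)‖⁻¹ •
      (l ((e (P (Z n)))⁻¹ * e (Z n)) - (Z n - P (Z n)))) atTop (𝓝 0) := by
    rw [NormedAddGroup.tendsto_nhds_zero]
    intro ε hε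
    filter_upwards [t1.eventually (h.diff (half_pos hε))] with n hn
    rw [norm_smul, norm_inv, norm_norm, inv_mul_lt_iff₀ (hc n)]
    have := hc n
    nlinarith
  have hφN : Tendsto (fun n => φ (n + N)) atTop atTop :=
    hφ.tendsto_atTop.comp (tendsto_add_atTop_nat N)
  have hXS : X ∈ h.lie S hS := by
    refine h.mem_lie_of_tendsto hS (W := fun n => l ((e (P (Z (φ (n + N)))))⁻¹ * e (Z (φ (n + N)))))
      (c := fun n => ‖Z (φ (n + N)) - P (Z (φ (n + N)))‖) (fun n => ?_) (fun n => hc _)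
      (t2.comp hφN) ?_
    · have := hN (φ (n + N)) (le_trans (Nat.le_add_left _ _) (hφ.id_le _))
      simp only [Function.comp_apply] at this
      rw [this]
      exact S.mul_mem (S.inv_mem (h.e_mem (hP _))) (hZ' _).1
    · have := (t3.comp hφN).add (hl.comp (tendsto_add_atTop_nat N))
      rw [zero_add] at this
      refine this.congr fun n => ?_
      simp only [Function.comp_apply, ← smul_add, sub_add_cancel]
  have : X = 0 := (Submodule.disjoint_def.1 hV.disjoint) X hXS hXV
  simp [this] at hX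

/-- a preconnected closed subgroup is generated by the exponentials it contains -/
theorem le_of_preconnected (h : IsE e l) {S T : Subgroup G} (hS : IsClosed (S : Set G))
    (hc : IsPreconnected (S : Set G)) (hT : ∀ X ∈ h.lie S hS, e X ∈ T) : S ≤ T := by
  have := isPreconnected_iff_preconnectedSpace.1 hc
  have ho : IsOpen ((T.subgroupOf S : Subgroup S) : Set S) := by
    refine (T.subgroupOf S).isOpen_of_mem_nhds (g := 1) ?_
    have t : Tendsto (fun g : S => (g : G)) (𝓝 1) (𝓝 1) := continuous_subtype_val.tendsto' _ _ rfl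
    filter_upwards [t.eventually (h.cartan hS), t.eventually h.el] with g a b
    have := hT _ (a g.2)
    rwa [b] at this
  have := IsClopen.eq_univ ⟨(T.subgroupOf S).isClosed_of_isOpen ho, ho⟩ ⟨1, Subgroup.one_mem _⟩
  intro g hg
  have h1 : (⟨g, hg⟩ : S) ∈ ((T.subgroupOf S : Subgroup S) : Set S) := by rw [this]; trivial
  exact h1

/-- a subgroup between the exponentials of a closed subgroup and the subgroup is closed -/
theorem isClosed_of_le (h : IsE e l) {S T : Subgroup G} (hS : IsClosed (S : Set G)) (hle : T ≤ S)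
    (hT : ∀ X ∈ h.lie S hS, e X ∈ T) : IsClosed (T : Set G) := by
  have ho : IsOpen ((T.subgroupOf S : Subgroup S) : Set S) := by
    refine (T.subgroupOf S).isOpen_of_mem_nhds (g := 1) ?_
    have t : Tendsto (fun g : S => (g : G)) (𝓝 1) (𝓝 1) := continuous_subtype_val.tendsto' _ _ rfl
    filter_upwards [t.eventually (h.cartan hS), t.eventually h.el] with g a b
    have := hT _ (a g.2)
    rwa [b] at this
  have h1 := hS.isClosedMap_subtype_val _ ((T.subgroupOf S).isClosed_of_isOpen ho)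
  have : Subtype.val '' ((T.subgroupOf S : Subgroup S) : Set S) = (T : Set G) := by
    ext g
    exact ⟨by rintro ⟨x, hx, rfl⟩; exact hx, fun hg => ⟨⟨g, hle hg⟩, hg, rfl⟩⟩
  exact this ▸ h1

theorem exists_sub (h : IsE e l) (S : Subgroup G) (hS : IsClosed (S : Set G)) :
    ∃ l' : S → h.lie S hS, IsE (fun X : h.lie S hS => (⟨e X, h.e_mem X.2⟩ : S)) l' := by
  obtain ⟨V, hV⟩ := (h.lie S hS).exists_isCompl
  let P : E →L[ℝ] h.lie S hS := LinearMap.toContinuousLinearMap
    ((h.lie S hS).projectionOnto V hV)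
  have hP : ∀ X : h.lie S hS, P X = X := Submodule.projectionOnto_apply_left hV
  have t : Tendsto (fun g : S => (g : G)) (𝓝 1) (𝓝 1) := continuous_subtype_val.tendsto' _ _ rfl
  have t' : Tendsto (fun X : h.lie S hS => (X : E)) (𝓝 0) (𝓝 0) :=
    continuous_subtype_val.tendsto' _ _ rfl
  refine ⟨fun g => P (l g), (h.cont.comp continuous_subtype_val).subtype_mk _,
    fun X s t => Subtype.ext (h.add X s t), ?_, ?_, ?_, ?_⟩
  · filter_upwards [t'.eventually h.le] with X hX
    rw [hX, hP]
  · filter_upwards [t.eventually (h.cartan hS), t.eventually h.el] with g a b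
    refine Subtype.ext ?_
    show e (P (l g)) = g
    rw [hP ⟨_, a g.2⟩, b]
  · exact (P.continuous.tendsto' 0 0 (map_zero P)).comp (h.tend.comp t)
  · have a := ((h.lie S hS).subtypeL.prodMap (h.lie S hS).subtypeL).hasStrictFDerivAt (x := 0)
    have b := h.strict
    rw [show (0 : E × E) = ((h.lie S hS).subtypeL.prodMap (h.lie S hS).subtypeL) 0 from
      (map_zero _).symm] at b
    refine (P.hasStrictFDerivAt.comp 0 (b.comp 0 a)).congr_fderiv ?_
    ext X <;> simp [hP]

omit [FiniteDimensional ℝ E] in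
theorem mk_e_add (h : IsE e l) (N : Subgroup G) [N.Normal] (hN : IsClosed (N : Set G)) (X : E)
    {Y : E} (hY : Y ∈ h.lie N hN) : (e (X + Y) : G ⧸ N) = (e X : G ⧸ N) := by
  have a := ((QuotientGroup.continuous_mk (N := N)).tendsto _).comp (h.trotter X Y)
  refine tendsto_nhds_unique a (tendsto_const_nhds.congr' ?_)
  filter_upwards [eventually_gt_atTop 0] with n hn
  have hn' : (n : ℝ) ≠ 0 := by exact_mod_cast hn.ne'
  rw [Function.comp_apply, QuotientGroup.mk_pow, QuotientGroup.mk_mul,
    (QuotientGroup.eq_one_iff _).2 (hY _), mul_one, ← QuotientGroup.mk_pow, ← h.e_nsmul,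
    smul_smul, mul_one_div_cancel hn', one_smul]

theorem exists_quot (h : IsE e l) (N : Subgroup G) [N.Normal] (hN : IsClosed (N : Set G)) :
    ∃ (E' : Type) (_ : NormedAddCommGroup E') (_ : NormedSpace ℝ E') (_ : FiniteDimensional ℝ E')
      (e' : E' → G ⧸ N) (l' : G ⧸ N → E') (π : E →L[ℝ] E'), IsE e' l' ∧ Function.Surjective π ∧
      (∀ X, π X = 0 ↔ X ∈ h.lie N hN) ∧ ∀ X, (e X : G ⧸ N) = e' (π X) := by
  classical
  obtain ⟨V, hV⟩ := (h.lie N hN).exists_isCompl
  let π : E →L[ℝ] V := LinearMap.toContinuousLinearMap (V.projectionOnto _ hV.symm)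
  have hπ : ∀ X : V, π X = X := Submodule.projectionOnto_apply_left hV.symm
  have hk : ∀ X, π X = 0 ↔ X ∈ h.lie N hN := fun X =>
    Submodule.projectionOnto_apply_eq_zero_iff hV.symm
  have he : ∀ X, (e X : G ⧸ N) = (e (π X) : G ⧸ N) := by
    intro X
    rw [← h.mk_e_add N hN (π X) (Y := X - π X) ((hk _).1 (by rw [map_sub, hπ, sub_self])),
      add_sub_cancel]
  have t0 : Tendsto (fun g => ((π (l g) : V) : E)) (𝓝 1) (𝓝 0) :=
    (continuous_subtype_val.tendsto' (0 : V) 0 rfl).comp
      ((π.continuous.tendsto' 0 0 (map_zero π)).comp h.tend)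
  have inj : ∀ᶠ p : G × G in 𝓝 1 ×ˢ 𝓝 1, (p.1 : G ⧸ N) = p.2 → π (l p.1) = π (l p.2) := by
    have t1 : Tendsto (fun p : G × G => ((π (l p.1), π (l p.2)) : E × E)) (𝓝 1 ×ˢ 𝓝 1) (𝓝 0) :=
      (t0.comp tendsto_fst).prodMk_nhds (t0.comp tendsto_snd)
    have hε : 0 < 1 / (2 * (‖π‖ + 1)) := by positivity
    filter_upwards [t1.eventually (h.diff hε), (h.tendsto_diff.comp t1).eventually (h.cartan hN),
      tendsto_fst.eventually h.el, tendsto_snd.eventually h.el] with p a b c d hp
    rw [← c, ← d, he, he (l p.2)] at hp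
    have h1 := (hk _).2 (b (QuotientGroup.eq.1 hp))
    have h2 := (π.le_opNorm _).trans (mul_le_mul_of_nonneg_left a (norm_nonneg _))
    simp only [Function.comp_apply] at h1
    rw [map_sub, h1, zero_sub, norm_neg, ← Submodule.coe_sub, hπ, Submodule.coe_norm] at h2
    have h3 : ‖π‖ * (1 / (2 * (‖π‖ + 1))) ≤ 1 / 2 := by
      rw [mul_one_div, div_le_div_iff₀ (by positivity) (by norm_num)]
      linarith
    have h4 : ‖((π (l p.2) - π (l p.1) : V) : E)‖ ≤ 0 := by
      nlinarith [norm_nonneg ((π (l p.2) - π (l p.1) : V) : E)]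
    have h5 := norm_le_zero_iff.1 h4
    exact (sub_eq_zero.1 (Subtype.ext h5)).symm
  obtain ⟨U, hU, hU'⟩ := mem_prod_self_iff.1 inj
  let l' : G ⧸ N → V := fun y => if H : ∃ g ∈ U, (g : G ⧸ N) = y then π (l H.choose) else 0
  have hl : ∀ g ∈ U, l' (g : G ⧸ N) = π (l g) := by
    intro g hg
    have H : ∃ g' ∈ U, (g' : G ⧸ N) = g := ⟨g, hg, rfl⟩
    simp only [l', dif_pos H]
    exact hU' (Set.mk_mem_prod H.choose_spec.1 hg) H.choose_spec.2
  have t' : Tendsto (fun X : V => (X : E)) (𝓝 0) (𝓝 0) := continuous_subtype_val.tendsto' _ _ rfl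
  have hn : 𝓝 (1 : G ⧸ N) = map (fun g : G => (g : G ⧸ N)) (𝓝 1) :=
    QuotientGroup.nhds_eq N 1
  refine ⟨V, inferInstance, inferInstance, inferInstance, fun X => (e X : G ⧸ N), l', π,
    ⟨QuotientGroup.continuous_mk.comp (h.cont.comp continuous_subtype_val), fun X s t => ?_,
      ?_, ?_, ?_, ?_⟩, fun X => ⟨X, hπ X⟩, hk, he⟩
  · rw [← QuotientGroup.mk_mul]
    exact congrArg _ (h.add X s t)
  · filter_upwards [t'.eventually h.le, (h.tendsto_e.comp t').eventually hU] with X a b
    rw [hl (e X) b, a, hπ]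
  · rw [hn, eventually_map]
    filter_upwards [hU, h.el] with g a b
    rw [hl g a, ← he, b]
  · rw [hn, tendsto_map'_iff]
    refine ((π.continuous.tendsto' 0 0 (map_zero π)).comp h.tend).congr' ?_
    filter_upwards [hU] with g a using (hl g a).symm
  · have a := (V.subtypeL.prodMap V.subtypeL).hasStrictFDerivAt (x := 0)
    have b := h.strict
    rw [show (0 : E × E) = (V.subtypeL.prodMap V.subtypeL) 0 from (map_zero _).symm] at b
    refine ((π.hasStrictFDerivAt.comp 0 (b.comp 0 a)).congr_fderiv ?_).congr_of_eventuallyEq ?_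
    · ext X <;> simp [hπ]
    · have t2 : Tendsto (V.subtypeL.prodMap V.subtypeL) (𝓝 0) (𝓝 0) :=
        (V.subtypeL.prodMap V.subtypeL).continuous.tendsto' _ _ (map_zero _)
      filter_upwards [(h.tendsto_mul.comp t2).eventually hU] with p hp
      rw [← QuotientGroup.mk_mul]
      exact (hl _ hp).symm

end IsE

end Pool.Agent.MP_c15733_al.H87
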