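import Mathlib

/-! Lie groups, pro-Lie groups and the kernel of ordinary representations. -/

namespace Pool.Agent.MP_c15733_al.H87

universe u

/-- `G` is a Lie group: it is Hausdorff and carries an atlas modelled on a finite-dimensional real
normed space that makes it a smooth manifold with smooth group operations. No countability
condition is imposed, so discrete groups are Lie groups. -/
def IsLie (G : Type u) [Group G] [TopologicalSpace G] : Prop :=
  T2Space G ∧ ∃ (E : Type) (_ : NormedAddCommGroup E) (_ : NormedSpace ℝ E)
    (_ : FiniteDimensional ℝ E) (_ : ChartedSpace E G),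
      LieGroup (modelWithCornersSelf ℝ E) ((⊤ : ℕ∞) : WithTop ℕ∞) G

/-- The topological group `G` is complete (for its right uniformity; inversion exchanges the left
and the right uniformity). -/
def IsCompleteGroup (G : Type u) [Group G] [TopologicalSpace G] [IsTopologicalGroup G] : Prop :=
  @CompleteSpace G (IsTopologicalGroup.rightUniformSpace G)

/-- The projective limit of the groups `L j` along the bonding maps `f`: the compatible families,
a subgroup of the product. -/
def limit {J : Type u} [PartialOrder J] (L : J → Type u) [∀ j, Group (L j)]
    (f : ∀ i j, i ≤ j → L j →* L i) : Subgroup (∀ j, L j) where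
  carrier := {x | ∀ i j (h : i ≤ j), f i j h (x j) = x i}
  mul_mem' := fun hx hy i j h => by rw [Pi.mul_apply, map_mul, hx i j h, hy i j h, Pi.mul_apply]
  one_mem' := fun i j h => by rw [Pi.one_apply, map_one, Pi.one_apply]
  inv_mem' := fun hx i j h => by rw [Pi.inv_apply, map_inv, hx i j h, Pi.inv_apply]

/-- `G` is a pro-Lie group: a complete topological group that is topologically isomorphic to the
projective limit of a projective system of Lie groups over a directed poset. -/
def IsProLie (G : Type u) [Group G] [TopologicalSpace G] [IsTopologicalGroup G] : Prop :=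
  IsCompleteGroup G ∧
    ∃ (J : Type u) (_ : PartialOrder J) (_ : IsDirectedOrder J) (_ : Nonempty J)
      (L : J → Type u) (_ : ∀ j, Group (L j)) (_ : ∀ j, TopologicalSpace (L j))
      (f : ∀ i j, i ≤ j → L j →* L i),
      (∀ j, IsLie (L j)) ∧ (∀ i j h, Continuous (f i j h)) ∧
      (∀ i (x : L i), f i i le_rfl x = x) ∧
      (∀ i j k (hij : i ≤ j) (hjk : j ≤ k) (x : L k),
        f i j hij (f j k hjk x) = f i k (hij.trans hjk) x) ∧
      Nonempty (G ≃ₜ* limit L f)

/-- The kernel of ordinary representations: the intersection of the kernels of all continuous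
homomorphisms `G → GL n ℂ`. -/
def KO (G : Type u) [Group G] [TopologicalSpace G] : Subgroup G :=
  ⨅ (n : ℕ) (ρ : G →ₜ* GL (Fin n) ℂ), ρ.toMonoidHom.ker

/-- `B` is the (Hausdorff) completion of the topological group `A`: a complete Hausdorff group in
which `A` embeds as a dense topological subgroup. -/
def IsCompletion (A B : Type u) [Group A] [TopologicalSpace A] [Group B] [TopologicalSpace B]
    [IsTopologicalGroup B] : Prop :=
  T2Space B ∧ IsCompleteGroup B ∧ ∃ j : A →* B, IsDenseEmbedding j

end Pool.Agent.MP_c15733_al.H87
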