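import Pool.Agent.MP_c15733_al.H87.Base

namespace Pool.Agent.MP_c15733_al.H87

open Filter Topology NormedSpace Matrix

universe u

attribute [local instance 100] LieRing.ofAssociativeRing

namespace Ext

/-- completeness in terms of filters -/
theorem complete_iff {G : Type*} [Group G] [TopologicalSpace G] [IsTopologicalGroup G] :
    @CompleteSpace G (IsTopologicalGroup.rightUniformSpace G) ↔ ∀ F : Filter G, F.NeBot →
      Tendsto (fun q : G × G => q.2 * q.1⁻¹) (F ×ˢ F) (𝓝 1) → ∃ x, F ≤ 𝓝 x := by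
  let _ := IsTopologicalGroup.rightUniformSpace G
  constructor
  · intro h F hF ht
    exact CompleteSpace.complete ⟨hF, tendsto_iff_comap.1 ht⟩
  · intro h
    exact ⟨fun {F} hF => h F hF.1 (tendsto_iff_comap.2 hF.2)⟩

theorem complete_of_lc {G : Type*} [Group G] [TopologicalSpace G] [IsTopologicalGroup G]
    [WeaklyLocallyCompactSpace G] : @CompleteSpace G (IsTopologicalGroup.rightUniformSpace G) := by
  let _ := IsTopologicalGroup.rightUniformSpace G
  have _ : IsRightUniformGroup G := ⟨rfl⟩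
  exact IsRightUniformGroup.completeSpace_of_weaklyLocallyCompactSpace

theorem tendsto_map {G H : Type*} [Group G] [TopologicalSpace G] [Group H] [TopologicalSpace H]
    (φ : G →* H) (hφ : Continuous φ) {F : Filter G}
    (ht : Tendsto (fun q : G × G => q.2 * q.1⁻¹) (F ×ˢ F) (𝓝 1)) :
    Tendsto (fun q : H × H => q.2 * q.1⁻¹) (F.map φ ×ˢ F.map φ) (𝓝 1) := by
  rw [prod_map_map_eq, tendsto_map'_iff]
  have := (hφ.tendsto 1).comp ht
  rw [map_one] at this
  refine this.congr fun q => ?_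
  simp

/-- extension of a homomorphism along a map with dense image -/
theorem extend {G L H : Type*} [Group G] [Group L] [TopologicalSpace L] [IsTopologicalGroup L]
    [Group H] [TopologicalSpace H] [IsTopologicalGroup H] [T2Space H]
    (hH : @CompleteSpace H (IsTopologicalGroup.rightUniformSpace H)) (p : G →* L)
    (hd : DenseRange p) (ρ : G →* H) (h1 : Tendsto ρ (comap p (𝓝 1)) (𝓝 1)) :
    ∃ ρ' : L →* H, Continuous ρ' ∧ ∀ x, ρ' (p x) = ρ x := by
  have hne : ∀ y, (comap p (𝓝 y)).NeBot := fun y =>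
    comap_neBot fun t ht => by
      obtain ⟨_, h2, x, rfl⟩ := mem_closure_iff_nhds.1 (hd y) t ht
      exact ⟨x, h2⟩
  have hlim : ∀ y, ∃ c, Tendsto ρ (comap p (𝓝 y)) (𝓝 c) := by
    intro y
    have := hne y
    refine complete_iff.1 hH _ inferInstance ?_
    rw [prod_map_map_eq, tendsto_map'_iff]
    have h2 : Tendsto (fun q : G × G => q.2 * q.1⁻¹) (comap p (𝓝 y) ×ˢ comap p (𝓝 y))
        (comap p (𝓝 1)) := by
      rw [tendsto_comap_iff]
      have h3 := ((tendsto_comap (f := p) (x := 𝓝 y)).comp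
        (tendsto_snd (f := comap p (𝓝 y)))).mul
        ((tendsto_comap (f := p) (x := 𝓝 y)).comp (tendsto_fst (g := comap p (𝓝 y)))).inv
      rw [mul_inv_cancel] at h3
      refine h3.congr fun q => ?_
      simp
    refine (h1.comp h2).congr fun q => ?_
    simp
  choose c hc using hlim
  have hmul : ∀ y z, c (y * z) = c y * c z := by
    intro y z
    have := hne y
    have := hne z
    have h2 : Tendsto (fun q : G × G => q.1 * q.2) (comap p (𝓝 y) ×ˢ comap p (𝓝 z))
        (comap p (𝓝 (y * z))) := by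
      rw [tendsto_comap_iff]
      have h3 := ((tendsto_comap (f := p) (x := 𝓝 y)).comp
        (tendsto_fst (g := comap p (𝓝 z)))).mul
        ((tendsto_comap (f := p) (x := 𝓝 z)).comp (tendsto_snd (f := comap p (𝓝 y))))
      refine h3.congr fun q => ?_
      simp
    have h4 := ((hc y).comp (tendsto_fst (g := comap p (𝓝 z)))).mul
      ((hc z).comp (tendsto_snd (f := comap p (𝓝 y))))
    refine tendsto_nhds_unique ((hc (y * z)).comp h2) (h4.congr fun q => ?_)
    simp
  have hp : ∀ x, c (p x) = ρ x := by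
    intro x
    have h2 : pure x ≤ comap p (𝓝 (p x)) := tendsto_iff_comap.1 (tendsto_pure_nhds p x)
    exact tendsto_nhds_unique ((hc (p x)).mono_left h2) (tendsto_pure_nhds ρ x)
  refine ⟨MonoidHom.mk' c hmul, continuous_of_continuousAt_one _ ?_, hp⟩
  rw [ContinuousAt, map_one, (closed_nhds_basis (1 : H)).tendsto_right_iff]
  rintro W ⟨hW, hWc⟩
  obtain ⟨V, hV, hVW⟩ := mem_comap.1 (h1 hW)
  filter_upwards [eventually_mem_nhds_iff.2 hV] with y hy
  have := hne y
  exact hWc.mem_of_tendsto (hc y) (mem_of_superset (preimage_mem_comap hy) hVW)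

/-- no small subgroups, quantitatively -/
theorem norm_le {A : Type*} [NormedRing A] [NormedAlgebra ℝ A] (a : A) (n : ℕ)
    (h : ∀ k ≤ n, ‖a ^ k - 1‖ ≤ 1 / 2) : (n : ℝ) * ‖a - 1‖ ≤ 1 := by
  have e : ∀ m : ℕ, (m : ℝ) • (a - 1) =
      (a ^ m - 1) - (a - 1) * ∑ k ∈ Finset.range m, (a ^ k - 1) := by
    intro m
    induction m with
    | zero => simp
    | succ m ih =>
      rw [Nat.cast_succ, add_smul, ih, Finset.sum_range_succ, one_smul, pow_succ']
      noncomm_ring
  have h1 : ‖∑ k ∈ Finset.range n, (a ^ k - 1)‖ ≤ n * (1 / 2) := by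
    refine (norm_sum_le _ _).trans ?_
    have := Finset.sum_le_card_nsmul (Finset.range n) (fun k => ‖a ^ k - 1‖) (1 / 2)
      fun k hk => h k (Finset.mem_range.1 hk).le
    simpa using this
  have h2 : (n : ℝ) * ‖a - 1‖ ≤ 1 / 2 + ‖a - 1‖ * (n * (1 / 2)) := by
    have h3 : ‖(n : ℝ) • (a - 1)‖ = n * ‖a - 1‖ := by
      rw [norm_smul, Real.norm_natCast]
    rw [← h3, e]
    refine (norm_sub_le _ _).trans (add_le_add (h n le_rfl) ?_)
    exact (norm_mul_le _ _).trans (mul_le_mul_of_nonneg_left h1 (norm_nonneg _))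
  linarith

theorem factor_units {G : Type u} [Group G] [TopologicalSpace G] {J : Type u}
    (L : J → Type u) [∀ j, Group (L j)] [∀ j, TopologicalSpace (L j)]
    [∀ j, IsTopologicalGroup (L j)] (p : ∀ j, G →* L j) (hd : ∀ j, DenseRange (p j))
    (hb : ∀ U ∈ 𝓝 (1 : G), ∃ j, ∃ V ∈ 𝓝 (1 : L j), p j ⁻¹' V ⊆ U)
    {A : Type} [NormedRing A] [NormedAlgebra ℝ A] [FiniteDimensional ℝ A] (ρ : G →* Aˣ)
    (hρ : Continuous ρ) :
    ∃ (j : J) (ρ' : L j →* Aˣ), Continuous ρ' ∧ ∀ x, ρ' (p j x) = ρ x := by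
  have _ : ProperSpace A := FiniteDimensional.proper_real A
  have hc : Continuous fun x => (ρ x : A) := Units.continuous_val.comp hρ
  obtain ⟨j, V, hV, hVU⟩ := hb ((fun x => (ρ x : A)) ⁻¹' Metric.closedBall 1 (1 / 2))
    (hc.continuousAt.preimage_mem_nhds (by
      rw [map_one, Units.val_one]
      exact Metric.closedBall_mem_nhds _ (by norm_num)))
  refine ⟨j, extend complete_of_lc (p j) (hd j) ρ ?_⟩
  rw [Units.isOpenEmbedding_val.isInducing.tendsto_nhds_iff, Units.val_one,
    Metric.nhds_basis_closedBall.tendsto_right_iff]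
  intro ε hε
  obtain ⟨n, hn⟩ := exists_nat_gt (1 / ε)
  have hW : ∀ᶠ v in 𝓝 (1 : L j), ∀ k ∈ Finset.range (n + 1), v ^ k ∈ V := by
    rw [eventually_all_finset]
    intro k _
    exact (continuous_pow k).continuousAt.preimage_mem_nhds (by rwa [one_pow])
  filter_upwards [preimage_mem_comap (m := p j) hW] with x hx
  have h1 := norm_le (ρ x : A) n fun k hk => by
    have h2 : x ^ k ∈ p j ⁻¹' V := by
      rw [Set.mem_preimage, map_pow]
      exact hx k (Finset.mem_range.2 (Nat.lt_succ_of_le hk))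
    have h3 := hVU h2
    rw [Set.mem_preimage, map_pow, Units.val_pow_eq_pow_val, mem_closedBall_iff_norm] at h3
    exact h3
  rw [Function.comp_apply, mem_closedBall_iff_norm]
  rw [div_lt_iff₀ hε] at hn
  by_contra hlt
  have h4 : (0 : ℝ) ≤ n := n.cast_nonneg
  nlinarith [not_le.1 hlt]

theorem KO_le_of_hom {G : Type u} [Group G] [TopologicalSpace G] {A : Type} [Monoid A]
    [TopologicalSpace A] (ρ : G →* Aˣ) (hρ : Continuous ρ) {n : ℕ}
    (φ : A →* Matrix (Fin n) (Fin n) ℂ) (hφ : Continuous φ) (hi : Function.Injective φ) :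
    KO G ≤ ρ.ker := by
  intro x hx
  have h := Subgroup.mem_iInf.1 (Subgroup.mem_iInf.1 hx n)
    ⟨(Units.map φ).comp ρ, (hφ.units_map φ).comp hρ⟩
  rw [MonoidHom.mem_ker] at h ⊢
  exact Units.map_injective hi (h.trans (map_one _).symm)

end Ext

/-- a representation factors through one of the dense-image maps that define the topology -/
theorem factor_rep {G : Type u} [Group G] [TopologicalSpace G] [IsTopologicalGroup G] {J : Type u}
    (L : J → Type u) [∀ j, Group (L j)] [∀ j, TopologicalSpace (L j)]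
    [∀ j, IsTopologicalGroup (L j)] (p : ∀ j, G →* L j) (hd : ∀ j, DenseRange (p j))
    (hb : ∀ U ∈ 𝓝 (1 : G), ∃ j, ∃ V ∈ 𝓝 (1 : L j), p j ⁻¹' V ⊆ U)
    {ι : Type} [Fintype ι] [DecidableEq ι] (ρ : G →* GL ι ℂ) (hρ : Continuous ρ) :
    ∃ (j : J) (ρ' : L j →* GL ι ℂ), Continuous ρ' ∧ ∀ x, ρ' (p j x) = ρ x := by
  open scoped Matrix.Norms.Operator in
  exact Ext.factor_units L p hd hb (A := Matrix ι ι ℂ) ρ hρ

theorem limit_complete {J : Type u} [PartialOrder J] (L : J → Type u) [∀ j, Group (L j)]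
    [∀ j, TopologicalSpace (L j)] [∀ j, IsTopologicalGroup (L j)] [∀ j, T2Space (L j)]
    [∀ j, WeaklyLocallyCompactSpace (L j)] (f : ∀ i j, i ≤ j → L j →* L i)
    (hf : ∀ i j h, Continuous (f i j h)) : IsCompleteGroup (limit L f) := by
  have h : IsCompleteGroup (∀ j, L j) := by
    refine Ext.complete_iff.2 fun F hF ht => ?_
    have h1 : ∀ j, ∃ y, F.map (Pi.evalMonoidHom L j) ≤ 𝓝 y := fun j =>
      Ext.complete_iff.1 Ext.complete_of_lc _ inferInstance
        (Ext.tendsto_map _ (continuous_apply j) ht)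
    choose y hy using h1
    exact ⟨y, tendsto_id'.1 (tendsto_pi_nhds.2 hy)⟩
  have hS : IsClosed (limit L f : Set (∀ j, L j)) := by
    have e : (limit L f : Set (∀ j, L j)) = ⋂ i, ⋂ j, ⋂ h : i ≤ j, {x | f i j h (x j) = x i} := by
      ext x
      simp only [Set.mem_iInter]
      rfl
    rw [e]
    exact isClosed_iInter fun i => isClosed_iInter fun j => isClosed_iInter fun h =>
      isClosed_eq ((hf i j h).comp (continuous_apply j)) (continuous_apply i)
  refine Ext.complete_iff.2 fun F hF ht => ?_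
  obtain ⟨x, hx⟩ := Ext.complete_iff.1 h (F.map (limit L f).subtype) inferInstance
    (Ext.tendsto_map _ continuous_subtype_val ht)
  have hxS : x ∈ limit L f := hS.mem_of_tendsto hx (Eventually.of_forall fun y => y.2)
  exact ⟨⟨x, hxS⟩, tendsto_id'.1 (tendsto_subtype_rng.2 hx)⟩

theorem IsCompleteGroup.subgroup {G : Type u} [Group G] [TopologicalSpace G]
    [IsTopologicalGroup G] (h : IsCompleteGroup G) (S : Subgroup G) (hS : IsClosed (S : Set G)) :
    IsCompleteGroup S := by
  refine Ext.complete_iff.2 fun F hF ht => ?_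
  obtain ⟨x, hx⟩ := Ext.complete_iff.1 h (F.map S.subtype) inferInstance
    (Ext.tendsto_map _ continuous_subtype_val ht)
  have hxS : x ∈ S := hS.mem_of_tendsto hx (Eventually.of_forall fun y => y.2)
  exact ⟨⟨x, hxS⟩, tendsto_id'.1 (tendsto_subtype_rng.2 hx)⟩

/-- basic neighbourhoods in a directed limit -/
theorem limit_nhds {J : Type u} [PartialOrder J] [IsDirectedOrder J] [Nonempty J] (L : J → Type u)
    [∀ j, Group (L j)] [∀ j, TopologicalSpace (L j)] (f : ∀ i j, i ≤ j → L j →* L i)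
    (hf : ∀ i j h, Continuous (f i j h)) (x : limit L f) (U : Set (limit L f)) (hU : U ∈ 𝓝 x) :
    ∃ j, ∃ V ∈ 𝓝 (x.1 j), ∀ y : limit L f, y.1 j ∈ V → y ∈ U := by
  obtain ⟨W, hW, hWU⟩ := (mem_nhds_subtype _ x U).1 hU
  rw [nhds_pi, mem_pi] at hW
  obtain ⟨I, hI, t, ht, hIt⟩ := hW
  obtain ⟨j, hj⟩ := hI.bddAbove
  refine ⟨j, ⋂ i : I, f i j (hj i.2) ⁻¹' t i, ?_, fun y hy => hWU (hIt fun i hi => ?_)⟩
  · have _ := hI.to_subtype
    refine iInter_mem.2 fun i => (hf _ _ _).continuousAt.preimage_mem_nhds ?_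
    rw [x.2 i j (hj i.2)]
    exact ht i
  · have := Set.mem_iInter.1 hy ⟨i, hi⟩
    rwa [Set.mem_preimage, y.2 i j (hj hi)] at this

/-- `KO G` is killed by every continuous homomorphism to the units of a finite-dimensional real
normed algebra -/
theorem KO_le_ker_units {G : Type u} [Group G] [TopologicalSpace G] {A : Type} [NormedRing A]
    [NormedAlgebra ℝ A] [FiniteDimensional ℝ A] (ρ : G →* Aˣ) (hρ : Continuous ρ) :
    KO G ≤ ρ.ker := by
  let b := Module.finBasis ℝ A
  let φ : A →ₐ[ℝ] Matrix (Fin (Module.finrank ℝ A)) (Fin (Module.finrank ℝ A)) ℂ :=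
    (AlgHom.mapMatrix Complex.ofRealAm).comp (Algebra.leftMulMatrix b)
  refine Ext.KO_le_of_hom ρ hρ φ.toMonoidHom φ.toLinearMap.continuous_of_finiteDimensional ?_
  intro x y h
  refine Algebra.leftMulMatrix_injective b ?_
  ext i j
  exact Complex.ofReal_injective (congrFun (congrFun h i) j)

theorem KO_le_ker {G : Type u} [Group G] [TopologicalSpace G] {ι : Type} [Fintype ι]
    [DecidableEq ι] (ρ : G →* GL ι ℂ) (hρ : Continuous ρ) : KO G ≤ ρ.ker := by
  refine Ext.KO_le_of_hom ρ hρ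
    (Matrix.reindexAlgEquiv ℂ ℂ (Fintype.equivFin ι)).toMonoidHom ?_
    (Matrix.reindexAlgEquiv ℂ ℂ (Fintype.equivFin ι)).injective
  exact continuous_id.matrix_reindex _ _

theorem isClosed_KO (G : Type u) [Group G] [TopologicalSpace G] : IsClosed (KO G : Set G) := by
  unfold KO
  simp only [Subgroup.coe_iInf]
  exact isClosed_iInter fun n => isClosed_iInter fun ρ =>
    isClosed_singleton.preimage ρ.continuous_toFun

theorem KO_normal (G : Type u) [Group G] [TopologicalSpace G] : (KO G).Normal := by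
  exact Subgroup.normal_iInf_normal fun n => Subgroup.normal_iInf_normal fun ρ => inferInstance

theorem map_KO {G H : Type u} [Group G] [TopologicalSpace G] [Group H] [TopologicalSpace H]
    (φ : G →* H) (hφ : Continuous φ) {x : G} (hx : x ∈ KO G) : φ x ∈ KO H := by
  refine Subgroup.mem_iInf.2 fun n => Subgroup.mem_iInf.2 fun ρ => ?_
  exact KO_le_ker (ρ.toMonoidHom.comp φ) (ρ.continuous_toFun.comp hφ) hx

end Pool.Agent.MP_c15733_al.H87
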