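import Pool.Agent.MP_c15733_al.H87.Base

/-! Finiteness of the set of scalar characters: highest weights form a finitely generated group and
every scalar character has finite order. -/

namespace Pool.Agent.MP_c15733_al.H87

open Filter Topology NormedSpace Matrix

universe u

attribute [local instance 100] LieRing.ofAssociativeRing

namespace FinM

open LieModule LieAlgebra LieAlgebra.IsKilling Module
open scoped TensorProduct Kronecker

theorem fin_aux {A B : Type} [AddCommGroup A] [AddCommGroup B] [Module.Finite ℤ A]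
    (T : Set (A × B)) (add : ∀ s ∈ T, ∀ t ∈ T, s + t ∈ T)
    (fn : ∀ s ∈ T, ∀ t ∈ T, s.1 = t.1 → s.2 = t.2) (tor : ∀ t ∈ T, IsOfFinAddOrder t.2) :
    (Prod.snd '' T).Finite := by
  obtain rfl | ⟨t0, h0⟩ := T.eq_empty_or_nonempty
  · simp
  let N : AddSubgroup (A × B) :=
    { carrier := {x | ∃ s ∈ T, ∃ t ∈ T, x = s - t}
      add_mem' := by
        rintro _ _ ⟨s, hs, t, ht, rfl⟩ ⟨s', hs', t', ht', rfl⟩
        exact ⟨_, add s hs s' hs', _, add t ht t' ht', by abel⟩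
      zero_mem' := ⟨t0, h0, t0, h0, by simp⟩
      neg_mem' := by
        rintro _ ⟨s, hs, t, ht, rfl⟩
        exact ⟨t, ht, s, hs, by simp⟩ }
  have : Module.Finite ℤ N.toIntSubmodule :=
    Module.Finite.of_injective (LinearMap.fst ℤ A B ∘ₗ N.toIntSubmodule.subtype) (by
      rw [← LinearMap.ker_eq_bot, LinearMap.ker_eq_bot']
      rintro ⟨_, s, hs, t, ht, rfl⟩ e
      have e1 : s.1 = t.1 := sub_eq_zero.1 e
      exact Subtype.ext (sub_eq_zero.2 (Prod.ext e1 (fn s hs t ht e1))))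
  have : Finite (LinearMap.range (LinearMap.snd ℤ A B ∘ₗ N.toIntSubmodule.subtype)) := by
    refine Module.finite_of_fg_torsion _ (isAddTorsion_iff_isTorsion_int.1 ?_)
    rintro ⟨_, ⟨_, s, hs, t, ht, rfl⟩, rfl⟩
    obtain ⟨n, hn, e⟩ := isOfFinAddOrder_iff_nsmul_eq_zero.1 ((tor s hs).add (tor t ht).neg)
    exact isOfFinAddOrder_iff_nsmul_eq_zero.2 ⟨n, hn, Subtype.ext (by
      rw [← sub_eq_add_neg] at e; exact e)⟩
  refine (Set.toFinite
    (LinearMap.range (LinearMap.snd ℤ A B ∘ₗ N.toIntSubmodule.subtype) : Set B)).subset ?_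
  rintro _ ⟨t, ht, rfl⟩
  exact ⟨⟨t, _, add t ht t ht, t, ht, by simp⟩, rfl⟩

section Abs

variable {L : Type} [LieRing L] [LieAlgebra ℂ L] [FiniteDimensional ℂ L] [IsKilling ℂ L]
  {H : LieSubalgebra ℂ L} [H.IsCartanSubalgebra]
  {M : Type} [AddCommGroup M] [Module ℂ M] [LieRingModule L M] [LieModule ℂ L M]

/-- highest weight vectors -/
def HW (h0 : H) (m : M) (ν : Dual ℂ H) : Prop :=
  m ≠ 0 ∧ (∀ h : H, ⁅(h : L), m⁆ = ν h • m) ∧
    ∀ α : Weight ℂ H L, 0 < (α h0).re → ∀ x ∈ rootSpace H α, ⁅x, m⁆ = 0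

theorem exists_gen : ∃ h0 : H, ∀ α : Weight ℂ H L, α.IsNonZero → (α h0).re ≠ 0 := by
  obtain ⟨h0, h⟩ := Dual.exists_forall_ne_zero_of_forall_exists (K := ℝ) (M := H)
    (fun α : {α : Weight ℂ H L // α.IsNonZero} =>
      Complex.reLm ∘ₗ (α.1.toLinear ℂ H L).restrictScalars ℝ) fun α =>
    ⟨coroot α.1, by simp [root_apply_coroot α.2]⟩
  exact ⟨h0, fun α hα => h ⟨α, hα⟩⟩

theorem hw_exists [Nontrivial M] [FiniteDimensional ℂ M] (h0 : H) :
    ∃ (m : M) (ν : Dual ℂ H), HW h0 m ν := by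
  have : Nonempty (Weight ℂ H M) := by
    by_contra! h
    simpa only [iSup_of_empty, bot_ne_top] using iSup_genWeightSpace_eq_top' ℂ H M
  obtain ⟨χ, hχ⟩ := Finite.exists_max fun χ : Weight ℂ H M => (χ h0).re
  obtain ⟨m, h1, h2⟩ := exists_forall_lie_eq_smul ℂ H M χ
  refine ⟨m, χ.toLinear ℂ H M, h1, h2, fun α hα x hx => ?_⟩
  by_contra hn
  have h3 := lie_mem_genWeightSpace_of_mem_genWeightSpace hx
    (weightSpace_le_genWeightSpace M χ ((mem_weightSpace _ _).2 h2))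
  have := hχ ⟨_, (LieSubmodule.eq_bot_iff _).not.2 fun e => hn (e _ h3)⟩
  simp only [Weight.coe_weight_mk, Pi.add_apply, Complex.add_re] at this
  linarith

theorem hw_int [FiniteDimensional ℂ M] {h0 : H}
    (gen : ∀ α : Weight ℂ H L, α.IsNonZero → (α h0).re ≠ 0) {m : M} {ν : Dual ℂ H}
    (h : HW h0 m ν) (α : Weight ℂ H L) : ∃ n : ℤ, ν (coroot α) = n := by
  have key : ∀ α : Weight ℂ H L, 0 < (α h0).re → ∃ n : ℕ, ν (coroot α) = n := by
    intro α hα
    have hz : α.IsNonZero := fun e => by simp [e.eq] at hα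
    obtain ⟨_, e, f, t, he, hf⟩ := exists_isSl2Triple_of_weight_isNonZero hz
    obtain rfl := t.h_eq_coroot hz he hf
    exact IsSl2Triple.HasPrimitiveVectorWith.exists_nat (t := t) ⟨h.1, h.2.1 _, h.2.2 α hα e he⟩
  by_cases hz : α.IsZero
  · exact ⟨0, by simp [coroot_eq_zero_iff.2 hz]⟩
  rcases (gen α hz).lt_or_gt with e | e
  · obtain ⟨n, hn⟩ := key (-α) (by simpa using e)
    exact ⟨-n, by simpa [neg_eq_iff_eq_neg] using hn⟩
  · obtain ⟨n, hn⟩ := key α e
    exact ⟨n, by simpa using hn⟩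

theorem dual_ext {ν ν' : Dual ℂ H} (h : ∀ α : Weight ℂ H L, ν (coroot α) = ν' (coroot α)) :
    ν = ν' := by
  rw [← sub_eq_zero, ← (cartanEquivDual H).symm.map_eq_zero_iff, ← Submodule.mem_bot ℂ,
    ← iInf_ker_weight_eq_bot, Submodule.mem_iInf]
  intro α
  by_cases hz : α.IsZero
  · simp [Weight.ker, LinearMap.mem_ker, hz.eq]
  have e := traceForm_coroot α ((cartanEquivDual H).symm (ν - ν'))
  rw [traceForm_comm] at e
  change cartanEquivDual H _ _ = _ at e
  rw [LinearEquiv.apply_symm_apply, LinearMap.sub_apply, h, sub_self] at e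
  simpa [Weight.ker, root_apply_cartanEquivDual_symm_ne_zero hz] using e

theorem hw_uniq {h0 : H} (gen : ∀ α : Weight ℂ H L, α.IsNonZero → (α h0).re ≠ 0) {m : M}
    {ν : Dual ℂ H} (h : HW h0 m ν) : ∃ N : Submodule ℂ M, m ∈ N ∧
      (∀ x : L, ∀ v ∈ N, ⁅x, v⁆ ∈ N) ∧ ∀ v ∈ N, ⁅(h0 : L), v⁆ = ν h0 • v → ∃ a : ℂ, a • m = v := by
  let F : Set (Submodule ℂ M) := {S | m ∈ S ∧ ∀ α : Weight ℂ H L, (α h0).re < 0 →
    ∀ x ∈ rootSpace H α, ∀ v ∈ S, ⁅x, v⁆ ∈ S}
  have m0 : m ∈ sInf F := Submodule.mem_sInf.2 fun S hS => hS.1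
  have n0 : ∀ α : Weight ℂ H L, (α h0).re < 0 → ∀ x ∈ rootSpace H α, ∀ v ∈ sInf F,
      ⁅x, v⁆ ∈ sInf F := fun α hα x hx v hv =>
    Submodule.mem_sInf.2 fun S hS => hS.2 α hα x hx v (Submodule.mem_sInf.1 hv S hS)
  refine ⟨sInf F, m0, fun x v hv => ?_, fun v hv e => ?_⟩
  · have : sInf F ⊓ ⨅ x : L, (sInf F).comap (toEnd ℂ L M x) ∈ F := by
      simp only [F, Set.mem_ofPred_eq, Submodule.mem_inf, Submodule.mem_iInf, Submodule.mem_comap,
        toEnd_apply_apply]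
      refine ⟨⟨m0, fun x => ?_⟩, fun α hα y hy v hv => ⟨n0 α hα y hy v hv.1, fun x => ?_⟩⟩
      · have hx : x ∈ ⨆ α : Weight ℂ H L, rootSpace H α := by
          rw [iSup_genWeightSpace_eq_top']; trivial
        induction hx using LieSubmodule.iSup_induction' with
        | zero => simp
        | add x y _ _ hx hy => rw [add_lie]; exact add_mem hx hy
        | mem α x hx =>
          by_cases hz : α.IsZero
          · rw [hz.eq, rootSpace_zero_eq] at hx
            exact h.2.1 ⟨x, hx⟩ ▸ Submodule.smul_mem _ _ m0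
          rcases (gen α hz).lt_or_gt with e | e
          · exact n0 α e x hx m m0
          · rw [h.2.2 α e x hx]; exact zero_mem _
      · rw [leibniz_lie]
        exact add_mem (hv.2 _) (n0 α hα y hy _ (hv.2 x))
    exact (Submodule.mem_iInf _).1 (Submodule.mem_sInf.1 hv _ this).2 x
  let E := ⨆ μ ∈ {μ : ℂ | μ.re < (ν h0).re}, (toEnd ℂ L M h0).eigenspace μ
  have em : m ∈ (toEnd ℂ L M h0).eigenspace (ν h0) := End.mem_eigenspace_iff.2 (h.2.1 h0)
  have : Submodule.span ℂ {m} ⊔ E ∈ F := by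
    refine ⟨Submodule.mem_sup_left (Submodule.mem_span_singleton_self m), fun α hα y hy v hv => ?_⟩
    have k : ∀ μ : ℂ, μ.re ≤ (ν h0).re →
        (toEnd ℂ L M h0).eigenspace μ ≤ E.comap (toEnd ℂ L M y) := fun μ hμ v hv => by
      refine Submodule.mem_iSup_of_mem (α h0 + μ) (Submodule.mem_iSup_of_mem
        (by simp only [Set.mem_ofPred_eq, Complex.add_re]; linarith) ?_)
      rw [End.mem_eigenspace_iff] at hv ⊢
      simp only [toEnd_apply_apply] at hv ⊢
      rw [leibniz_lie, hv, lie_smul, add_smul,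
        show ⁅(h0 : L), y⁆ = _ from lie_eq_smul_of_mem_rootSpace hy h0, smul_lie]
    have k' : Submodule.span ℂ {m} ⊔ E ≤ E.comap (toEnd ℂ L M y) :=
      sup_le ((Submodule.span_singleton_le_iff_mem _ _).2 (k _ le_rfl em))
        (iSup₂_le fun μ hμ => k μ (le_of_lt hμ))
    exact Submodule.mem_sup_right (k' hv)
  obtain ⟨y, hy, z, hz, rfl⟩ := Submodule.mem_sup.1 (Submodule.mem_sInf.1 hv _ this)
  obtain ⟨a, rfl⟩ := Submodule.mem_span_singleton.1 hy
  have d : Disjoint ((toEnd ℂ L M h0).eigenspace (ν h0)) E :=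
    (End.eigenspaces_iSupIndep _).disjoint_biSup (by simp)
  have z0 : z = 0 := Submodule.disjoint_def.1 d z (by
    simpa using sub_mem (End.mem_eigenspace_iff.2 e) (Submodule.smul_mem _ a em)) hz
  exact ⟨a, by rw [z0, add_zero]⟩

theorem dual_zero (φ : Dual ℂ L) (h : ∀ x y : L, φ ⁅x, y⁆ = 0) : φ = 0 := by
  obtain ⟨z, rfl⟩ := ((killingForm ℂ L).toDual (killingForm_nondegenerate ℂ L)).surjective φ
  have : ∀ x : L, ⁅z, x⁆ = 0 := fun x => (killingForm_nondegenerate ℂ L).1 _ fun y => by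
    rw [traceForm_apply_lie_apply]; exact h x y
  have e : toEnd ℂ L L z = 0 := LinearMap.ext this
  ext y
  simp [LinearMap.BilinForm.toDual_def, traceForm_apply_apply, e]

end Abs

section Mat

open scoped Matrix.Norms.Operator

variable {ι κ : Type} [Fintype ι] [DecidableEq ι] [Fintype κ] [DecidableEq κ]

theorem det_exp {A : Matrix ι ι ℂ} (h : A.trace = 0) : (exp A).det = 1 := by
  have key : ∃ D, ∀ γ : ℝ → Matrix ι ι ℂ, γ 0 = 1 →
      (∀ i j, HasDerivAt (fun t => γ t i j) (A i j) 0) → HasDerivAt (fun t => (γ t).det) D 0 := by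
    refine ⟨∑ σ : Equiv.Perm ι, Equiv.Perm.sign σ • ∑ i,
      (∏ j ∈ Finset.univ.erase i, (1 : Matrix ι ι ℂ) (σ j) j) • A (σ i) i, fun γ h0 hγ => ?_⟩
    simp only [det_apply, ← h0]
    exact HasDerivAt.fun_sum fun σ _ =>
      (HasDerivAt.fun_finsetProd fun i _ => hγ (σ i) i).const_smul _
  obtain ⟨D, hD⟩ := key
  have h1 := hD (fun t => 1 + (t : ℂ) • A) (by simp) fun i j => by
    simpa using ((hasDerivAt_id (0 : ℝ)).ofReal_comp.mul_const (A i j)).const_add
      ((1 : Matrix ι ι ℂ) i j)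
  have h2 := ((det (1 + (Polynomial.X : Polynomial ℂ) • A.map Polynomial.C)).hasDerivAt
    ((0 : ℝ) : ℂ)).comp_ofReal
  rw [Complex.ofReal_zero, derivative_det_one_add_X_smul, h] at h2
  obtain rfl : D = 0 := h1.unique (h2.congr_of_eventuallyEq (Eventually.of_forall fun t => by
    simp only
    rw [← Polynomial.coe_evalRingHom, RingHom.map_det]
    congr 1
    ext i j
    simp [one_apply, apply_ite]
    ring))
  have h3 := hD (fun t => exp (t • A)) (by simp) fun i j => by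
    have := hasDerivAt_pi.1 (hasDerivAt_exp_mulVec A (Pi.single j 1) 0) i
    rw [zero_smul, exp_zero, one_mulVec] at this
    simpa using this
  have h4 : ∀ t : ℝ, HasDerivAt (fun s : ℝ => (exp (s • A)).det) 0 t := fun t => by
    have := ((sub_self t).symm ▸ h3).comp_sub_const t t |>.const_mul (exp (t • A)).det
    rw [mul_zero] at this
    refine this.congr_of_eventuallyEq (Eventually.of_forall fun s => ?_)
    simp only
    have e : exp (t • A + (s - t) • A) = exp (t • A) * exp ((s - t) • A) :=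
      exp_add' (((Commute.refl A).smul_left _).smul_right _)
    rw [← det_mul, ← e, ← add_smul, add_sub_cancel]
  simpa using is_const_of_deriv_eq_zero (fun t => (h4 t).differentiableAt)
    (fun t => (h4 t).deriv) 1 0

/-- left Kronecker factor -/
def kl (κ : Type) [Fintype κ] [DecidableEq κ] : Matrix ι ι ℂ →ₐ[ℂ] Matrix (ι × κ) (ι × κ) ℂ :=
  .ofLinearMap
    { toFun := fun A => A ⊗ₖ (1 : Matrix κ κ ℂ), map_add' := fun A B => add_kronecker A B 1,
      map_smul' := fun c A => smul_kronecker c A 1 } one_kronecker_one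
    fun A B => by
      show _ ⊗ₖ _ = _ ⊗ₖ _ * _ ⊗ₖ _
      rw [← mul_kronecker_mul, mul_one]

/-- right Kronecker factor -/
def kr (ι : Type) [Fintype ι] [DecidableEq ι] : Matrix κ κ ℂ →ₐ[ℂ] Matrix (ι × κ) (ι × κ) ℂ :=
  .ofLinearMap
    { toFun := fun A => (1 : Matrix ι ι ℂ) ⊗ₖ A, map_add' := fun A B => kronecker_add 1 A B,
      map_smul' := fun c A => kronecker_smul c 1 A } one_kronecker_one
    fun A B => by
      show _ ⊗ₖ _ = _ ⊗ₖ _ * _ ⊗ₖ _
      rw [← mul_kronecker_mul, mul_one]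

theorem kl_kr (A : Matrix ι ι ℂ) (B : Matrix κ κ ℂ) : Commute (kl κ A) (kr ι B) := by
  show A ⊗ₖ (1 : Matrix κ κ ℂ) * (1 : Matrix ι ι ℂ) ⊗ₖ B =
    (1 : Matrix ι ι ℂ) ⊗ₖ B * A ⊗ₖ (1 : Matrix κ κ ℂ)
  simp only [← mul_kronecker_mul, mul_one, one_mul]

theorem alg_exp (f : Matrix ι ι ℂ →ₐ[ℂ] Matrix κ κ ℂ) (A : Matrix ι ι ℂ) :
    f (exp A) = exp (f A) :=
  map_exp_eq (LinearMap.toContinuousLinearMap (f.toLinearMap.restrictScalars ℝ))
    (ContinuousLinearMap.id ℝ _) fun n => map_pow f A n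

theorem exp_kron (A : Matrix ι ι ℂ) (B : Matrix κ κ ℂ) :
    exp (kl κ A + kr ι B) = kl κ (exp A) * kr ι (exp B) := by
  rw [alg_exp, alg_exp]
  exact exp_add' (kl_kr A B)

theorem kron_mulVec (A : Matrix ι ι ℂ) (B : Matrix κ κ ℂ) (u : ι → ℂ) (v : κ → ℂ) :
    (kl κ A + kr ι B) *ᵥ (fun p => u p.1 * v p.2) =
      fun p => (A *ᵥ u) p.1 * v p.2 + u p.1 * (B *ᵥ v) p.2 := by
  ext ⟨i, j⟩
  show ((A ⊗ₖ 1 + 1 ⊗ₖ B) *ᵥ _) _ = _
  simp only [mulVec, dotProduct, Fintype.sum_prod_type, Matrix.add_apply, add_mul,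
    Finset.sum_add_distrib]
  simp [one_apply, Finset.sum_mul, Finset.mul_sum, mul_assoc, mul_left_comm]

end Mat

variable {q : Type} [LieRing q] [LieAlgebra ℝ q]

/-- tensor product -/
noncomputable def kron (R R' : Rep q) : Rep q where
  ι := R.ι × R'.ι
  ρ := (kl R'.ι).toLinearMap.restrictScalars ℝ ∘ₗ R.ρ + (kr R.ι).toLinearMap.restrictScalars ℝ ∘ₗ R'.ρ
  map_lie x y := by
    show kl _ _ + kr _ _ = (kl _ _ + kr _ _) * (kl _ _ + kr _ _) - (kl _ _ + kr _ _) * (kl _ _ + kr _ _)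
    simp only [R.map_lie, R'.map_lie, map_sub, map_mul, add_mul, mul_add, (kl_kr _ _).eq]
    abel

theorem kron_w (R R' : Rep q) (c : FreeGroup q) :
    ((kron R R').w c).1 = kl R'.ι (R.w c).1 * kr R.ι (R'.w c).1 := by
  induction c using FreeGroup.induction_on with
  | C1 => simp; rfl
  | of x => simp only [Rep.w_of, expM_val]; exact exp_kron _ _
  | inv_of x _ =>
    simp only [map_inv, Rep.w_of, expM_inv_val]
    rw [← exp_kron, map_neg, map_neg, ← neg_add]; rfl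
  | mul x y hx hy =>
    simp only [map_mul, Units.val_mul, hx, hy]
    exact ((kl_kr _ _).mul_mul_mul_comm _ _).symm

/-- direct sum -/
noncomputable def dsum (R R' : Rep q) : Rep q where
  ι := R.ι ⊕ R'.ι
  ρ :=
    { toFun := fun x => fromBlocks (R.ρ x) 0 0 (R'.ρ x)
      map_add' := fun x y => by simp [fromBlocks_add]
      map_smul' := fun c x => by simp [fromBlocks_smul] }
  map_lie x y := by
    simp [R.map_lie, R'.map_lie, fromBlocks_multiply, sub_eq_add_neg, fromBlocks_neg,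
      fromBlocks_add]

/-- vectors of the direct sum -/
def sv (R R' : Rep q) (u : R.ι → ℂ) (u' : R'.ι → ℂ) : (dsum R R').ι → ℂ := Sum.elim u u'

theorem dsum_w (R R' : Rep q) (c : FreeGroup q) (u : R.ι → ℂ) (u' : R'.ι → ℂ) :
    ((dsum R R').w c).1 *ᵥ sv R R' u u' = sv R R' ((R.w c).1 *ᵥ u) ((R'.w c).1 *ᵥ u') := by
  have e : ∀ (u : R.ι → ℂ) (u' : R'.ι → ℂ), Sum.elim u u' =
      fromRows (1 : Matrix R.ι R.ι ℂ) 0 *ᵥ u + fromRows 0 (1 : Matrix R'.ι R'.ι ℂ) *ᵥ u' := by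
    intro u u'
    ext (i | i) <;> simp [fromRows_mulVec]
  have h1 := (dsum R R').w_intertwine R (fromRows 1 0) (fun x =>
    (fromBlocks_mul_fromRows ..).trans (Eq.trans (by simp) (fromRows_mul ..).symm)) c
  have h2 := (dsum R R').w_intertwine R' (fromRows 0 1) (fun x =>
    (fromBlocks_mul_fromRows ..).trans (Eq.trans (by simp) (fromRows_mul ..).symm)) c
  have key : ∀ W : Matrix (R.ι ⊕ R'.ι) (R.ι ⊕ R'.ι) ℂ,
      W * fromRows (1 : Matrix R.ι R.ι ℂ) 0 = fromRows (1 : Matrix R.ι R.ι ℂ) 0 * (R.w c).1 →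
      W * fromRows 0 (1 : Matrix R'.ι R'.ι ℂ) = fromRows 0 (1 : Matrix R'.ι R'.ι ℂ) * (R'.w c).1 →
      W *ᵥ Sum.elim u u' = Sum.elim ((R.w c).1 *ᵥ u) ((R'.w c).1 *ᵥ u') := by
    intro W h1 h2
    rw [e, e, mulVec_add, mulVec_mulVec, mulVec_mulVec, mulVec_mulVec, mulVec_mulVec]
    exact congrArg₂ (· + ·) (congrArg (· *ᵥ u) h1) (congrArg (· *ᵥ u') h2)
  exact key _ h1 h2

/-- the complex linear extension -/
noncomputable def cx (R : Rep q) : ℂ ⊗[ℝ] q →ₗ[ℂ] Matrix R.ι R.ι ℂ := R.ρ.liftBaseChange ℂ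

theorem cx_lie (R : Rep q) (x y : ℂ ⊗[ℝ] q) : cx R ⁅x, y⁆ = cx R x * cx R y - cx R y * cx R x := by
  induction x using TensorProduct.induction_on with
  | zero => simp
  | add x x' hx hx' => rw [add_lie, map_add, map_add, hx, hx']; noncomm_ring
  | tmul a x =>
    induction y using TensorProduct.induction_on with
    | zero => rw [show ⁅a ⊗ₜ[ℝ] x, (0 : ℂ ⊗[ℝ] q)⁆ = 0 from lie_zero (L := ℂ ⊗[ℝ] q) _]; simp
    | add y y' hy hy' =>
      rw [show ⁅a ⊗ₜ[ℝ] x, y + y'⁆ = ⁅a ⊗ₜ[ℝ] x, y⁆ + ⁅a ⊗ₜ[ℝ] x, y'⁆ from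
        lie_add (L := ℂ ⊗[ℝ] q) _ _ _, map_add, map_add, hy, hy']
      noncomm_ring
    | tmul b y => simp [cx, R.map_lie, smul_sub, smul_smul, mul_comm a b]

theorem cx_kron (R R' : Rep q) (x : ℂ ⊗[ℝ] q) :
    cx (kron R R') x = kl R'.ι (cx R x) + kr R.ι (cx R' x) := by
  induction x using TensorProduct.induction_on with
  | zero => simp only [map_zero, add_zero]; rfl
  | add x x' hx hx' => simp only [map_add, hx, hx']; exact add_add_add_comm _ _ _ _
  | tmul a x => simp only [cx, LinearMap.liftBaseChange_tmul, map_smul, ← smul_add]; rfl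

theorem cx_dsum (R R' : Rep q) (x : ℂ ⊗[ℝ] q) :
    cx (dsum R R') x = fromBlocks (cx R x) 0 0 (cx R' x) := by
  induction x using TensorProduct.induction_on with
  | zero => simp only [map_zero, fromBlocks_zero]; rfl
  | add x x' hx hx' =>
    rw [map_add, hx, hx', map_add, map_add]
    exact (fromBlocks_add ..).trans (by simp)
  | tmul a x => exact (fromBlocks_smul a (R.ρ x) 0 0 (R'.ρ x)).trans (by simp [cx])

/-- the module of a representation -/
@[reducible] noncomputable def lrm (R : Rep q) : LieRingModule (ℂ ⊗[ℝ] q) (R.ι → ℂ) where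
  bracket x v := cx R x *ᵥ v
  add_lie x y v := by rw [map_add, add_mulVec]
  lie_add x := mulVec_add _
  leibniz_lie x y v := by
    show cx R x *ᵥ (cx R y *ᵥ v) = cx R ⁅x, y⁆ *ᵥ v + cx R y *ᵥ (cx R x *ᵥ v)
    rw [cx_lie, sub_mulVec, mulVec_mulVec, mulVec_mulVec, sub_add_cancel]

attribute [local instance] lrm

theorem lm (R : Rep q) : LieModule ℂ (ℂ ⊗[ℝ] q) (R.ι → ℂ) where
  smul_lie t x v := by
    show cx R (t • x) *ᵥ v = t • (cx R x *ᵥ v)
    rw [map_smul, smul_mulVec]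
  lie_smul t x v := mulVec_smul _ _ _

attribute [local instance] lm

variable [FiniteDimensional ℝ q] [LieAlgebra.IsKilling ℝ q]

theorem killing : IsKilling ℂ (ℂ ⊗[ℝ] q) := by
  have h : (killingForm ℂ (ℂ ⊗[ℝ] q)).Nondegenerate := by
    let b := Module.finBasis ℝ q
    have h1 := (LinearMap.BilinForm.nondegenerate_iff_det_ne_zero b).1
      (killingForm_nondegenerate ℝ q)
    rw [LinearMap.BilinForm.nondegenerate_iff_det_ne_zero (b.baseChange ℂ)]
    have : LinearMap.BilinForm.toMatrix (b.baseChange ℂ) (killingForm ℂ (ℂ ⊗[ℝ] q)) =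
        (algebraMap ℝ ℂ).mapMatrix (LinearMap.BilinForm.toMatrix b (killingForm ℝ q)) := by
      ext i j
      simp [killingForm]
    rw [this, ← RingHom.map_det]
    simpa using h1
  refine ⟨?_⟩
  rw [← LieSubmodule.toSubmodule_inj]
  exact (LieIdeal.coe_killingCompl_top ℂ _).trans h.ker_eq_bot

attribute [local instance] killing

theorem det_w (R : Rep q) (c : FreeGroup q) : (R.w c : Matrix R.ι R.ι ℂ).det = 1 := by
  have h : ∀ x, (R.ρ x).trace = 0 := fun x => by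
    have := dual_zero (traceLinearMap R.ι ℂ ℂ ∘ₗ cx R) fun x y => by
      simp [cx_lie, trace_mul_comm (cx R x)]
    simpa [cx] using LinearMap.congr_fun this (1 ⊗ₜ x)
  induction c using FreeGroup.induction_on with
  | C1 => simp
  | of x => simpa using det_exp (h x)
  | inv_of x _ =>
    rw [map_inv, Rep.w_of, expM_inv_val]
    exact det_exp (by rw [trace_neg, h, neg_zero])
  | mul x y hx hy => rw [map_mul, Units.val_mul, det_mul, hx, hy, mul_one]

theorem main (C : Subgroup (FreeGroup q)) : (Om C).Finite := by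
  obtain ⟨x0, hx0⟩ := exists_isCartanSubalgebra_engel ℂ (ℂ ⊗[ℝ] q)
  generalize LieSubalgebra.engel ℂ x0 = H at hx0
  obtain ⟨h0, gen⟩ := exists_gen (H := H)
  let T : Set ((Weight ℂ H (ℂ ⊗[ℝ] q) → ℤ) × Additive (C →* ℂˣ)) := {t | ∃ (R : Rep q)
    (u : R.ι → ℂ) (ν : Dual ℂ H), HW h0 u ν ∧ (∀ α, ν (coroot α) = t.1 α) ∧
      ∀ c : C, (R.w c : Matrix R.ι R.ι ℂ) = ((t.2.toMul c : ℂˣ) : ℂ) • (1 : Matrix R.ι R.ι ℂ)}
  refine ((fin_aux T ?_ ?_ ?_).image Additive.toMul).subset ?_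
  · rintro s ⟨R, u, ν, h1, h2, h3⟩ t ⟨R', u', ν', h1', h2', h3'⟩
    refine ⟨kron R R', fun p => u p.1 * u' p.2, ν + ν', ⟨fun e => ?_, fun h => ?_,
      fun α hα x hx => ?_⟩, fun α => by simp [h2, h2'], fun c => ?_⟩
    · obtain ⟨i, hi⟩ := Function.ne_iff.1 h1.1
      obtain ⟨j, hj⟩ := Function.ne_iff.1 h1'.1
      exact mul_ne_zero hi hj (congrFun e (i, j))
    · refine ((congrArg (· *ᵥ _) (cx_kron R R' h)).trans (kron_mulVec _ _ _ _)).trans ?_
      rw [show cx R h *ᵥ u = _ from h1.2.1 h, show cx R' h *ᵥ u' = _ from h1'.2.1 h]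
      ext p
      simp only [Pi.smul_apply, smul_eq_mul, LinearMap.add_apply]
      ring
    · refine ((congrArg (· *ᵥ _) (cx_kron R R' x)).trans (kron_mulVec _ _ _ _)).trans ?_
      rw [show cx R x *ᵥ u = _ from h1.2.2 α hα x hx, show cx R' x *ᵥ u' = _ from h1'.2.2 α hα x hx]
      ext p
      simp only [Pi.zero_apply, zero_mul, mul_zero, add_zero]
      rfl
    · rw [kron_w, h3, h3']
      simp [smul_smul, mul_comm]
      rfl
  · rintro s ⟨R, u, ν, h1, h2, h3⟩ t ⟨R', u', ν', h1', h2', h3'⟩ e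
    obtain rfl : ν = ν' := dual_ext fun α => by rw [h2, h2', e]
    have br : ∀ (x : ℂ ⊗[ℝ] q) (v : R.ι → ℂ) (v' : R'.ι → ℂ),
        ⁅x, sv R R' v v'⁆ = sv R R' ⁅x, v⁆ ⁅x, v'⁆ := fun x v v' =>
      (congrArg (· *ᵥ sv R R' v v') (cx_dsum R R' x)).trans
        ((fromBlocks_mulVec ..).trans (by simp [sv]; rfl))
    obtain ⟨i, hi⟩ := Function.ne_iff.1 h1.1
    obtain ⟨j, hj⟩ := Function.ne_iff.1 h1'.1
    have hw : HW h0 (sv R R' u u') ν := by
      refine ⟨fun e => hi (congrFun e (.inl i)), fun h => ?_, fun α hα x hx => ?_⟩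
      · rw [br, h1.2.1, h1'.2.1]
        ext (i | i) <;> rfl
      · rw [br, h1.2.2 α hα x hx, h1'.2.2 α hα x hx]
        ext (i | i) <;> rfl
    obtain ⟨N, n1, n2, n3⟩ := hw_uniq gen hw
    refine Additive.toMul.injective (MonoidHom.ext fun c => Units.ext ?_)
    have k := (dsum R R').w_mulVec_mem (N.restrictScalars ℝ) (fun x v hv => by
      have : cx (dsum R R') (1 ⊗ₜ x) *ᵥ v ∈ N := n2 (1 ⊗ₜ x) v hv
      simpa [cx] using this) c _ n1
    rw [dsum_w, h3, h3', smul_mulVec, smul_mulVec, one_mulVec, one_mulVec] at k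
    obtain ⟨a, ha⟩ := n3 _ k (by
      rw [br, lie_smul, lie_smul, h1.2.1, h1'.2.1]
      ext (i | i) <;> exact mul_left_comm _ _ _)
    exact (mul_right_cancel₀ hi (congrFun ha (.inl i))).symm.trans
      (mul_right_cancel₀ hj (congrFun ha (.inr j)))
  · rintro t ⟨R, u, ν, h1, -, h3⟩
    obtain ⟨i, -⟩ := Function.ne_iff.1 h1.1
    refine isOfFinAddOrder_iff_nsmul_eq_zero.2 ⟨Fintype.card R.ι,
      Fintype.card_pos_iff.2 ⟨i⟩, Additive.toMul.injective (MonoidHom.ext fun c => Units.ext ?_)⟩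
    simpa [h3] using det_w R c
  · rintro ω ⟨R, hR, h⟩
    obtain ⟨u, ν, h1⟩ := hw_exists (M := R.ι → ℂ) h0
    choose n hn using hw_int gen h1
    exact ⟨_, ⟨(n, Additive.ofMul ω), ⟨R, u, ν, h1, hn, h⟩, rfl⟩, rfl⟩

end FinM

variable {q : Type} [LieRing q] [LieAlgebra ℝ q] [FiniteDimensional ℝ q] [LieAlgebra.IsKilling ℝ q]

/-- finitely many central characters -/
theorem om_finite (C : Subgroup (FreeGroup q)) (_hC : ∀ c ∈ C, Cen c) : (Om C).Finite :=
  FinM.main C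

end Pool.Agent.MP_c15733_al.H87
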