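import Pool.Agent.MP_c15733_al.H87.Base

namespace Pool.Agent.MP_c15733_al.H87

open Filter Topology NormedSpace Matrix

universe u

attribute [local instance 100] LieRing.ofAssociativeRing

namespace Lat

/-- a point outside a discrete subgroup is separated from it by a real functional that is integral
on the subgroup -/
theorem sep {Z : Type} [NormedAddCommGroup Z] [NormedSpace ℝ Z] [FiniteDimensional ℝ Z]
    (L : Submodule ℤ Z) [DiscreteTopology L] {z : Z} (hz : z ∉ L) :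
    ∃ ℓ : Z →ₗ[ℝ] ℝ, (∀ w ∈ L, ∃ n : ℤ, ℓ w = n) ∧ ∀ n : ℤ, ℓ z ≠ n := by
  classical
  let b := Module.Free.chooseBasis ℤ L
  let v : Module.Free.ChooseBasisIndex ℤ L → Z := fun i => (b i : Z)
  have hvZ : LinearIndependent ℤ v := b.linearIndependent.map' L.subtype L.ker_subtype
  have hsp : Submodule.span ℤ (Set.range v) = L := by
    have h1 : Set.range v = L.subtype '' Set.range b := by
      rw [← Set.range_comp]; rfl
    rw [h1, ← Submodule.map_span, b.span_eq, Submodule.map_top, Submodule.range_subtype]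
  have hvR : LinearIndependent ℝ v := by
    rw [linearIndependent_iff_card_eq_finrank_span,
      Real.finrank_eq_int_finrank_of_discrete (by rw [hsp]; infer_instance),
      ← linearIndependent_iff_card_eq_finrank_span]
    exact hvZ
  let T : (Module.Free.ChooseBasisIndex ℤ L → ℝ) →ₗ[ℝ] Z := Fintype.linearCombination ℝ v
  have hT : LinearMap.ker T = ⊥ :=
    LinearMap.ker_eq_bot.mpr hvR.fintypeLinearCombination_injective
  have hmem : ∀ w : Z, w ∈ L ↔ ∃ c : Module.Free.ChooseBasisIndex ℤ L → ℤ,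
      T (fun i => (c i : ℝ)) = w := by
    intro w
    refine (SetLike.ext_iff.mp hsp w).symm.trans ?_
    rw [Submodule.mem_span_range_iff_exists_fun]
    refine exists_congr fun c => ?_
    simp only [T, Fintype.linearCombination_apply, Int.cast_smul_eq_zsmul]
  by_cases hzr : z ∈ LinearMap.range T
  · obtain ⟨c, rfl⟩ := hzr
    obtain ⟨g, hg⟩ := T.exists_leftInverse_of_injective hT
    have hg' : ∀ c, g (T c) = c := fun c => LinearMap.congr_fun hg c
    have : ∃ i, ∀ n : ℤ, c i ≠ n := by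
      by_contra hcon
      push Not at hcon
      choose n hn using hcon
      exact hz ((hmem _).mpr ⟨n, by congr 1; funext i; exact (hn i).symm⟩)
    obtain ⟨i, hi⟩ := this
    refine ⟨(LinearMap.proj i).comp g, fun w hw => ?_, fun n => ?_⟩
    · obtain ⟨c', rfl⟩ := (hmem w).mp hw
      exact ⟨c' i, by simp [hg']⟩
    · simpa [hg'] using hi n
  · obtain ⟨g, -, hg, hg1⟩ : ∃ g : Z →ₗ[ℝ] ℝ, True ∧ g.comp (LinearMap.range T).subtype = 0 ∧
        g z = 1 / 2 := by
      obtain ⟨g, h1, h2⟩ := LinearMap.exists_extend_of_notMem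
        (0 : LinearMap.range T →ₗ[ℝ] ℝ) hzr (1 / 2)
      exact ⟨g, trivial, h1, h2⟩
    refine ⟨g, fun w hw => ?_, fun n hn => ?_⟩
    · obtain ⟨c', rfl⟩ := (hmem w).mp hw
      refine ⟨0, ?_⟩
      have := LinearMap.congr_fun hg ⟨T (fun i => (c' i : ℝ)), LinearMap.mem_range_self _ _⟩
      simpa using this
    · rw [hg1] at hn
      have h2 : ((2 * n : ℤ) : ℝ) = ((1 : ℤ) : ℝ) := by push_cast; linarith
      have h3 : 2 * n = 1 := Int.cast_injective h2
      omega

/-- homomorphisms into the circle extend along any homomorphism whose kernel they kill -/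
theorem ext_circle {A B : Type*} [AddCommGroup A] [AddCommGroup B] (e : A →+ B)
    (φ : A →+ AddCircle (1 : ℝ)) (h : ∀ a, e a = 0 → φ a = 0) :
    ∃ ψ : B →+ AddCircle (1 : ℝ), ∀ a, ψ (e a) = φ a := by
  obtain ⟨ψ, hψ⟩ := (Module.Baer.of_divisible (AddCircle (1 : ℝ))).extension_property_addMonoidHom
    (QuotientAddGroup.kerLift e) (QuotientAddGroup.kerLift_injective e)
    (QuotientAddGroup.lift e.ker φ fun a ha => h a ha)
  refine ⟨ψ, fun a => ?_⟩
  have := DFunLike.congr_fun hψ (a : A ⧸ e.ker)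
  simpa using this

theorem coe_eq_zero (x : ℝ) : ((x : ℝ) : AddCircle (1 : ℝ)) = 0 ↔ ∃ n : ℤ, x = n := by
  rw [AddCircle.coe_eq_zero_iff]
  refine exists_congr fun n => ?_
  rw [zsmul_eq_mul, mul_one, eq_comm]

/-- circle characters separate the points of an abelian group -/
theorem sep_circle {B : Type*} [AddCommGroup B] {b : B} (hb : b ≠ 0) :
    ∃ ψ : B →+ AddCircle (1 : ℝ), ψ b ≠ 0 := by
  obtain ⟨c, hc⟩ := CharacterModule.exists_character_apply_ne_zero_of_ne_zero hb
  let ι : AddCircle (1 : ℚ) →+ AddCircle (1 : ℝ) :=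
    QuotientAddGroup.map (AddSubgroup.zmultiples (1 : ℚ)) (AddSubgroup.zmultiples (1 : ℝ))
      (Rat.castHom ℝ).toAddMonoidHom (by
        rintro q ⟨n, rfl⟩
        exact ⟨n, by simp⟩)
  have hι : ∀ x, ι x = 0 → x = 0 := by
    intro x
    induction x using QuotientAddGroup.induction_on with
    | H q =>
      intro hq
      have hq' : (((q : ℚ) : ℝ) : AddCircle (1 : ℝ)) = 0 := hq
      obtain ⟨n, hn⟩ := (coe_eq_zero _).mp hq'
      have hqn : q = n := by exact_mod_cast hn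
      show ((q : ℚ) : AddCircle (1 : ℚ)) = 0
      rw [AddCircle.coe_eq_zero_iff]
      exact ⟨n, by simp [hqn]⟩
  exact ⟨ι.comp (c : B →+ AddCircle (1 : ℚ)), fun h => hc (hι _ h)⟩

/-- the character of a group attached to a circle homomorphism -/
noncomputable def toChar {D : Type u} [CommGroup D] (ψ : Additive D →+ AddCircle (1 : ℝ)) :
    D →* ℂˣ where
  toFun d := Circle.toUnits (AddCircle.toCircle (ψ (Additive.ofMul d)))
  map_one' := by simp
  map_mul' x y := by rw [ofMul_mul, map_add, AddCircle.toCircle_add, map_mul]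

theorem toChar_ne {D : Type u} [CommGroup D] (ψ : Additive D →+ AddCircle (1 : ℝ)) {d : D}
    (h : ψ (Additive.ofMul d) ≠ 0) : toChar ψ d ≠ 1 := by
  intro h1
  apply h
  apply AddCircle.injective_toCircle (one_ne_zero)
  rw [AddCircle.toCircle_zero]
  have h2 : ((toChar ψ d : ℂˣ) : ℂ) = 1 := by rw [h1]; rfl
  exact Subtype.ext h2

theorem toChar_val {D : Type u} [CommGroup D] (ψ : Additive D →+ AddCircle (1 : ℝ)) {d : D}
    {x : ℝ} (h : ψ (Additive.ofMul d) = (x : AddCircle (1 : ℝ))) :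
    ((toChar ψ d : ℂˣ) : ℂ) = Complex.exp ((x : ℂ) * (2 * Real.pi * Complex.I)) := by
  have h2 : ((toChar ψ d : ℂˣ) : ℂ) = (AddCircle.toCircle (ψ (Additive.ofMul d)) : ℂ) := rfl
  rw [h2, h, AddCircle.toCircle_apply_mk, Circle.coe_exp]
  congr 1
  push_cast
  ring

/-- a functional on one term of a direct system that kills what dies later extends to a compatible
family of functionals -/
theorem dl {J : Type u} [Preorder J] [IsDirectedOrder J] (G : J → Type)
    [∀ j, AddCommGroup (G j)] [∀ j, Module ℝ (G j)] (g : ∀ k m, k ≤ m → G k →ₗ[ℝ] G m)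
    (hself : ∀ k ξ, g k k le_rfl ξ = ξ)
    (hmap : ∀ k m n (h1 : k ≤ m) (h2 : m ≤ n) ξ, g m n h2 (g k m h1 ξ) = g k n (h1.trans h2) ξ)
    (i : J) (φ : G i →ₗ[ℝ] ℝ) (h : ∀ ξ m (hm : i ≤ m), g i m hm ξ = 0 → φ ξ = 0) :
    ∃ Λ : ∀ k, G k →ₗ[ℝ] ℝ, (∀ k m (hkm : k ≤ m) ξ, Λ m (g k m hkm ξ) = Λ k ξ) ∧ Λ i = φ := by
  classical
  have : DirectedSystem G (g · · ·) := ⟨hself, fun n m k h1 h2 ξ => hmap k m n h1 h2 ξ⟩
  have hker : φ ∈ (LinearMap.ker (Module.DirectLimit.of ℝ J G g i)).dualAnnihilator := by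
    rw [Submodule.mem_dualAnnihilator]
    intro ξ hξ
    obtain ⟨m, hm, h0⟩ := Module.DirectLimit.of.zero_exact (LinearMap.mem_ker.mp hξ)
    exact h ξ m hm h0
  obtain ⟨Λ, hΛ⟩ := (LinearMap.range_dualMap_eq_dualAnnihilator_ker
    (Module.DirectLimit.of ℝ J G g i)).ge hker
  refine ⟨fun k => Λ.comp (Module.DirectLimit.of ℝ J G g k), fun k m hkm ξ => ?_, hΛ⟩
  simp only [LinearMap.comp_apply, Module.DirectLimit.of_f]

end Lat

/-- characters separate points of an abelian group that contains a quotient of a vector group by a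
discrete subgroup -/
theorem exists_char {Z : Type} [NormedAddCommGroup Z] [NormedSpace ℝ Z] [FiniteDimensional ℝ Z]
    {D : Type u} [CommGroup D] (ε : Z → D) (hadd : ∀ x y, ε (x + y) = ε x * ε y)
    (hloc : ∀ᶠ z in 𝓝 (0 : Z), ε z = 1 → z = 0) {d : D} (hd : d ≠ 1) :
    ∃ (χ : D →* ℂˣ) (ℓ : Z →ₗ[ℝ] ℂ), χ d ≠ 1 ∧ ∀ z, ((χ (ε z) : ℂˣ) : ℂ) = Complex.exp (ℓ z) := by
  let e : Z →+ Additive D := AddMonoidHom.mk' (fun z => Additive.ofMul (ε z))
    (fun x y => by rw [hadd, ofMul_mul])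
  have he : ∀ z, e z = Additive.ofMul (ε z) := fun z => rfl
  -- it suffices to find a circle homomorphism and a real functional
  suffices H : ∃ (ψ : Additive D →+ AddCircle (1 : ℝ)) (ℓ : Z →ₗ[ℝ] ℝ),
      ψ (Additive.ofMul d) ≠ 0 ∧ ∀ z, ψ (e z) = (ℓ z : AddCircle (1 : ℝ)) by
    obtain ⟨ψ, ℓ, h1, h2⟩ := H
    refine ⟨Lat.toChar ψ, ℓ.smulRight (2 * Real.pi * Complex.I), Lat.toChar_ne ψ h1, fun z => ?_⟩
    rw [Lat.toChar_val ψ (h2 z)]
    simp
  by_cases hr : Additive.ofMul d ∈ e.range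
  · obtain ⟨z, hz⟩ := hr
    let L : Submodule ℤ Z := e.ker.toIntSubmodule
    have hL : ∀ w, w ∈ L ↔ e w = 0 := fun w => Iff.rfl
    have : DiscreteTopology L := by
      apply discreteTopology_of_isOpen_singleton_zero
      rw [isOpen_singleton_iff_nhds_eq_pure]
      refine le_antisymm ?_ (pure_le_nhds _)
      rw [le_pure_iff]
      have ht : Tendsto (Subtype.val : L → Z) (𝓝 0) (𝓝 0) := continuous_subtype_val.tendsto' _ _ rfl
      filter_upwards [ht.eventually hloc] with w hw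
      exact Subtype.ext (hw ((hL w).mp w.2))
    have hzL : z ∉ L := by
      rw [hL, hz]
      exact hd
    obtain ⟨ℓ, h1, h2⟩ := Lat.sep L hzL
    let φ : Z →+ AddCircle (1 : ℝ) :=
      (QuotientAddGroup.mk' (AddSubgroup.zmultiples (1 : ℝ))).comp ℓ.toAddMonoidHom
    have hφ : ∀ w, φ w = (ℓ w : AddCircle (1 : ℝ)) := fun w => rfl
    obtain ⟨ψ, hψ⟩ := Lat.ext_circle e φ fun w hw => by
      rw [hφ, Lat.coe_eq_zero]
      exact h1 w ((hL w).mpr hw)
    refine ⟨ψ, ℓ, ?_, hψ⟩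
    rw [← hz, hψ, hφ, Ne, Lat.coe_eq_zero]
    rintro ⟨n, hn⟩
    exact h2 n hn
  · have hne : ((Additive.ofMul d : Additive D) : Additive D ⧸ e.range) ≠ 0 := by
      rwa [Ne, QuotientAddGroup.eq_zero_iff]
    obtain ⟨ψ, hψ⟩ := Lat.sep_circle hne
    refine ⟨ψ.comp (QuotientAddGroup.mk' e.range), 0, hψ, fun z => ?_⟩
    have h0 : ((e z : Additive D) : Additive D ⧸ e.range) = 0 := by
      rw [QuotientAddGroup.eq_zero_iff]
      exact ⟨z, rfl⟩
    show ψ ((e z : Additive D) : Additive D ⧸ e.range) = _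
    rw [h0, map_zero]
    simp

/-- linear compactness: stable images come from the projective limit -/
theorem lin_compact {J : Type u} [PartialOrder J] [IsDirectedOrder J] (V : J → Type)
    [∀ j, AddCommGroup (V j)] [∀ j, Module ℝ (V j)] [∀ j, FiniteDimensional ℝ (V j)]
    (f : ∀ i j, i ≤ j → V j →ₗ[ℝ] V i) (hid : ∀ i x, f i i le_rfl x = x)
    (hcomp : ∀ i j k (hij : i ≤ j) (hjk : j ≤ k) (x : V k),
      f i j hij (f j k hjk x) = f i k (hij.trans hjk) x) (i : J) :
    ∃ (j : J) (h : i ≤ j), ∀ y : V j, ∃ x : ∀ k, V k,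
      (∀ k m (hkm : k ≤ m), f k m hkm (x m) = x k) ∧ x i = f i j h y := by
  classical
  -- an index whose image has the least dimension
  obtain ⟨⟨j, hij⟩, hmin⟩ := exists_minimalFor_of_wellFoundedLT (fun _ : {j : J // i ≤ j} => True)
    (fun p => Module.finrank ℝ (LinearMap.range (f i p.1 p.2))) ⟨⟨i, le_rfl⟩, trivial⟩
  have hmono : ∀ a b (ha : i ≤ a) (hab : a ≤ b),
      LinearMap.range (f i b (ha.trans hab)) ≤ LinearMap.range (f i a ha) := by
    rintro a b ha hab _ ⟨w, rfl⟩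
    exact ⟨f a b hab w, hcomp _ _ _ _ _ _⟩
  have hst : ∀ m (hm : i ≤ m), LinearMap.range (f i j hij) ≤ LinearMap.range (f i m hm) := by
    intro m hm
    obtain ⟨k, hjk, hmk⟩ := exists_ge_ge j m
    have h1 := hmono j k hij hjk
    have h2 : Module.finrank ℝ (LinearMap.range (f i j hij)) ≤
        Module.finrank ℝ (LinearMap.range (f i k (hij.trans hjk))) :=
      hmin.2 (j := ⟨k, hij.trans hjk⟩) trivial (Submodule.finrank_mono h1)
    rw [← Submodule.eq_of_le_of_finrank_le h1 h2]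
    exact hmono m k hm hmk
  refine ⟨j, hij, fun y => ?_⟩
  obtain ⟨Λ, h1, h2⟩ := Lat.dl (fun k => Module.Dual ℝ (V k)) (fun k m h => (f k m h).dualMap)
    (fun k ξ => LinearMap.ext fun w => congrArg ξ (hid k w))
    (fun k m n h1 h2 ξ => LinearMap.ext fun w => congrArg ξ (hcomp _ _ _ _ _ _)) i
    (Module.Dual.eval ℝ (V i) (f i j hij y)) (by
      intro ξ m hm h0
      obtain ⟨w, hw⟩ := hst m hm (LinearMap.mem_range_self _ y)
      rw [← hw]
      exact LinearMap.congr_fun h0 w)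
  let x : ∀ k, V k := fun k => (Module.evalEquiv ℝ (V k)).symm (Λ k)
  have hx : ∀ k (ξ : Module.Dual ℝ (V k)), ξ (x k) = Λ k ξ :=
    fun k ξ => Module.apply_evalEquiv_symm_apply ℝ (V k) ξ _
  refine ⟨x, fun k m hkm => ?_, ?_⟩
  · apply (Module.evalEquiv ℝ (V k)).injective
    ext ξ
    show ξ (f k m hkm (x m)) = ξ (x k)
    rw [hx k ξ, ← h1 k m hkm ξ, ← hx m]
    rfl
  · apply (Module.evalEquiv ℝ (V i)).injective
    ext ξ
    show ξ (x i) = ξ (f i j hij y)
    rw [hx i ξ, h2]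
    rfl

end Pool.Agent.MP_c15733_al.H87
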