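import Pool.Agent.MP_c15733_al.H87.Base

namespace Pool.Agent.MP_c15733_al.H87

open Filter Topology NormedSpace Matrix

universe u

attribute [local instance 100] LieRing.ofAssociativeRing

variable {q : Type} [LieRing q] [LieAlgebra ℝ q] [FiniteDimensional ℝ q] [LieAlgebra.IsKilling ℝ q]
  {g : Type} [LieRing g] [LieAlgebra ℝ g] [FiniteDimensional ℝ g]

namespace LieAux

open LieAlgebra TensorProduct

theorem map_derived {L L' : Type} [LieRing L] [LieAlgebra ℝ L] [LieRing L'] [LieAlgebra ℝ L']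
    (f : L →ₗ⁅ℝ⁆ L') (hf : Function.Surjective f) (I : LieIdeal ℝ L) (k : ℕ) :
    (derivedSeriesOfIdeal ℝ L k I).map f = derivedSeriesOfIdeal ℝ L' k (I.map f) := by
  induction k with
  | zero => rfl
  | succ k ih => rw [derivedSeriesOfIdeal_succ, derivedSeriesOfIdeal_succ,
      LieIdeal.map_bracket_eq f hf, ih]

theorem solvable_iff {R L : Type} [CommRing R] [LieRing L] [LieAlgebra R L] (I : LieIdeal R L) :
    IsSolvable I ↔ ∃ k, derivedSeriesOfIdeal R L k I = ⊥ := by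
  rw [isSolvable_iff R]
  simp only [LieIdeal.derivedSeries_eq_bot_iff]

theorem eq_zero_of_central {L : Type} [LieRing L] [LieAlgebra ℝ L] [IsKilling ℝ L] {u : L}
    (h : ∀ y : L, ⁅u, y⁆ = 0) : u = 0 := by
  have h1 : u ∈ LieIdeal.killingCompl ℝ L ⊤ := by
    rw [LieIdeal.mem_killingCompl]
    intro y _
    have : LieModule.toEnd ℝ L L u = 0 := LinearMap.ext h
    rw [LieModule.traceForm_apply_apply, this, LinearMap.comp_zero, map_zero]
  rwa [IsKilling.killingCompl_top_eq_bot, LieSubmodule.mem_bot] at h1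

theorem lie_eq_zero {L : Type} [LieRing L] [LieAlgebra ℝ L] {I J : LieIdeal ℝ L}
    (h : IsCompl I J) {x y : L} (hx : x ∈ I) (hy : y ∈ J) : ⁅x, y⁆ = 0 := by
  have : ⁅x, y⁆ ∈ I ⊓ J := (LieSubmodule.mem_inf _ _ _).2 ⟨lie_mem_left ℝ L I x y hx, J.lie_mem hy⟩
  rwa [h.inf_eq_bot, LieSubmodule.mem_bot] at this

theorem exists_add {L : Type} [LieRing L] [LieAlgebra ℝ L] {I J : LieIdeal ℝ L}
    (h : IsCompl I J) (z : L) : ∃ x ∈ I, ∃ y ∈ J, x + y = z := by
  have : z ∈ I ⊔ J := by rw [h.sup_eq_top]; exact LieSubmodule.mem_top z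
  exact (LieSubmodule.mem_sup _ _ _).1 this

/-- a vector killed by `⁅g, r⁆` -/
theorem exists_killed {g : Type} [LieRing g] [LieAlgebra ℝ g] {W : Type} [AddCommGroup W]
    [Module ℂ W] [Module ℝ W] [IsScalarTower ℝ ℂ W] [FiniteDimensional ℂ W] [Nontrivial W]
    (σ : g →ₗ[ℝ] Module.End ℂ W) (hσ : ∀ x y, σ ⁅x, y⁆ = σ x * σ y - σ y * σ x)
    (r : LieIdeal ℝ g) [hr : IsSolvable r] :
    ∃ v : W, v ≠ 0 ∧ ∀ x : g, ∀ y ∈ r, σ ⁅x, y⁆ v = 0 := by
  have la : ∀ a b c : ℂ ⊗[ℝ] g, ⁅a, b + c⁆ = ⁅a, b⁆ + ⁅a, c⁆ := LieRing.lie_add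
  have l0 : ∀ a : ℂ ⊗[ℝ] g, ⁅a, (0 : ℂ ⊗[ℝ] g)⁆ = 0 := fun a => by
    have := la a 0 0
    rwa [add_zero, left_eq_add] at this
  let φ : (ℂ ⊗[ℝ] g) →ₗ⁅ℂ⁆ Module.End ℂ W :=
    { toLinearMap := σ.liftBaseChange ℂ
      map_lie' := by
        intro a b
        show σ.liftBaseChange ℂ ⁅a, b⁆ = ⁅σ.liftBaseChange ℂ a, σ.liftBaseChange ℂ b⁆
        induction a using TensorProduct.induction_on with
        | zero => simp
        | add a a' ha ha' => rw [add_lie, map_add, map_add, add_lie, ha, ha']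
        | tmul s x =>
          induction b using TensorProduct.induction_on with
          | zero => rw [l0, map_zero, lie_zero]
          | add b b' hb hb' => rw [la, map_add, map_add, lie_add, hb, hb']
          | tmul t y =>
            rw [LieAlgebra.ExtendScalars.bracket_tmul, LinearMap.liftBaseChange_tmul,
              LinearMap.liftBaseChange_tmul, LinearMap.liftBaseChange_tmul, smul_lie, lie_smul,
              smul_smul, hσ, Ring.lie_def] }
  have hφ : ∀ x, φ (1 ⊗ₜ x) = σ x := fun x => by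
    show σ.liftBaseChange ℂ (1 ⊗ₜ x) = σ x
    rw [LinearMap.liftBaseChange_tmul, one_smul]
  let _ : LieRingModule (ℂ ⊗[ℝ] g) W := LieRingModule.compLieHom W φ
  have : LieModule ℂ (ℂ ⊗[ℝ] g) W := LieModule.compLieHom W φ
  let I : LieIdeal ℂ (ℂ ⊗[ℝ] g) := r.baseChange ℂ
  have : IsSolvable I := by
    obtain ⟨k, hk⟩ := (solvable_iff r).1 hr
    exact (solvable_iff I).2 ⟨k, by
      rw [derivedSeriesOfIdeal_baseChange, hk, LieSubmodule.baseChange_bot]⟩
  obtain ⟨χ, hχ⟩ := LieModule.exists_nontrivial_weightSpace_of_isSolvable ℂ I W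
  obtain ⟨⟨v, hv⟩, hv0⟩ := exists_ne (0 : LieModule.weightSpace W χ)
  refine ⟨v, fun h => hv0 (Subtype.ext h), fun x y hy => ?_⟩
  have hxv : ⁅(1 : ℂ) ⊗ₜ[ℝ] x, v⁆ ∈ LieModule.weightSpace W χ :=
    (LieModule.weightSpaceOfIsLieTower ℂ W χ : LieSubmodule ℂ (ℂ ⊗[ℝ] g) W).lie_mem hv
  rw [LieModule.mem_weightSpace] at hv hxv
  have hy' : (1 : ℂ) ⊗ₜ[ℝ] y ∈ I := LieSubmodule.tmul_mem_baseChange_of_mem _ hy
  have h1 : φ (1 ⊗ₜ y) v = χ ⟨_, hy'⟩ • v := hv ⟨_, hy'⟩
  have h2 : φ (1 ⊗ₜ y) (φ (1 ⊗ₜ x) v) = χ ⟨_, hy'⟩ • φ (1 ⊗ₜ x) v := hxv ⟨_, hy'⟩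
  rw [hφ] at h1
  rw [hφ, hφ] at h2
  rw [hσ, LinearMap.sub_apply, Module.End.mul_apply, Module.End.mul_apply, h1, h2, map_smul,
    sub_self]

end LieAux

theorem killing_quot_radical (g : Type) [LieRing g] [LieAlgebra ℝ g] [FiniteDimensional ℝ g] :
    LieAlgebra.IsKilling ℝ (g ⧸ LieAlgebra.radical ℝ g) := by
  let π : g →ₗ⁅ℝ⁆ g ⧸ LieAlgebra.radical ℝ g :=
    { toLinearMap := (LieSubmodule.Quotient.mk' (LieAlgebra.radical ℝ g)).toLinearMap
      map_lie' := fun {x y} => LieSubmodule.Quotient.mk_bracket _ x y }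
  have hπ : Function.Surjective π := LieSubmodule.Quotient.surjective_mk' _
  have hker : ∀ x, π x = 0 ↔ x ∈ LieAlgebra.radical ℝ g := fun x =>
    LieSubmodule.Quotient.mk_eq_zero _
  have : LieAlgebra.HasTrivialRadical ℝ (g ⧸ LieAlgebra.radical ℝ g) := by
    rw [LieAlgebra.hasTrivialRadical_iff_no_solvable_ideals]
    intro J hJ
    obtain ⟨k, hk⟩ := (LieAux.solvable_iff J).1 hJ
    obtain ⟨l, hl⟩ := (LieAux.solvable_iff (LieAlgebra.radical ℝ g)).1 inferInstance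
    have h1 : LieAlgebra.derivedSeriesOfIdeal ℝ g k (J.comap π) ≤ LieAlgebra.radical ℝ g := by
      intro x hx
      have h2 := LieIdeal.mem_map (f := π) hx
      rw [LieAux.map_derived π hπ] at h2
      have h3 := LieAlgebra.derivedSeriesOfIdeal_mono (R := ℝ)
        (LieIdeal.map_le_iff_le_comap.2 (le_refl (J.comap π))) k h2
      rw [hk, LieSubmodule.mem_bot] at h3
      exact (hker x).1 h3
    have h2 : LieAlgebra.IsSolvable (J.comap π) := (LieAux.solvable_iff _).2 ⟨l + k, by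
      rw [LieAlgebra.derivedSeriesOfIdeal_add, eq_bot_iff, ← hl]
      exact LieAlgebra.derivedSeriesOfIdeal_mono h1 l⟩
    rw [LieAlgebra.LieIdeal.solvable_iff_le_radical] at h2
    rw [eq_bot_iff]
    intro z hz
    obtain ⟨x, rfl⟩ := hπ z
    exact (LieSubmodule.mem_bot _).2 ((hker x).2 (h2 hz))
  infer_instance

/-- a solvable ideal is killed by a surjection onto a semisimple Lie algebra -/
theorem map_solvable_eq_zero (π : g →ₗ⁅ℝ⁆ q) (hπ : Function.Surjective π) (I : LieIdeal ℝ g)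
    [LieAlgebra.IsSolvable I] : ∀ y ∈ I, π y = 0 := by
  obtain ⟨k, hk⟩ := (LieAux.solvable_iff I).1 inferInstance
  have : LieAlgebra.IsSolvable (I.map π) := (LieAux.solvable_iff _).2 ⟨k, by
    rw [← LieAux.map_derived π hπ, hk]
    exact LieIdeal.map_eq_bot_iff.2 bot_le⟩
  intro y hy
  have := LieIdeal.mem_map (f := π) hy
  rwa [LieAlgebra.HasTrivialRadical.eq_bot_of_isSolvable (I.map π), LieSubmodule.mem_bot] at this

/-- `q` is perfect -/
theorem surj_of_bracket (π : g →ₗ⁅ℝ⁆ q) (hπ : Function.Surjective π) (S : Submodule ℝ g)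
    (hS : ∀ x y : g, ⁅x, y⁆ ∈ S) (z : q) : ∃ y ∈ S, π y = z := by
  let D : LieIdeal ℝ q :=
    { toSubmodule := S.map π.toLinearMap
      lie_mem := by
        rintro x _ ⟨y, -, rfl⟩
        obtain ⟨x, rfl⟩ := hπ x
        exact ⟨_, hS x y, π.map_lie x y⟩ }
  obtain ⟨x, hx, w, hw, rfl⟩ := LieAux.exists_add (LieIdeal.isCompl_killingCompl D) z
  have hw0 : w = 0 := by
    refine LieAux.eq_zero_of_central fun y => ?_
    have h1 : ⁅w, y⁆ ∈ D ⊓ D.killingCompl := by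
      refine (LieSubmodule.mem_inf _ _ _).2 ⟨?_, lie_mem_left ℝ q _ w y hw⟩
      obtain ⟨a, rfl⟩ := hπ w
      obtain ⟨b, rfl⟩ := hπ y
      exact ⟨_, hS a b, π.map_lie a b⟩
    rwa [(LieIdeal.isCompl_killingCompl D).inf_eq_bot, LieSubmodule.mem_bot] at h1
  rw [hw0, add_zero]
  exact hx

theorem eq_zero_of_centralizes (I : LieIdeal ℝ q) {u : q} (hu : u ∈ I)
    (h : ∀ y ∈ I, ⁅u, y⁆ = 0) : u = 0 := by
  refine LieAux.eq_zero_of_central fun z => ?_
  obtain ⟨x, hx, w, hw, rfl⟩ := LieAux.exists_add (LieIdeal.isCompl_killingCompl I) z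
  rw [lie_add, h x hx, LieAux.lie_eq_zero (LieIdeal.isCompl_killingCompl I) hu hw, add_zero]

/-- the canonical section of a surjection of semisimple Lie algebras -/
theorem exists_good {q' : Type} [LieRing q'] [LieAlgebra ℝ q'] [FiniteDimensional ℝ q']
    [LieAlgebra.IsKilling ℝ q'] (θ : q' →ₗ⁅ℝ⁆ q) (hθ : Function.Surjective θ) :
    ∃ τ : q →ₗ⁅ℝ⁆ q', (∀ x, θ (τ x) = x) ∧ ∀ x y, θ y = 0 → ⁅τ x, y⁆ = 0 := by
  have hc := LieIdeal.isCompl_killingCompl θ.ker
  let f := θ.comp θ.ker.killingCompl.incl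
  have hf : Function.Bijective f := by
    constructor
    · rw [injective_iff_map_eq_zero]
      rintro ⟨x, hx⟩ h0
      have h1 : x ∈ θ.ker ⊓ θ.ker.killingCompl :=
        (LieSubmodule.mem_inf _ _ _).2 ⟨LieHom.mem_ker.2 h0, hx⟩
      rw [hc.inf_eq_bot, LieSubmodule.mem_bot] at h1
      exact Subtype.ext h1
    · intro z
      obtain ⟨y, rfl⟩ := hθ z
      obtain ⟨x, hx, w, hw, rfl⟩ := LieAux.exists_add hc y
      refine ⟨⟨w, hw⟩, ?_⟩
      rw [map_add, LieHom.mem_ker.1 hx, zero_add]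
      rfl
  let e := LieEquiv.ofBijective f hf
  refine ⟨θ.ker.killingCompl.incl.comp e.symm.toLieHom, fun x => e.apply_symm_apply x,
    fun x y hy => LieAux.lie_eq_zero hc.symm (e.symm x).2 (LieHom.mem_ker.2 hy)⟩

/-- `⁅g, r⁆` acts nilpotently, along an invariant flag -/
theorem exists_flag (R : Rep g) (r : LieIdeal ℝ g) [LieAlgebra.IsSolvable r] :
    ∃ U : ℕ → Submodule ℂ (R.ι → ℂ), U 0 = ⊥ ∧ (∃ n, U n = ⊤) ∧ Monotone U ∧
      (∀ i x, ∀ v ∈ U i, R.ρ x *ᵥ v ∈ U i) ∧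
      ∀ i (x : g), ∀ y ∈ r, ∀ v ∈ U (i + 1), R.ρ ⁅x, y⁆ *ᵥ v ∈ U i := by
  let nxt : Submodule ℂ (R.ι → ℂ) → Submodule ℂ (R.ι → ℂ) := fun S =>
    ⨅ x : g, ⨅ y : r, S.comap (R.ρ ⁅x, (y : g)⁆).mulVecLin
  have mem_nxt : ∀ S v, v ∈ nxt S ↔ ∀ x : g, ∀ y ∈ r, R.ρ ⁅x, y⁆ *ᵥ v ∈ S := fun S v => by
    simp [nxt, Submodule.mem_iInf]
  let U : ℕ → Submodule ℂ (R.ι → ℂ) := fun n => nxt^[n] ⊥
  have hU : ∀ n, U (n + 1) = nxt (U n) := fun n => Function.iterate_succ_apply' _ _ _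
  have hinv : ∀ i x, ∀ v ∈ U i, R.ρ x *ᵥ v ∈ U i := by
    intro i
    induction i with
    | zero =>
      intro x v hv
      rw [(Submodule.mem_bot ℂ).1 hv, mulVec_zero]
      exact Submodule.zero_mem _
    | succ i ih =>
      intro z v hv
      rw [hU, mem_nxt] at hv ⊢
      intro x y hy
      have e : R.ρ ⁅x, y⁆ *ᵥ R.ρ z *ᵥ v = R.ρ z *ᵥ R.ρ ⁅x, y⁆ *ᵥ v - R.ρ ⁅z, ⁅x, y⁆⁆ *ᵥ v := by
        rw [R.map_lie z, sub_mulVec, mulVec_mulVec, mulVec_mulVec, sub_sub_cancel]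
      rw [e]
      exact Submodule.sub_mem _ (ih _ _ (hv x y hy)) (hv z _ (r.lie_mem hy))
  have hle : ∀ i, U i ≤ U (i + 1) := fun i v hv => by
    rw [hU, mem_nxt]
    exact fun x y _ => hinv i _ v hv
  have hlt : ∀ i, U i ≠ ⊤ → U i < U (i + 1) := by
    intro i hi
    have : Nontrivial ((R.ι → ℂ) ⧸ U i) := Submodule.Quotient.nontrivial_iff.2 hi
    let σ : g →ₗ[ℝ] Module.End ℂ ((R.ι → ℂ) ⧸ U i) :=
      { toFun := fun x => (U i).mapQ (U i) (R.ρ x).mulVecLin fun v hv => hinv i x v hv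
        map_add' := fun x y => by
          refine LinearMap.ext fun w => ?_
          obtain ⟨v, rfl⟩ := Submodule.Quotient.mk_surjective _ w
          simp only [LinearMap.add_apply, Submodule.mapQ_apply, mulVecLin_apply, map_add,
            add_mulVec, Submodule.Quotient.mk_add]
        map_smul' := fun t x => by
          refine LinearMap.ext fun w => ?_
          obtain ⟨v, rfl⟩ := Submodule.Quotient.mk_surjective _ w
          simp only [LinearMap.smul_apply, Submodule.mapQ_apply, mulVecLin_apply, map_smul,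
            smul_mulVec, Submodule.Quotient.mk_smul, RingHom.id_apply] }
    have hσ : ∀ x v, σ x (Submodule.Quotient.mk v) = Submodule.Quotient.mk (R.ρ x *ᵥ v) :=
      fun x v => rfl
    obtain ⟨w, hw0, hw⟩ := LieAux.exists_killed σ (fun x y => by
      refine LinearMap.ext fun w => ?_
      obtain ⟨v, rfl⟩ := Submodule.Quotient.mk_surjective _ w
      rw [LinearMap.sub_apply, Module.End.mul_apply, Module.End.mul_apply, hσ, hσ, hσ, hσ, hσ,
        R.map_lie, sub_mulVec, mulVec_mulVec, mulVec_mulVec, Submodule.Quotient.mk_sub]) r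
    obtain ⟨v, rfl⟩ := Submodule.Quotient.mk_surjective _ w
    refine lt_of_le_of_ne (hle i) fun e => hw0 ((Submodule.Quotient.mk_eq_zero _).2 ?_)
    rw [e, hU, mem_nxt]
    intro x y hy
    have := hw x y hy
    rwa [hσ, Submodule.Quotient.mk_eq_zero] at this
  have hrk : ∀ i, U i = ⊤ ∨ i ≤ Module.finrank ℂ (U i) := by
    intro i
    induction i with
    | zero => exact Or.inr (Nat.zero_le _)
    | succ i ih =>
      by_cases hi : U i = ⊤
      · exact Or.inl (top_le_iff.1 (hi ▸ hle i))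
      · have := Submodule.finrank_lt_finrank_of_lt (hlt i hi)
        have := ih.resolve_left hi
        exact Or.inr (by omega)
  refine ⟨U, rfl, ⟨Module.finrank ℂ (R.ι → ℂ) + 1, (hrk _).resolve_right fun h => ?_⟩,
    monotone_nat_of_le_succ hle, hinv, fun i x y hy v hv => ?_⟩
  · have := Submodule.finrank_le (U (Module.finrank ℂ (R.ι → ℂ) + 1))
    omega
  · rw [hU, mem_nxt] at hv
    exact hv x y hy

end Pool.Agent.MP_c15733_al.H87
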