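import Pool.Agent.MP_c15733_al.H87.Base

namespace Pool.Agent.MP_c15733_al.H87

open Filter Topology NormedSpace Matrix

universe u

attribute [local instance 100] LieRing.ofAssociativeRing

namespace White

open Module LieModule

theorem exists_poly {V : Type} [AddCommGroup V] [Module ℝ V] [FiniteDimensional ℝ V]
    (T : End ℝ V) (hT : ¬ IsNilpotent T) :
    ∃ S : End ℝ V, (∀ a, Commute a T → Commute a S) ∧ LinearMap.trace ℝ V (T * S) ≠ 0 := by
  obtain ⟨g, hg, hX⟩ := Polynomial.exists_eq_pow_rootMultiplicity_mul_and_not_dvd T.charpoly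
    T.charpoly_monic.ne_zero 0
  generalize Polynomial.rootMultiplicity 0 T.charpoly = k at hg
  rw [map_zero, sub_zero] at hg hX
  obtain ⟨a, b, hab⟩ := (Polynomial.irreducible_X.coprime_iff_not_dvd.mpr hX).pow_left (m := k + 1)
  have h0 := T.aeval_self_charpoly
  rw [hg] at h0
  have h1 : T * Polynomial.aeval T (a * Polynomial.X ^ k) =
      Polynomial.aeval T (a * Polynomial.X ^ (k + 1)) := by
    rw [show a * Polynomial.X ^ (k + 1) = Polynomial.X * (a * Polynomial.X ^ k) by ring,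
      map_mul _ Polynomial.X, Polynomial.aeval_X]
  refine ⟨Polynomial.aeval T (a * Polynomial.X ^ k), fun c hc => ?_, fun h => hT ⟨k, ?_⟩⟩
  · rw [Polynomial.aeval_eq_sum_range]
    exact Commute.sum_right _ _ _ fun i _ => (hc.pow_right i).smul_right _
  · rw [h1] at h
    have h2 : IsIdempotentElem (Polynomial.aeval T (a * Polynomial.X ^ (k + 1))) := by
      rw [IsIdempotentElem, ← map_mul, show a * Polynomial.X ^ (k + 1) * (a * Polynomial.X ^ (k + 1)) =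
        a * Polynomial.X ^ (k + 1) - a * Polynomial.X * b * (Polynomial.X ^ k * g) by
          linear_combination (a * Polynomial.X ^ (k + 1)) * hab, map_sub, map_mul _ _ (_ * g), h0,
        mul_zero, sub_zero]
    have h3 := LinearMap.IsIdempotentElem.eq_zero_of_trace_eq_zero h2 h
    have h4 : (Polynomial.X ^ k : Polynomial ℝ) = Polynomial.X ^ k * (a * Polynomial.X ^ (k + 1)) +
        b * (Polynomial.X ^ k * g) := by linear_combination (-Polynomial.X ^ k) * hab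
    have h5 := congrArg (Polynomial.aeval T) h4
    rwa [map_add, map_mul, map_mul _ b, h3, h0, mul_zero, mul_zero, add_zero, map_pow,
      Polynomial.aeval_X] at h5

variable {q : Type} [LieRing q] [LieAlgebra ℝ q] [FiniteDimensional ℝ q] [LieAlgebra.IsKilling ℝ q]

omit [FiniteDimensional ℝ q] in
theorem kz {x : q} (h : ∀ y, killingForm ℝ q x y = 0) : x = 0 :=
  (LieAlgebra.IsKilling.killingForm_nondegenerate ℝ q).1 x h

theorem perfect (W : Submodule ℝ q) (h : ∀ x y : q, ⁅x, y⁆ ∈ W) : W = ⊤ := by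
  by_contra hW
  obtain ⟨φ, h0, hφ⟩ := W.exists_le_ker_of_lt_top (lt_top_iff_ne_top.mpr hW)
  have hκ := LieAlgebra.IsKilling.killingForm_nondegenerate ℝ q
  obtain ⟨z, rfl⟩ := ((killingForm ℝ q).toDual hκ).surjective φ
  have h1 : ∀ x : q, ⁅z, x⁆ = 0 := fun x => kz fun y => by
    rw [traceForm_apply_lie_apply]
    exact hφ (h x y)
  apply h0
  ext y
  have h2 : toEnd ℝ q q z = 0 := LinearMap.ext h1
  rw [LinearMap.BilinForm.toDual_def, traceForm_apply_apply, h2]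
  simp

/-- an invariant tensor whose Casimir operator has nonzero trace -/
theorem exists_tensor {V : Type} [AddCommGroup V] [Module ℝ V] [FiniteDimensional ℝ V]
    [LieRingModule q V] [LieModule ℝ q V] (hβ : traceForm ℝ q V ≠ 0) :
    ∃ (n : ℕ) (u w : Fin n → q), ∑ i, traceForm ℝ q V (u i) (w i) ≠ 0 ∧
      ∀ (Φ : q →ₗ[ℝ] q →ₗ[ℝ] V) (x : q), ∑ i, Φ ⁅x, u i⁆ (w i) = -∑ i, Φ (u i) ⁅x, w i⁆ := by
  have hκ := LieAlgebra.IsKilling.killingForm_nondegenerate ℝ q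
  let b := Module.finBasis ℝ q
  let d := (killingForm ℝ q).dualBasis hκ b
  have hd : ∀ x, x = ∑ i, killingForm ℝ q x (b i) • d i := fun x => by
    conv_lhs => rw [← d.sum_repr x]
    simp only [d, LinearMap.BilinForm.dualBasis_repr_apply]
  have hb : ∀ x i, b.repr x i = killingForm ℝ q (d i) x := fun x i => by
    conv_rhs => rw [← b.sum_repr x, map_sum]
    simp [d, LinearMap.BilinForm.apply_dualBasis_left]
  let T : End ℝ q := ((killingForm ℝ q).toDual hκ).symm.toLinearMap ∘ₗ traceForm ℝ q V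
  have hT : ∀ x y, killingForm ℝ q (T x) y = traceForm ℝ q V x y := fun x y => by
    rw [← LinearMap.BilinForm.toDual_def hκ]
    simp [T]
  have hc : ∀ x y, T ⁅x, y⁆ = ⁅x, T y⁆ := fun x y => sub_eq_zero.mp <| kz fun z => by
    rw [map_sub, LinearMap.sub_apply, hT, traceForm_apply_lie_apply', traceForm_apply_lie_apply',
      hT, sub_self]
  have hc' : ∀ x, Commute (toEnd ℝ q q x) T := fun x => LinearMap.ext fun y => (hc x y).symm
  obtain ⟨S, hS, htr⟩ := exists_poly T fun hn => hβ (by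
    ext x y
    have h1 : toEnd ℝ q q (T x) = T * toEnd ℝ q q x := LinearMap.ext fun z => by
      change ⁅T x, z⁆ = T ⁅x, z⁆
      rw [← lie_skew, ← hc, ← map_neg, lie_skew]
    rw [← hT, traceForm_apply_apply, h1, ← End.mul_eq_comp, mul_assoc]
    exact (LinearMap.isNilpotent_trace_of_isNilpotent
      (((hc' x).mul_left (hc' y)).symm.isNilpotent_mul_right hn)).eq_zero)
  refine ⟨_, fun i => S (b i), d, ?_, fun Φ x => ?_⟩
  · rw [LinearMap.trace_eq_matrix_trace ℝ b, Matrix.trace] at htr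
    convert htr using 2 with i
    rw [Matrix.diag_apply, LinearMap.toMatrix_apply, hb, traceForm_comm ℝ q q, ← hT]
    rfl
  · have h1 : ∀ i, Φ ⁅x, S (b i)⁆ (d i) =
        ∑ j, killingForm ℝ q (d j) ⁅x, b i⁆ • Φ (S (b j)) (d i) := fun i => by
      have : ⁅x, S (b i)⁆ = S ⁅x, b i⁆ := LinearMap.congr_fun (hS _ (hc' x)).eq (b i)
      rw [this]
      conv_lhs => rw [← b.sum_repr ⁅x, b i⁆]
      simp only [map_sum, map_smul, LinearMap.sum_apply, LinearMap.smul_apply, hb]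
    have h2 : ∀ j, Φ (S (b j)) ⁅x, d j⁆ =
        -∑ i, killingForm ℝ q (d j) ⁅x, b i⁆ • Φ (S (b j)) (d i) := fun j => by
      rw [hd ⁅x, d j⁆]
      simp only [map_sum, map_smul, traceForm_apply_lie_apply', neg_smul, Finset.sum_neg_distrib,
        map_neg]
    simp only [h1, h2, Finset.sum_neg_distrib, neg_neg]
    exact Finset.sum_comm

theorem step {V : Type} [AddCommGroup V] [Module ℝ V] [FiniteDimensional ℝ V] [Nontrivial V]
    [LieRingModule q V] [LieModule ℝ q V] (f : q →ₗ[ℝ] V)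
    (hf : ∀ x y, f ⁅x, y⁆ = ⁅x, f y⁆ - ⁅y, f x⁆) :
    ∃ (W : LieSubmodule ℝ q V) (v : V), W ≠ ⊤ ∧ ∀ x, f x - ⁅x, v⁆ ∈ W := by
  by_cases hβ : traceForm ℝ q V = 0
  · have h1 := isNilpotent_derivedSeries_of_traceForm_eq_zero hβ
    have h2 : ∀ x : q, x ∈ LieAlgebra.derivedSeries ℝ q 1 := fun x => by
      have := perfect (LieAlgebra.derivedSeries ℝ q 1).toSubmodule fun x y =>
        LieSubmodule.lie_mem_lie (LieSubmodule.mem_top x) (LieSubmodule.mem_top y)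
      exact (LieSubmodule.mem_toSubmodule _).mp (this ▸ Submodule.mem_top)
    have h3 : LieModule.IsNilpotent q V := (isNilpotent_iff_forall' (R := ℝ)).mpr fun x =>
      (isNilpotent_iff_forall' (R := ℝ)).mp h1 ⟨x, h2 x⟩
    refine ⟨lowerCentralSeries ℝ q V 1, 0, fun h => ?_, fun x => ?_⟩
    · obtain ⟨k, hk⟩ := (isNilpotent_iff ℝ q V).mp h3
      have : ∀ k, lowerCentralSeries ℝ q V k = ⊤ := fun k => by
        induction k with
        | zero => rfl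
        | succ k ih => rw [lowerCentralSeries_succ, ih]; exact h
      exact top_ne_bot ((this k).symm.trans hk)
    · have := perfect ((lowerCentralSeries ℝ q V 1).toSubmodule.comap f) fun x y => by
        rw [Submodule.mem_comap, hf]
        exact sub_mem (LieSubmodule.lie_mem_lie (LieSubmodule.mem_top _) (LieSubmodule.mem_top _))
          (LieSubmodule.lie_mem_lie (LieSubmodule.mem_top _) (LieSubmodule.mem_top _))
      rw [lie_zero, sub_zero]
      exact (this ▸ Submodule.mem_top : x ∈ Submodule.comap f _)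
  obtain ⟨n, u, w, htr, hinv⟩ := exists_tensor hβ
  let c : End ℝ V := ∑ i, toEnd ℝ q V (u i) * toEnd ℝ q V (w i)
  have hcv : ∀ v, c v = ∑ i, ⁅u i, ⁅w i, v⁆⁆ := fun v => by simp [c, LinearMap.sum_apply]
  have hc : ∀ x, Commute (toEnd ℝ q V x) c := fun x => LinearMap.ext fun v => by
    have := hinv (LinearMap.mk₂ ℝ (fun a b => ⁅a, ⁅b, v⁆⁆) (by simp) (by simp) (by simp)
      (by simp)) x
    simp only [LinearMap.mk₂_apply, lie_lie, lie_sub, Finset.sum_sub_distrib] at this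
    simp only [End.mul_apply, toEnd_apply_apply, hcv, lie_sum]
    linear_combination (norm := abel) this
  have hcf : ∀ x, c (f x) = ⁅x, ∑ i, ⁅u i, f (w i)⁆⁆ := fun x => by
    have := hinv (LinearMap.mk₂ ℝ (fun a b => ⁅a, f b⁆) (by simp) (by simp) (by simp)
      (by simp)) x
    simp only [LinearMap.mk₂_apply, lie_lie, lie_sub, Finset.sum_sub_distrib, hf] at this
    simp only [hcv, lie_sum]
    linear_combination (norm := abel) -this
  obtain ⟨N, hN, h1⟩ := ((c.eventually_isCompl_ker_pow_range_pow).and (eventually_ge_atTop 1)).exists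
  obtain ⟨m, rfl⟩ := Nat.exists_eq_add_of_le' h1
  have hp : ∀ (k : ℕ) (x : q) (v : V), (c ^ k) ⁅x, v⁆ = ⁅x, (c ^ k) v⁆ := fun k x v =>
    (LinearMap.congr_fun ((hc x).pow_right k).eq v).symm
  obtain ⟨a, ha, _, ⟨v, rfl⟩, hv⟩ := Submodule.mem_sup.mp
    (hN.sup_eq_top ▸ Submodule.mem_top : ∑ i, ⁅u i, f (w i)⁆ ∈ LinearMap.ker (c ^ (m + 1)) ⊔
      LinearMap.range (c ^ (m + 1)))
  refine ⟨⟨LinearMap.ker (c ^ (m + 1 + 1)), fun {x y} hy => ?_⟩, (c ^ m) v, fun h => htr ?_,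
    fun x => ?_⟩
  · change (c ^ _) _ = 0 at hy ⊢
    rw [hp, hy, lie_zero]
  · have h2 : IsNilpotent c := ⟨m + 1 + 1, LinearMap.ext fun y => (h ▸ LieSubmodule.mem_top y :)⟩
    have h3 := (LinearMap.isNilpotent_trace_of_isNilpotent h2).eq_zero
    rwa [map_sum] at h3
  · change (c ^ _) _ = 0
    have h2 := hp 1 x ((c ^ m) v)
    rw [pow_one, ← End.mul_apply c, ← pow_succ'] at h2
    rw [pow_succ, End.mul_apply, map_sub c, hcf, h2, ← hv, ← lie_sub, add_sub_cancel_right, hp,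
      LinearMap.mem_ker.mp ha, lie_zero]

theorem H1 (n : ℕ) : ∀ {V : Type} [AddCommGroup V] [Module ℝ V] [FiniteDimensional ℝ V]
    [LieRingModule q V] [LieModule ℝ q V], finrank ℝ V ≤ n → ∀ f : q →ₗ[ℝ] V,
    (∀ x y, f ⁅x, y⁆ = ⁅x, f y⁆ - ⁅y, f x⁆) → ∃ v : V, ∀ x, f x = ⁅x, v⁆ := by
  induction n with
  | zero =>
    intro V _ _ _ _ _ h f _
    have := finrank_zero_iff.mp (Nat.le_zero.mp h)
    exact ⟨0, fun x => Subsingleton.elim _ _⟩
  | succ n ih =>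
    intro V _ _ _ _ _ h f hf
    rcases subsingleton_or_nontrivial V with h0 | h0
    · exact ⟨0, fun x => Subsingleton.elim _ _⟩
    obtain ⟨W, v, hW, hv⟩ := step f hf
    have h1 : finrank ℝ W < finrank ℝ V :=
      Submodule.finrank_lt (s := W.toSubmodule) (by simpa using hW)
    obtain ⟨v', hv'⟩ := ih (V := W) (by omega)
      ((f - (toEnd ℝ q V : q →ₗ[ℝ] End ℝ V).flip v).codRestrict W.toSubmodule hv) fun x y => by
        ext
        change f ⁅x, y⁆ - ⁅⁅x, y⁆, v⁆ = ⁅x, f y - ⁅y, v⁆⁆ - ⁅y, f x - ⁅x, v⁆⁆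
        rw [hf, lie_lie, lie_sub, lie_sub]
        abel
    exact ⟨v + v', fun x => by
      rw [lie_add, ← sub_eq_iff_eq_add']
      exact congrArg Subtype.val (hv' x)⟩

section mod
variable {V : Type} [AddCommGroup V] [Module ℝ V] [FiniteDimensional ℝ V]
  [LieRingModule q V] [LieModule ℝ q V]

theorem H1' (M : LieSubmodule ℝ q V) (f : q →ₗ[ℝ] V) (hM : ∀ x, f x ∈ M)
    (hf : ∀ x y, f ⁅x, y⁆ = ⁅x, f y⁆ - ⁅y, f x⁆) : ∃ v ∈ M, ∀ x, f x = ⁅x, v⁆ := by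
  obtain ⟨v, hv⟩ := H1 _ (V := M) le_rfl (f.codRestrict M.toSubmodule hM) fun x y =>
    Subtype.ext (hf x y)
  exact ⟨v, v.2, fun x => congrArg Subtype.val (hv x)⟩

theorem proj (N : LieSubmodule ℝ q V) : ∃ P : V →ₗ[ℝ] V, (∀ v, P v ∈ N) ∧ (∀ v ∈ N, P v = v) ∧
    ∀ (x : q) v, P ⁅x, v⁆ = ⁅x, P v⁆ := by
  obtain ⟨p, hp⟩ := N.toSubmodule.subtype.exists_leftInverse_of_injective (Submodule.ker_subtype _)
  let P : V →ₗ[ℝ] V := N.toSubmodule.subtype ∘ₗ p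
  have h1 : ∀ v, P v ∈ N := fun v => (p v).2
  have h2 : ∀ v ∈ N, P v = v := fun v hv =>
    congrArg Subtype.val (LinearMap.congr_fun hp ⟨v, hv⟩)
  let E : LieSubmodule ℝ q (V →ₗ[ℝ] V) :=
    { carrier := {φ | (∀ v, φ v ∈ N) ∧ ∀ v ∈ N, φ v = 0}
      add_mem' := fun ha hb => ⟨fun v => add_mem (ha.1 v) (hb.1 v), fun v hv => by
        simp [ha.2 v hv, hb.2 v hv]⟩
      zero_mem' := ⟨fun _ => zero_mem _, fun _ _ => rfl⟩
      smul_mem' := fun c φ h => ⟨fun v => N.smul_mem c (h.1 v), fun v hv => by simp [h.2 v hv]⟩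
      lie_mem := fun {x φ} h => ⟨fun v => sub_mem (N.lie_mem (h.1 v)) (h.1 _), fun v hv => by
        simp [h.2 v hv, h.2 _ (N.lie_mem hv)]⟩ }
  obtain ⟨φ, hφ, h⟩ := H1' E ((toEnd ℝ q (V →ₗ[ℝ] V) : q →ₗ[ℝ] End ℝ (V →ₗ[ℝ] V)).flip P)
    (fun x => ⟨fun v => sub_mem (N.lie_mem (h1 v)) (h1 _), fun v hv => by
      simp [h2 v hv, h2 _ (N.lie_mem hv)]⟩) fun x y => lie_lie x y P
  refine ⟨P - φ, fun v => sub_mem (h1 v) (hφ.1 v), fun v hv => by simp [h2 v hv, hφ.2 v hv],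
    fun x v => ?_⟩
  have : ⁅x, P v⁆ - P ⁅x, v⁆ = ⁅x, φ v⁆ - φ ⁅x, v⁆ := LinearMap.congr_fun (h x) v
  simp only [LinearMap.sub_apply, lie_sub]
  linear_combination (norm := abel) -this

theorem H1rel (M N : LieSubmodule ℝ q V) (h : N ≤ M) (f : q →ₗ[ℝ] V) (hM : ∀ x, f x ∈ M)
    (hf : ∀ x y, f ⁅x, y⁆ - (⁅x, f y⁆ - ⁅y, f x⁆) ∈ N) : ∃ v ∈ M, ∀ x, f x - ⁅x, v⁆ ∈ N := by
  obtain ⟨P, h1, h2, h3⟩ := proj N
  obtain ⟨v, hv, h4⟩ := H1' M (f - P ∘ₗ f) (fun x => sub_mem (hM x) (h (h1 _))) fun x y => by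
    have := h2 _ (hf x y)
    simp only [map_sub, h3] at this
    simp only [LinearMap.sub_apply, LinearMap.comp_apply, lie_sub]
    linear_combination (norm := abel) -this
  refine ⟨v, hv, fun x => ?_⟩
  rw [← h4]
  simpa using h1 (f x)

end mod

/-- a representation as a morphism of Lie algebras -/
def hom {V : Type} [AddCommGroup V] [Module ℝ V] (ρ : q →ₗ[ℝ] End ℝ V)
    (hρ : ∀ x y, ρ ⁅x, y⁆ = ρ x * ρ y - ρ y * ρ x) : q →ₗ⁅ℝ⁆ End ℝ V :=
  { ρ with map_lie' := fun {x y} => hρ x y }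

theorem proj' {V : Type} [AddCommGroup V] [Module ℝ V] [FiniteDimensional ℝ V]
    (ρ : q →ₗ[ℝ] End ℝ V) (hρ : ∀ x y, ρ ⁅x, y⁆ = ρ x * ρ y - ρ y * ρ x)
    (B : Submodule ℝ V) (hB : ∀ x, ∀ v ∈ B, ρ x v ∈ B) :
    ∃ P : V →ₗ[ℝ] V, (∀ v, P v ∈ B) ∧ (∀ v ∈ B, P v = v) ∧ ∀ x v, P (ρ x v) = ρ x (P v) := by
  let _ := LieRingModule.compLieHom V (hom ρ hρ)
  have _ := LieModule.compLieHom V (hom ρ hρ)
  exact proj (q := q) ⟨B, fun {x v} hv => hB x v hv⟩

theorem H1rel' {V : Type} [AddCommGroup V] [Module ℝ V] [FiniteDimensional ℝ V]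
    (ρ : q →ₗ[ℝ] End ℝ V) (hρ : ∀ x y, ρ ⁅x, y⁆ = ρ x * ρ y - ρ y * ρ x)
    (M N : Submodule ℝ V) (hM : ∀ x, ∀ v ∈ M, ρ x v ∈ M) (hN : ∀ x, ∀ v ∈ N, ρ x v ∈ N)
    (h : N ≤ M) (f : q →ₗ[ℝ] V) (hfM : ∀ x, f x ∈ M)
    (hf : ∀ x y, f ⁅x, y⁆ - (ρ x (f y) - ρ y (f x)) ∈ N) : ∃ v ∈ M, ∀ x, f x - ρ x v ∈ N := by
  let _ := LieRingModule.compLieHom V (hom ρ hρ)
  have _ := LieModule.compLieHom V (hom ρ hρ)
  exact H1rel (q := q) ⟨M, fun {x v} hv => hM x v hv⟩ ⟨N, fun {x v} hv => hN x v hv⟩ h f hfM hf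

variable {g : Type} [LieRing g] [LieAlgebra ℝ g] [FiniteDimensional ℝ g]

theorem levi_central (π : g →ₗ⁅ℝ⁆ q) (s : q →ₗ[ℝ] g) (hs : ∀ x, π (s x) = x)
    (hz : ∀ x y (u : g), ⁅⁅s x, s y⁆ - s ⁅x, y⁆, u⁆ = 0) : ∃ σ : q →ₗ⁅ℝ⁆ g, ∀ x, π (σ x) = x := by
  let Z : Submodule ℝ g :=
    { carrier := {a | π a = 0 ∧ ∀ u : g, ⁅a, u⁆ = 0}
      add_mem' := fun ha hb => ⟨by simp [ha.1, hb.1], fun u => by simp [ha.2 u, hb.2 u]⟩
      zero_mem' := ⟨by simp, by simp⟩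
      smul_mem' := fun c a h => ⟨by simp [h.1], fun u => by simp [h.2 u]⟩ }
  obtain ⟨P, h1, h2, h3⟩ := proj' ((toEnd ℝ g g : g →ₗ[ℝ] End ℝ g) ∘ₗ s) (fun x y => by
      ext u
      have := hz x y u
      rw [sub_lie, sub_eq_zero, lie_lie] at this
      exact this.symm) Z fun x v hv => by
    have : ⁅s x, v⁆ = 0 := by rw [← lie_skew, hv.2, neg_zero]
    exact (this ▸ Z.zero_mem : ⁅s x, v⁆ ∈ Z)
  refine ⟨{ s - P ∘ₗ s with map_lie' := fun {x y} => ?_ }, fun x => ?_⟩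
  · change s ⁅x, y⁆ - P (s ⁅x, y⁆) = ⁅s x - P (s x), s y - P (s y)⁆
    have a1 := h2 (⁅s x, s y⁆ - s ⁅x, y⁆) ⟨by simp [hs], hz x y⟩
    have a2 : P ⁅s x, s y⁆ = ⁅s x, P (s y)⁆ := h3 x (s y)
    rw [map_sub, a2] at a1
    rw [sub_lie, (h1 (s x)).2, lie_sub]
    linear_combination (norm := abel) a1
  · change π (s x - P (s x)) = x
    rw [map_sub, hs, (h1 _).1, sub_zero]

theorem levi_abelian (π : g →ₗ⁅ℝ⁆ q) (hπ : Function.Surjective π)
    (hab : ∀ a b : g, π a = 0 → π b = 0 → ⁅a, b⁆ = 0) : ∃ σ : q →ₗ⁅ℝ⁆ g, ∀ x, π (σ x) = x := by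
  obtain ⟨s, hs'⟩ := (π : g →ₗ[ℝ] q).exists_rightInverse_of_surjective
    (LinearMap.range_eq_top.mpr hπ)
  have hs : ∀ x, π (s x) = x := fun x => LinearMap.congr_fun hs' x
  let A := LinearMap.ker (π : g →ₗ[ℝ] q)
  have hA : ∀ (u : g), ∀ a ∈ A, toEnd ℝ g g u a ∈ A := fun u a ha => by
    change π _ = 0 at ha
    change π ⁅u, a⁆ = 0
    rw [π.map_lie, ha, lie_zero]
  have hω : ∀ x y, π (⁅s x, s y⁆ - s ⁅x, y⁆) = 0 := fun x y => by simp [hs]
  have hω' : ∀ x y (a : A), ⁅s ⁅x, y⁆, a.1⁆ = ⁅s x, ⁅s y, a.1⁆⁆ - ⁅s y, ⁅s x, a.1⁆⁆ := fun x y a => by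
    have := hab _ _ (hω x y) a.2
    rw [sub_lie, sub_eq_zero, lie_lie] at this
    exact this.symm
  let ρ : q →ₗ⁅ℝ⁆ End ℝ A :=
    { toFun := fun x => (toEnd ℝ g g (s x)).restrict (hA _)
      map_add' := fun x y => by ext; simp
      map_smul' := fun c x => by ext; simp
      map_lie' := fun {x y} => by ext a; exact hω' x y a }
  let _ := LieRingModule.compLieHom A ρ
  have _ := LieModule.compLieHom A ρ
  have hc : ∀ (x : q) (a : A), (⁅x, a⁆ : A).1 = ⁅s x, a.1⁆ := fun _ _ => rfl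
  let D : A →ₗ[ℝ] q →ₗ[ℝ] A := (toEnd ℝ q A : q →ₗ[ℝ] End ℝ A).flip
  have hD : ∀ a x, D a x = ⁅x, a⁆ := fun _ _ => rfl
  let ω : q →ₗ[ℝ] q →ₗ[ℝ] A := LinearMap.mk₂ ℝ (fun x y => ⟨⁅s x, s y⁆ - s ⁅x, y⁆, hω x y⟩)
    (fun _ _ _ => by ext; simp; abel) (fun _ _ _ => by ext; simp [smul_sub])
    (fun _ _ _ => by ext; simp; abel) (fun _ _ _ => by ext; simp [smul_sub])
  have hω2 : ∀ x y, (ω x y).1 = ⁅s x, s y⁆ - s ⁅x, y⁆ := fun _ _ => rfl
  obtain ⟨φ, -, h⟩ := H1rel (q := q) ⊤ ⟨LinearMap.range D, by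
      rintro x _ ⟨a, rfl⟩
      refine ⟨⁅x, a⁆, LinearMap.ext fun z => ?_⟩
      rw [LieHom.lie_apply, hD, hD, hD, lie_lie, sub_sub_cancel]⟩ le_top ω
    (fun _ => LieSubmodule.mem_top _) fun x y => ⟨ω x y, LinearMap.ext fun z => Subtype.ext (by
      simp only [hD, hc, hω2, LinearMap.sub_apply, LieHom.lie_apply, Submodule.coe_sub, lie_sub,
        lie_lie x y z, map_sub, ← lie_skew (s z) (s ⁅x, y⁆)]
      rw [← lie_skew (s z) ⁅s x, s y⁆, lie_lie]
      abel)⟩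
  choose a ha using h
  let s1 : q →ₗ[ℝ] g := s - A.subtype ∘ₗ φ
  have h1 : ∀ x, π (s1 x) = x := fun x => by
    change π (s x - (φ x).1) = x
    rw [map_sub, hs, show π (φ x).1 = 0 from (φ x).2, sub_zero]
  let H : LieSubalgebra ℝ g :=
    { carrier := {u | ∀ y, ⁅u, s1 y⁆ = s1 ⁅π u, y⁆}
      add_mem' := fun ha hb y => by simp [ha y, hb y]
      zero_mem' := fun y => by simp
      smul_mem' := fun c u h y => by simp [h y]
      lie_mem' := fun {u v} hu hv y => by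
        rw [lie_lie, hu, hv, hu, hv, π.map_lie, lie_lie, map_sub] }
  obtain ⟨s2, hs2⟩ := ((π : g →ₗ[ℝ] q) ∘ₗ H.toSubmodule.subtype).exists_rightInverse_of_surjective
    (LinearMap.range_eq_top.mpr fun x => by
      have h2 : π (s x + (a x).1) = x := by
        rw [map_add, hs, show π (a x).1 = 0 from (a x).2, add_zero]
      refine ⟨⟨s x + (a x).1, fun y => ?_⟩, h2⟩
      have h3 := congrArg Subtype.val (LinearMap.congr_fun (ha x) y)
      simp only [hD, hc, hω2, LinearMap.sub_apply, LieHom.lie_apply, Submodule.coe_sub] at h3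
      rw [h2]
      change ⁅s x + (a x).1, s y - (φ y).1⁆ = s ⁅x, y⁆ - (φ ⁅x, y⁆).1
      rw [add_lie, lie_sub, lie_sub, hab _ _ (a x).2 (φ y).2, ← lie_skew (a x).1]
      linear_combination (norm := abel) -h3)
  have h4 : ∀ x, π (s2 x).1 = x := fun x => LinearMap.congr_fun hs2 x
  refine levi_central π (H.toSubmodule.subtype ∘ₗ s2) h4 fun x y u => ?_
  change ⁅⁅(s2 x).1, (s2 y).1⁆ - (s2 ⁅x, y⁆).1, u⁆ = 0
  have h5 : ⁅(s2 x).1, (s2 y).1⁆ - (s2 ⁅x, y⁆).1 ∈ H :=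
    sub_mem (H.lie_mem (s2 x).2 (s2 y).2) (s2 _).2
  have h6 : π (⁅(s2 x).1, (s2 y).1⁆ - (s2 ⁅x, y⁆).1) = 0 := by simp [h4]
  have h7 := h5 (π u)
  rw [h6, zero_lie, map_zero] at h7
  rw [← sub_add_cancel u (s1 (π u)), lie_add, h7, hab _ _ h6 (by rw [map_sub, h1, sub_self]),
    add_zero]

theorem levi_aux (n : ℕ) : ∀ {g : Type} [LieRing g] [LieAlgebra ℝ g] [FiniteDimensional ℝ g],
    finrank ℝ g < n → ∀ π : g →ₗ⁅ℝ⁆ q, Function.Surjective π → LieAlgebra.IsSolvable π.ker →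
    ∃ σ : q →ₗ⁅ℝ⁆ g, ∀ x, π (σ x) = x := by
  induction n with
  | zero => intro g _ _ _ h; omega
  | succ n ih =>
    intro g _ _ _ h π hπ hs
    let J : LieIdeal ℝ g := ⁅π.ker, π.ker⁆
    have hJ : J ≤ π.ker := LieSubmodule.lie_le_left _ _
    by_cases h0 : π.ker ≤ J
    · obtain ⟨k, hk⟩ := LieAlgebra.IsSolvable.solvable ℝ π.ker
      rw [LieIdeal.derivedSeries_eq_bot_iff] at hk
      have : ∀ k, LieAlgebra.derivedSeriesOfIdeal ℝ g k π.ker = π.ker := fun k => by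
        induction k with
        | zero => rfl
        | succ k ih => rw [LieAlgebra.derivedSeriesOfIdeal_succ, ih]; exact le_antisymm hJ h0
      rw [this] at hk
      refine levi_abelian π hπ fun a b ha _ => ?_
      rw [(LieSubmodule.mem_bot a).mp (hk ▸ LieHom.mem_ker.mpr ha), zero_lie]
    let π' : (g ⧸ J) →ₗ⁅ℝ⁆ q :=
      { J.toSubmodule.liftQ (π : g →ₗ[ℝ] q) (fun a ha => LieHom.mem_ker.mp (hJ ha)) with
        map_lie' := by rintro ⟨x⟩ ⟨y⟩; exact π.map_lie x y }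
    have hπ' : ∀ u, π' (LieSubmodule.Quotient.mk u) = π u := fun _ => rfl
    obtain ⟨σ, hσ⟩ := levi_abelian π' (fun x => (hπ x).elim fun u hu => ⟨_, (hπ' u).trans hu⟩) (by
      rintro ⟨a⟩ ⟨b⟩ ha hb
      exact (LieSubmodule.Quotient.mk_eq_zero' (N := J)).mpr
        (LieSubmodule.lie_mem_lie (LieHom.mem_ker.mpr ha) (LieHom.mem_ker.mpr hb)))
    let H : LieSubalgebra ℝ g :=
      { carrier := {u | J.toSubmodule.mkQ u = σ (π u)}
        add_mem' := fun {a b} ha hb => by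
          change _ = _ at ha hb ⊢
          rw [map_add, map_add, map_add, ha, hb]
        zero_mem' := by
          change _ = _
          rw [map_zero, map_zero, map_zero]
        smul_mem' := fun c u h => by
          change _ = _ at h ⊢
          rw [map_smul, map_smul, map_smul, h]
        lie_mem' := fun {u v} hu hv => by
          change _ = _ at hu hv ⊢
          rw [π.map_lie, σ.map_lie, ← hu, ← hv]
          rfl }
    have hH : finrank ℝ H < finrank ℝ g := Submodule.finrank_lt (s := H.toSubmodule) fun ht => h0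
      fun a ha => by
        have : J.toSubmodule.mkQ a = σ (π a) := (ht ▸ Submodule.mem_top : a ∈ H.toSubmodule)
        rw [LieHom.mem_ker.mp ha, map_zero] at this
        exact (Submodule.Quotient.mk_eq_zero _).mp this
    let ι : (π.comp H.incl).ker →ₗ⁅ℝ⁆ π.ker :=
      { toFun := fun a => ⟨a.1.1, LieHom.mem_ker.mpr (LieHom.mem_ker.mp a.2)⟩
        map_add' := fun _ _ => rfl
        map_smul' := fun _ _ => rfl
        map_lie' := rfl }
    obtain ⟨τ, hτ⟩ := ih (g := H) (by omega) (π.comp H.incl) (fun x => by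
      obtain ⟨u, hu⟩ := J.toSubmodule.mkQ_surjective (σ x)
      have h1 : π u = x := by rw [← hπ', ← hσ x, ← hu]; rfl
      exact ⟨⟨u, hu.trans (by rw [h1])⟩, h1⟩)
      (Function.Injective.lieAlgebra_isSolvable (f := ι) fun a b hab =>
        Subtype.ext (Subtype.ext (congrArg (fun z : π.ker => z.1) hab)))
    exact ⟨H.incl.comp τ, hτ⟩

end White

variable {q : Type} [LieRing q] [LieAlgebra ℝ q] [FiniteDimensional ℝ q] [LieAlgebra.IsKilling ℝ q]
  {g : Type} [LieRing g] [LieAlgebra ℝ g] [FiniteDimensional ℝ g]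

/-- Weyl's theorem on complete reducibility -/
theorem weyl {V : Type} [AddCommGroup V] [Module ℝ V] [FiniteDimensional ℝ V]
    (ρ : q →ₗ[ℝ] Module.End ℝ V) (hρ : ∀ x y, ρ ⁅x, y⁆ = ρ x * ρ y - ρ y * ρ x)
    (B : Submodule ℝ V) (hB : ∀ x, ∀ v ∈ B, ρ x v ∈ B) :
    ∃ B' : Submodule ℝ V, IsCompl B B' ∧ ∀ x, ∀ v ∈ B', ρ x v ∈ B' := by
  obtain ⟨P, h1, h2, h3⟩ := White.proj' ρ hρ B hB
  refine ⟨LinearMap.ker P, LinearMap.IsProj.isCompl ⟨h1, h2⟩, fun x v hv => ?_⟩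
  rw [LinearMap.mem_ker] at hv ⊢
  rw [h3, hv, map_zero]

/-- one step of Malcev's conjugacy theorem -/
theorem malcev_step (σ σ' : q →ₗ⁅ℝ⁆ g) (I : LieIdeal ℝ g) (h : ∀ x, σ' x - σ x ∈ I) :
    ∃ v ∈ I, ∀ x, σ' x - σ x - ⁅v, σ x⁆ ∈ (⁅I, I⁆ : LieIdeal ℝ g) := by
  obtain ⟨v, hv, h1⟩ := White.H1rel'
    ((LieModule.toEnd ℝ g g : g →ₗ[ℝ] Module.End ℝ g) ∘ₗ (σ : q →ₗ[ℝ] g)) (fun x y => by
      ext u
      simp) I.toSubmodule (⁅I, I⁆ : LieIdeal ℝ g).toSubmodule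
    (fun x v hv => I.lie_mem hv) (fun x v hv => (⁅I, I⁆ : LieIdeal ℝ g).lie_mem hv)
    (LieSubmodule.lie_le_left I I) ((σ' : q →ₗ[ℝ] g) - (σ : q →ₗ[ℝ] g)) h fun x y => by
      have := LieSubmodule.lie_mem_lie (h x) (h y)
      change σ' ⁅x, y⁆ - σ ⁅x, y⁆ - (⁅σ x, σ' y - σ y⁆ - ⁅σ y, σ' x - σ x⁆) ∈ (⁅I, I⁆ : LieIdeal ℝ g)
      convert this using 1
      simp only [LieHom.map_lie, lie_sub, sub_lie, ← lie_skew (σ y)]
      abel
  refine ⟨-v, neg_mem hv, fun x => ?_⟩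
  rw [neg_lie, lie_skew]
  exact h1 x

/-- Levi's theorem -/
theorem levi (π : g →ₗ⁅ℝ⁆ q) (hπ : Function.Surjective π) [LieAlgebra.IsSolvable π.ker] :
    ∃ σ : q →ₗ⁅ℝ⁆ g, ∀ x, π (σ x) = x :=
  White.levi_aux _ (Nat.lt_succ_self _) π hπ inferInstance

end Pool.Agent.MP_c15733_al.H87
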