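import Pool.Agent.MP_c15733_al.H87.Core2
import Pool.Agent.MP_c15733_al.H87.White
import Pool.Agent.MP_c15733_al.H87.LieAux
import Pool.Agent.MP_c15733_al.H87.Fin
import Pool.Agent.MP_c15733_al.H87.Chars
import Pool.Agent.MP_c15733_al.H87.Lat
import Pool.Agent.MP_c15733_al.H87.Ext

/-! Words in exponentials, Malcev conjugacy and the reductive case. -/

namespace Pool.Agent.MP_c15733_al.H87

open Filter Topology NormedSpace Matrix
open scoped Matrix.Norms.Operator IsMulCommutative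

universe u v

attribute [local instance 100] LieRing.ofAssociativeRing

variable {q : Type} [LieRing q] [LieAlgebra ℝ q]
  {E : Type} [NormedAddCommGroup E] [NormedSpace ℝ E] {G : Type u} [Group G]
  {e : E → G} {l : G → E}

/-- the value in `G` of a word in exponentials -/
def wv (e : E → G) (σ : q → E) : FreeGroup q →* G := FreeGroup.lift fun x => e (σ x)

omit [LieRing q] [LieAlgebra ℝ q] [NormedAddCommGroup E] [NormedSpace ℝ E] in
@[simp] theorem wv_of (σ : q → E) (x : q) : wv e σ (FreeGroup.of x) = e (σ x) :=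
  FreeGroup.lift_apply_of

omit [LieRing q] [LieAlgebra ℝ q] [NormedAddCommGroup E] [NormedSpace ℝ E] in
theorem map_wv {E' : Type} {G' : Type v} [Group G'] {e' : E' → G'} (f : G →* G') (σ : q → E)
    (σ' : q → E') (h : ∀ x, f (e (σ x)) = e' (σ' x)) (c : FreeGroup q) :
    f (wv e σ c) = wv e' σ' c := by
  have : f.comp (wv e σ) = wv e' σ' := FreeGroup.ext_hom _ _ fun x => by simp [h]
  exact DFunLike.congr_fun this c

theorem map_exp_sub_mem {A : Type*} [NormedRing A] [NormedAlgebra ℝ A] [CompleteSpace A]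
    {F : Type*} [NormedAddCommGroup F] [NormedSpace ℝ F] [FiniteDimensional ℝ F]
    (P : A →L[ℝ] F) (S : Submodule ℝ F) {a : A} (h : ∀ n : ℕ, P (a ^ (n + 2)) ∈ S) :
    P (exp a - 1 - a) ∈ S := by
  have h1 := ((hasSum_nat_add_iff' 2).2 (exp_series_hasSum_exp' (𝕂 := ℝ) a)).mapL P
  have h2 : exp a - ∑ i ∈ Finset.range 2, ((i.factorial : ℝ)⁻¹) • a ^ i = exp a - 1 - a := by
    simp [Finset.sum_range_succ, sub_sub]
  rw [h2] at h1
  refine S.closed_of_finiteDimensional.mem_of_tendsto h1 (Eventually.of_forall fun s => ?_)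
  refine S.sum_mem fun n _ => ?_
  rw [map_smul]
  exact S.smul_mem _ (h n)

variable [TopologicalSpace G] [IsTopologicalGroup G] [FiniteDimensional ℝ E] [LieBr E]

/-- a continuous linear map that respects brackets -/
def toLie {E' : Type} [LieRing E'] [LieAlgebra ℝ E'] (φ : E →ₗ[ℝ] E')
    (h : ∀ X Y, φ ⁅X, Y⁆ = ⁅φ X, φ Y⁆) : E →ₗ⁅ℝ⁆ E' := { φ with map_lie' := fun {X Y} => h X Y }

theorem IsL.exists_rep (h : IsL e l) {ι : Type} [Fintype ι] [DecidableEq ι] (ρ : G →* GL ι ℂ)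
    (hρ : Continuous ρ) : ∃ φ : E →L[ℝ] Matrix ι ι ℂ, (∀ X, ρ (e X) = expM (φ X)) ∧
      ∀ X Y, φ ⁅X, Y⁆ = φ X * φ Y - φ Y * φ X := by
  obtain ⟨φ, hφ⟩ := h.toIsE.rep_deriv ρ hρ
  exact ⟨φ, fun X => Units.ext (hφ X), h.rep_lie ρ φ hφ⟩

theorem IsL.wv_mem_KO (h : IsL e l) (σ : q →ₗ⁅ℝ⁆ E) {c : FreeGroup q} (hc : c ∈ Wd q) :
    wv e σ c ∈ KO G := by
  simp only [KO, Subgroup.mem_iInf, MonoidHom.mem_ker]
  intro n ρ
  obtain ⟨φ, h1, h2⟩ := h.exists_rep ρ.toMonoidHom ρ.continuous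
  let R : Rep q := ⟨Fin n, φ.toLinearMap ∘ₗ σ.toLinearMap, fun x y => by simp [h2]⟩
  rw [← mem_Wd.1 hc R]
  exact map_wv (e' := expM) _ σ R.ρ (fun x => h1 _) c

omit [LieBr E] [FiniteDimensional ℝ E] in
theorem IsE.mem_center [ConnectedSpace G] (h : IsE e l) {g : G}
    (hg : ∀ X, g * e X * g⁻¹ = e X) : g ∈ Subgroup.center G := by
  have := h.eq_top (Subgroup.centralizer {g}) fun X => by
    rw [Subgroup.mem_centralizer_singleton_iff]
    exact (mul_inv_eq_iff_eq_mul.1 (hg X)).symm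
  rw [Subgroup.mem_center_iff]
  intro x
  exact Subgroup.mem_centralizer_singleton_iff.1 (this ▸ Subgroup.mem_top x)

variable [T2Space G]

omit [LieBr E] in
theorem IsE.KO_le_center [ConnectedSpace G] (h : IsE e l) : KO G ≤ Subgroup.center G := by
  obtain ⟨Ad, hc, hA⟩ := h.exists_Ad
  intro g hg
  refine h.mem_center fun X => ?_
  rw [hA, MonoidHom.mem_ker.1 (KO_le_ker_units Ad hc hg)]
  rfl

variable [FiniteDimensional ℝ q] [LieAlgebra.IsKilling ℝ q]

omit [IsTopologicalGroup G] [T2Space G] in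
theorem IsL.malcev (h : IsL e l) (k : ℕ) : ∀ (I : LieIdeal ℝ E) (σ σ' : q →ₗ⁅ℝ⁆ E),
    LieAlgebra.derivedSeriesOfIdeal ℝ E k I = ⊥ → (∀ x, σ' x - σ x ∈ I) →
    ∃ g : G, ∀ x, g * e (σ x) * g⁻¹ = e (σ' x) := by
  induction k with
  | zero =>
    intro I σ σ' hI hσ
    rw [LieAlgebra.derivedSeriesOfIdeal_zero] at hI
    refine ⟨1, fun x => ?_⟩
    have := hσ x
    rw [hI, LieSubmodule.mem_bot, sub_eq_zero] at this
    simp [this]
  | succ k ih =>
    intro I σ σ' hI hσ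
    obtain ⟨v, hv, h1⟩ := malcev_step σ σ' I hσ
    let T : E →ₗ⁅ℝ⁆ E := toLie (exp (LieBr.ad v) : E →L[ℝ] E).toLinearMap
      (h.deriv_lie h (MulAut.conj (e v)).toMonoidHom _ fun X => h.conj v X)
    rw [LieAlgebra.derivedSeriesOfIdeal_add] at hI
    obtain ⟨g, hg⟩ := ih _ (T.comp σ) σ' hI (fun x => by
      have h2 : ⁅v, σ x⁆ ∈ I := lie_mem_left ℝ E I _ _ hv
      have h3 : ∀ n : ℕ, (LieBr.ad v ^ (n + 1)) (σ x) ∈ I := by
        intro n
        induction n with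
        | zero => rw [zero_add, pow_one]; exact h2
        | succ n ih =>
          rw [pow_succ']
          exact lie_mem_right ℝ E I _ _ ih
      have h4 := map_exp_sub_mem (ContinuousLinearMap.apply ℝ E (σ x))
        (⁅I, I⁆ : LieIdeal ℝ E).toSubmodule (a := LieBr.ad v) fun n => by
          rw [pow_succ']
          exact LieSubmodule.lie_mem_lie hv (h3 n)
      have h5 := (⁅I, I⁆ : LieIdeal ℝ E).sub_mem (h1 x) h4
      have h6 : σ' x - σ x - ⁅v, σ x⁆ - ContinuousLinearMap.apply ℝ E (σ x)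
          (exp (LieBr.ad v) - 1 - LieBr.ad v) = σ' x - (T.comp σ) x := by
        show σ' x - σ x - ⁅v, σ x⁆ - (exp (LieBr.ad v) (σ x) - σ x - ⁅v, σ x⁆) =
          σ' x - exp (LieBr.ad v) (σ x)
        abel
      rw [h6] at h5
      exact h5)
    refine ⟨g * e v, fun x => ?_⟩
    rw [← hg x]
    show _ = g * e (exp (LieBr.ad v) (σ x)) * g⁻¹
    rw [← h.conj]
    group

/-- the value of a universally trivial word does not depend on the Levi factor -/
theorem IsL.wv_eq [ConnectedSpace G] (h : IsL e l) (I : LieIdeal ℝ E) [LieAlgebra.IsSolvable I]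
    (σ σ' : q →ₗ⁅ℝ⁆ E) (hσ : ∀ x, σ' x - σ x ∈ I) {c : FreeGroup q} (hc : c ∈ Wd q) :
    wv e σ' c = wv e σ c := by
  obtain ⟨k, hk⟩ := LieAlgebra.IsSolvable.solvable ℝ I
  obtain ⟨g, hg⟩ := h.malcev k I σ σ' ((LieIdeal.derivedSeries_eq_bot_iff I k).1 hk) hσ
  rw [← map_wv (MulAut.conj g).toMonoidHom σ σ' hg c]
  show g * wv e σ c * g⁻¹ = _
  rw [Subgroup.mem_center_iff.1 (h.toIsE.KO_le_center (h.wv_mem_KO σ hc)) g,
    mul_inv_cancel_right]

omit [FiniteDimensional ℝ q] [LieAlgebra.IsKilling ℝ q] in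
theorem IsL.cen (h : IsL e l) (π : E →ₗ⁅ℝ⁆ q) (σ : q →ₗ⁅ℝ⁆ E) (hσ : ∀ x, π (σ x) = x)
    {c : FreeGroup q} (hc : wv e σ c ∈ Subgroup.center G) : Cen c := by
  obtain ⟨Ad, -, hA⟩ := h.toIsE.exists_Ad
  intro R x
  let ψ : E →L[ℝ] Matrix R.ι R.ι ℂ := LinearMap.toContinuousLinearMap (R.ρ ∘ₗ π.toLinearMap)
  have key : ∀ (c : FreeGroup q) (Y : E), (R.w c : Matrix R.ι R.ι ℂ) * ψ Y =
      ψ ((Ad (wv e σ c) : E →L[ℝ] E) Y) * R.w c := by
    have hof : ∀ (x : q) (Y : E), (R.w (FreeGroup.of x) : Matrix R.ι R.ι ℂ) * ψ Y =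
        ψ ((Ad (wv e σ (FreeGroup.of x)) : E →L[ℝ] E) Y) * R.w (FreeGroup.of x) := by
      intro x Y
      have := conj_exp' ψ (R.ρ x) (LieBr.ad (σ x)) (fun y => by
        show R.ρ (π ⁅σ x, y⁆) = R.ρ x * R.ρ (π y) - R.ρ (π y) * R.ρ x
        rw [LieHom.map_lie, hσ, R.map_lie]) Y
      rw [wv_of, h.Ad_e (hA (e (σ x))), Rep.w_of, expM_val]
      refine Eq.trans ?_ (congrArg (· * exp (R.ρ x)) this).symm
      exact (((mul_assoc _ _ _).trans (congrArg _ (exp_neg_mul_exp _))).trans (mul_one _)).symm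
    intro c
    induction c using FreeGroup.induction_on with
    | C1 => simp
    | of x => exact hof x
    | inv_of x ih =>
      intro Y
      have := ih ((Ad (wv e σ (FreeGroup.of x)⁻¹) : E →L[ℝ] E) Y)
      rw [← mul_apply_eq_comp, ← Units.val_mul, ← map_mul, ← map_mul, mul_inv_cancel, map_one,
        map_one, Units.val_one, one_apply_eq_self] at this
      rw [map_inv R.w, Units.inv_mul_eq_iff_eq_mul, ← mul_assoc, this, Units.mul_inv_cancel_right]
    | mul a b ha hb =>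
      intro Y
      rw [map_mul, map_mul, map_mul, Units.val_mul, Units.val_mul, mul_assoc, hb, ← mul_assoc, ha,
        mul_assoc, mul_apply_eq_comp]
  have h1 : (Ad (wv e σ c) : E →L[ℝ] E) (σ x) = σ x := h.toIsE.ext fun t => by
    rw [← map_smul, ← hA, ← Subgroup.mem_center_iff.1 hc, mul_inv_cancel_right]
  have h2 := key c (σ x)
  rw [h1] at h2
  have h3 : ψ (σ x) = R.ρ x := by
    show R.ρ (π (σ x)) = _
    rw [hσ]
  rwa [h3] at h2

/-- the reductive case -/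
theorem IsL.KO_eq_bot_of_central [ConnectedSpace G] (h : IsL e l) (π : E →ₗ⁅ℝ⁆ q)
    (σ : q →ₗ⁅ℝ⁆ E) (hσ : ∀ x, π (σ x) = x) (hz : ∀ X Y : E, π Y = 0 → ⁅X, Y⁆ = 0)
    (hW : ∀ c ∈ Wd q, wv e σ c = 1) : KO G = ⊥ := by
  rw [eq_bot_iff]
  intro d hd
  by_contra hd1
  have hdc := h.toIsE.KO_le_center hd
  let Z : Submodule ℝ E := LinearMap.ker π.toLinearMap
  have hZ : ∀ z : Z, e z ∈ Subgroup.center G := fun z => h.toIsE.mem_center fun X => by
    rw [← (h.commute (hz X z z.2)).eq, mul_inv_cancel_right]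
  let ε : Z → Subgroup.center G := fun z => ⟨e z, hZ z⟩
  have hε : ∀ x y, ε (x + y) = ε x * ε y := fun x y => Subtype.ext (h.e_add (hz _ _ y.2))
  obtain ⟨χ, ℓ, hχ, hℓ⟩ := exists_char ε hε (by
    have t : Tendsto (fun z : Z => (z : E)) (𝓝 0) (𝓝 0) := continuous_subtype_val.tendsto' _ _ rfl
    filter_upwards [t.eventually h.le] with z a b
    rw [show e z = 1 from congrArg Subtype.val b, h.toIsE.l_one] at a
    exact Subtype.ext a.symm) (d := ⟨d, hdc⟩) fun h0 => hd1 (Subgroup.mem_bot.2 (congrArg Subtype.val h0))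
  let C : Subgroup (FreeGroup q) := (Subgroup.center G).comap (wv e σ)
  have hC : ∀ c ∈ C, Cen c := fun c hc => h.cen π σ hσ hc
  let χ' : C →* ℂˣ := χ.comp (((wv e σ).comp C.subtype).codRestrict _ fun c => c.2)
  obtain ⟨R, hR, hw⟩ := chars (fun R B hB => weyl
      ((Matrix.toLin'.restrictScalars ℝ).toLinearMap ∘ₗ R.ρ |> fun f =>
        (LinearMap.restrictScalarsₗ ℝ ℂ (R.ι → ℂ) (R.ι → ℂ) ℝ) ∘ₗ f)
      (fun x y => by ext v; simp [R.map_lie]) B hB) C hC (om_finite C hC) χ'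
    (fun c hc => by
      show χ ⟨wv e σ c, _⟩ = 1
      simp only [hW c hc]
      exact map_one χ)
  let sc : ℂˣ →* GL R.ι ℂ := Units.map (algebraMap ℂ (Matrix R.ι R.ι ℂ)).toMonoidHom
  have hsc : ∀ a, (sc a : Matrix R.ι R.ι ℂ) = (a : ℂ) • (1 : Matrix R.ι R.ι ℂ) := fun a =>
    Algebra.algebraMap_eq_smul_one _
  have hcm : ∀ a b, sc a * b = b * sc a := fun a b => Units.ext (by simp [hsc])
  let pr : E →ₗ[ℝ] Z := (LinearMap.id - σ.toLinearMap ∘ₗ π.toLinearMap).codRestrict Z fun X => by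
    simp [Z, hσ]
  have hpr : ∀ X, e X = e (σ (π X)) * e (pr X) := fun X => by
    rw [← h.e_add (hz _ _ (pr X).2)]
    congr 1
    simp [pr]
  let Θ : FreeGroup E →* G := FreeGroup.lift e
  let Ψ : FreeGroup E →* GL R.ι ℂ := FreeGroup.lift fun X => expM (R.ρ (π X)) * sc (χ (ε (pr X)))
  have nf : ∀ w, ∃ (c : FreeGroup q) (z : Subgroup.center G),
      Θ w = wv e σ c * z ∧ Ψ w = R.w c * sc (χ z) := by
    intro w
    induction w using FreeGroup.induction_on with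
    | C1 => exact ⟨1, 1, by simp, by simp⟩
    | of X => exact ⟨FreeGroup.of (π X), ε (pr X), by simpa [Θ] using hpr X, by simp [Ψ]⟩
    | inv_of X ih =>
      obtain ⟨c, z, a, b⟩ := ih
      refine ⟨c⁻¹, z⁻¹, ?_, ?_⟩
      · rw [map_inv, a, _root_.mul_inv_rev, map_inv]
        exact (Subgroup.mem_center_iff.1 (z⁻¹).2 _).symm
      · rw [map_inv, b, _root_.mul_inv_rev, map_inv, map_inv, map_inv, ← map_inv sc, hcm]
    | mul x y hx hy =>
      obtain ⟨c, z, a, b⟩ := hx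
      obtain ⟨c', z', a', b'⟩ := hy
      refine ⟨c * c', z * z', ?_, ?_⟩
      · rw [map_mul, a, a', map_mul, Subgroup.coe_mul, mul_assoc, ← mul_assoc (z : G),
          ← Subgroup.mem_center_iff.1 z.2, mul_assoc, mul_assoc]
      · rw [map_mul, b, b', map_mul, map_mul, map_mul, mul_assoc, ← mul_assoc (sc _), hcm,
          mul_assoc, mul_assoc]
  have hcen : ∀ w (hw' : Θ w ∈ Subgroup.center G), Ψ w = sc (χ ⟨Θ w, hw'⟩) := by
    intro w hw'
    obtain ⟨c, z, a, b⟩ := nf w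
    have hc : c ∈ C := by
      have := Subgroup.mul_mem _ hw' (z⁻¹).2
      rwa [a, Subgroup.coe_inv, mul_inv_cancel_right] at this
    have h1 : R.w c = sc (χ' ⟨c, hc⟩) := Units.ext (by rw [hsc, ← hw])
    rw [b, h1, ← map_mul]
    congr 1
    exact (map_mul χ _ _).symm.trans (congrArg χ (Subtype.ext a.symm))
  have hΘ : Function.Surjective Θ :=
    MonoidHom.range_eq_top.1 (h.toIsE.eq_top _ fun X => ⟨FreeGroup.of X, by simp [Θ]⟩)
  have hker : Θ.ker ≤ Ψ.ker := fun w hw' => by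
    rw [MonoidHom.mem_ker] at hw' ⊢
    rw [hcen w (hw' ▸ Subgroup.one_mem _)]
    simp only [hw']
    exact (congrArg sc (map_one χ)).trans (map_one sc)
  let ρ : G →* GL R.ι ℂ := Θ.liftOfSurjective hΘ ⟨Ψ, hker⟩
  have hρ : ∀ w, ρ (Θ w) = Ψ w := fun w => MonoidHom.liftOfRightInverse_comp_apply _ _ _ _ w
  have hρe : ∀ X, (ρ (e X) : Matrix R.ι R.ι ℂ) =
      exp (R.ρ (π X)) * (Complex.exp (ℓ (pr X)) • 1) := fun X => by
    have := hρ (FreeGroup.of X)
    simp only [Θ, Ψ, FreeGroup.lift_apply_of] at this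
    rw [this, Units.val_mul, hsc, hℓ, expM_val]
  have hcont : Continuous ρ := by
    refine continuous_of_continuousAt_one ρ ?_
    refine (Units.isOpenEmbedding_val (R := Matrix R.ι R.ι ℂ)).isInducing.continuousAt_iff.2 ?_
    have c1 : Continuous fun X : E => exp (R.ρ (π X)) *
        (Complex.exp (ℓ (pr X)) • (1 : Matrix R.ι R.ι ℂ)) :=
      (exp_cont.comp (R.ρ ∘ₗ π.toLinearMap).continuous_of_finiteDimensional).mul
        ((Complex.continuous_exp.comp (ℓ ∘ₗ pr).continuous_of_finiteDimensional).smul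
          continuous_const)
    have c2 := (c1.tendsto 0).comp h.tend
    rw [← hρe, h.toIsE.e_zero] at c2
    refine c2.congr' ?_
    filter_upwards [h.el] with g hg
    rw [Function.comp_apply, ← hρe, hg, Function.comp_apply]
  obtain ⟨w, rfl⟩ := hΘ d
  have h1 := MonoidHom.mem_ker.1 (KO_le_ker ρ hcont hd)
  rw [hρ, hcen w hdc] at h1
  obtain ⟨i⟩ := hR
  have h2 := congrFun (congrFun (hsc (χ ⟨Θ w, hdc⟩)) i) i
  rw [h1] at h2
  exact hχ (Units.ext (by simpa using h2.symm))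

end Pool.Agent.MP_c15733_al.H87
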