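import Pool.Agent.MP_c15733_al.H87.FD1

/-! The unipotent part and the structure of `KO` for a connected Lie group. -/

namespace Pool.Agent.MP_c15733_al.H87

open Filter Topology NormedSpace Matrix
open scoped Matrix.Norms.Operator

universe u v

attribute [local instance 100] LieRing.ofAssociativeRing

theorem deriv_mem {F : Type*} [NormedAddCommGroup F] [NormedSpace ℝ F] [FiniteDimensional ℝ F]
    (M : Submodule ℝ F) {f : ℝ → F} {v : F} (hf : HasDerivAt f v 0) (h : ∀ t, f t - f 0 ∈ M) :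
    v ∈ M :=
  M.closed_of_finiteDimensional.mem_of_tendsto (hasDerivAt_iff_tendsto_slope.1 hf)
    (Eventually.of_forall fun t => by rw [slope_def_module]; exact M.smul_mem _ (h t))

theorem exists_genInv {U V : Type*} [AddCommGroup U] [Module ℝ U] [AddCommGroup V] [Module ℝ V]
    (f : U →ₗ[ℝ] V) : ∃ s : V →ₗ[ℝ] U, ∀ x, f (s (f x)) = f x := by
  obtain ⟨r, hr⟩ := f.rangeRestrict.exists_rightInverse_of_surjective f.range_rangeRestrict
  obtain ⟨s, hs⟩ := r.exists_extend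
  refine ⟨s, fun x => ?_⟩
  have h1 : s (f x) = r (f.rangeRestrict x) := LinearMap.congr_fun hs (f.rangeRestrict x)
  rw [h1]
  exact congrArg Subtype.val (LinearMap.congr_fun hr (f.rangeRestrict x))

section Filt

variable {A : Type} [NormedRing A] [NormedAlgebra ℝ A]

/-- a nilpotent filtration -/
structure Filt (T : ℕ → Submodule ℝ A) : Prop where
  one : (1 : A) ∈ T 0
  mul : ∀ {i j a b}, a ∈ T i → b ∈ T j → a * b ∈ T (i + j)
  anti : Antitone T
  bot : ∃ n, T n = ⊥

variable {T : ℕ → Submodule ℝ A}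

theorem Filt.mul_left (hT : Filt T) {k : ℕ} {a b : A} (ha : a ∈ T 0) (hb : b ∈ T k) :
    a * b ∈ T k := by simpa using hT.mul ha hb

theorem Filt.pow (hT : Filt T) {a : A} (ha : a ∈ T 0) (n : ℕ) : a ^ n ∈ T 0 := by
  induction n with
  | zero => simpa using hT.one
  | succ n ih => rw [pow_succ]; exact hT.mul ih ha

theorem Filt.mul' (hT : Filt T) {k : ℕ} {a b : A} (ha : a ∈ T (k + 1)) (hb : b ∈ T (k + 1)) :
    a * b ∈ T (k + 2) := hT.anti (by omega) (hT.mul ha hb)

theorem Filt.exists_sub (hT : Filt T) {G : Type u} [Group G] (ρ : G →* Aˣ)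
    (h0 : ∀ g, (ρ g : A) ∈ T 0) (k : ℕ) (M : Submodule ℝ A) (h1 : T (k + 2) ≤ M)
    (h2 : M ≤ T (k + 1)) : ∃ S : Subgroup G, ∀ g, g ∈ S ↔ (ρ g : A) - 1 ∈ M := by
  refine ⟨{ carrier := {g | (ρ g : A) - 1 ∈ M}, mul_mem' := fun {a b} ha hb => ?_
            one_mem' := by simp, inv_mem' := fun {a} ha => ?_ }, fun g => Iff.rfl⟩
  · have := M.add_mem (M.add_mem (h1 (hT.mul' (h2 ha) (h2 hb))) ha) hb
    show (ρ (a * b) : A) - 1 ∈ M
    convert this using 1
    rw [map_mul, Units.val_mul]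
    noncomm_ring
  · have h3 : (ρ a⁻¹ : A) * ρ a = 1 := by rw [← Units.val_mul, ← map_mul]; simp
    have h4 : (ρ a⁻¹ : A) - 1 = -((ρ a⁻¹ : A) * (ρ a - 1)) := by
      rw [mul_sub, h3, mul_one, neg_sub]
    have h5 : (ρ a⁻¹ : A) - 1 ∈ T (k + 1) :=
      h4 ▸ (T _).neg_mem (hT.mul_left (h0 _) (h2 ha))
    have := M.neg_mem (M.add_mem (h1 (hT.mul' h5 (h2 ha))) ha)
    show (ρ a⁻¹ : A) - 1 ∈ M
    convert this using 1
    rw [sub_mul, mul_sub, h3]
    noncomm_ring

variable [FiniteDimensional ℝ A] [CompleteSpace A]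

theorem Filt.exp_mem (hT : Filt T) {a : A} (ha : a ∈ T 0) : exp a ∈ T 0 :=
  map_exp_mem (ContinuousLinearMap.id ℝ A) _ (hT.pow ha)

theorem Filt.exp_sub (hT : Filt T) {k : ℕ} {a : A} (ha : a ∈ T (k + 1)) :
    exp a - 1 - a ∈ T (k + 2) :=
  map_exp_sub_mem (ContinuousLinearMap.id ℝ A) _ fun n => by
    rw [pow_add, sq]
    exact hT.mul_left (hT.pow (hT.anti (Nat.zero_le _) ha) n) (hT.mul' ha ha)

theorem Filt.exp_sub_one (hT : Filt T) {k : ℕ} {a : A} (ha : a ∈ T (k + 1)) :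
    exp a - 1 ∈ T (k + 1) := by
  simpa using (T _).add_mem (hT.anti (Nat.le_succ _) (hT.exp_sub ha)) ha

variable {E : Type} [NormedAddCommGroup E] [NormedSpace ℝ E] {G : Type u} [Group G]
  {e : E → G} {l : G → E} [TopologicalSpace G] [IsTopologicalGroup G] [FiniteDimensional ℝ E]
  [T2Space G]

/-- the unipotent radical of a locally faithful representation -/
theorem IsE.exists_unip [ConnectedSpace G] (h : IsE e l) (hT : Filt T) (ρ : G →* Aˣ)
    (hρ : Continuous ρ) (φ : E →L[ℝ] A) (hφ : ∀ X, (ρ (e X) : A) = exp (φ X))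
    (h0 : ∀ X, φ X ∈ T 0) (hinj : ∀ X, φ X = 0 → X = 0) :
    ∃ (N : Subgroup G) (_ : N.Normal) (hN : IsClosed (N : Set G)),
      (∀ X, X ∈ h.lie N hN ↔ φ X ∈ T 1) ∧ N ⊓ ρ.ker = ⊥ := by
  have hc : Continuous fun g => (ρ g : A) - 1 :=
    (Units.continuous_val.comp hρ).sub continuous_const
  have hG : ∀ g, (ρ g : A) ∈ T 0 := by
    let S : Subgroup G :=
      { carrier := {g | (ρ g : A) ∈ T 0 ∧ (ρ g⁻¹ : A) ∈ T 0}
        mul_mem' := fun {a b} ha hb => ⟨by simpa using hT.mul ha.1 hb.1, by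
          rw [_root_.mul_inv_rev, map_mul, Units.val_mul]; exact hT.mul hb.2 ha.2⟩
        one_mem' := by simpa using hT.one
        inv_mem' := fun {a} ha => ⟨ha.2, by rw [inv_inv]; exact ha.1⟩ }
    have : S = ⊤ := h.eq_top S fun X =>
      ⟨hφ X ▸ hT.exp_mem (h0 X), by rw [← h.e_neg, hφ]; exact hT.exp_mem (h0 _)⟩
    exact fun g => (this ▸ Subgroup.mem_top g : g ∈ S).1
  have hder : ∀ (M : Submodule ℝ A) (X : E), (∀ t : ℝ, (ρ (e (t • X)) : A) - 1 ∈ M) → φ X ∈ M :=
    fun M X hX => deriv_mem M (hasDerivAt_exp_zero' (φ X)) fun t => by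
      have := hX t
      rwa [hφ, map_smul, ← exp_zero (𝔸 := A), ← zero_smul ℝ (φ X)] at this
  choose P hP using fun k => hT.exists_sub ρ hG k (T (k + 1)) (hT.anti (by omega)) le_rfl
  have hPc : ∀ k, IsClosed (P k : Set G) := fun k => by
    have : (P k : Set G) = (fun g => (ρ g : A) - 1) ⁻¹' T (k + 1) := Set.ext (hP k)
    exact this ▸ (T _).closed_of_finiteDimensional.preimage hc
  let N := Subgroup.closure (e '' {X | φ X ∈ T 1})
  have heN : ∀ (X) (t : ℝ), φ X ∈ T 1 → e (t • X) ∈ N := fun X t hX =>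
    Subgroup.subset_closure ⟨t • X, by simpa using (T 1).smul_mem t hX, rfl⟩
  have hle : N ≤ P 0 := (Subgroup.closure_le _).2 (by
    rintro _ ⟨X, hX, rfl⟩
    exact (hP 0 _).2 (hφ X ▸ hT.exp_sub_one hX))
  have hN : IsClosed (N : Set G) := h.isClosed_of_le (hPc 0) hle fun X hX => by
    simpa using heN X 1 (hder _ X fun t => (hP 0 _).1 (hX t))
  have hnorm : N.Normal := by
    obtain ⟨Ad, -, hA⟩ := h.exists_Ad
    refine ⟨fun n hn g => ?_⟩
    induction hn using Subgroup.closure_induction with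
    | mem x hx =>
      obtain ⟨X, hX, rfl⟩ := hx
      rw [hA]
      refine Subgroup.subset_closure ⟨_, hder _ _ fun t => ?_, rfl⟩
      have := hT.mul (hT.mul_left (hG g) ((hP 0 _).1 (hle (heN X t hX)))) (hG g⁻¹)
      convert this using 1
      rw [← map_smul, ← hA, map_mul, map_mul, Units.val_mul, Units.val_mul, mul_sub, sub_mul,
        mul_one, ← Units.val_mul (ρ g) (ρ g⁻¹), ← map_mul]
      simp
    | one => simp
    | mul x y _ _ hx hy =>
      have := N.mul_mem hx hy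
      convert this using 1
      group
    | inv x _ hx =>
      have := N.inv_mem hx
      convert this using 1
      group
  have hpath : ∀ g ∈ N, ∃ γ : ℝ → G, Continuous γ ∧ γ 0 = 1 ∧ γ 1 = g ∧ ∀ t, γ t ∈ N := by
    intro g hg
    induction hg using Subgroup.closure_induction with
    | mem x hx =>
      obtain ⟨X, hX, rfl⟩ := hx
      exact ⟨fun t => e (t • X), h.cont.comp (continuous_id.smul continuous_const),
        by simp [h.e_zero], by simp, fun t => heN X t hX⟩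
    | one => exact ⟨fun _ => 1, continuous_const, rfl, rfl, fun _ => N.one_mem⟩
    | mul x y _ _ hx hy =>
      obtain ⟨a, a1, a2, a3, a4⟩ := hx
      obtain ⟨b, b1, b2, b3, b4⟩ := hy
      exact ⟨fun t => a t * b t, a1.mul b1, by simp [a2, b2], by simp [a3, b3],
        fun t => N.mul_mem (a4 t) (b4 t)⟩
    | inv x _ hx =>
      obtain ⟨a, a1, a2, a3, a4⟩ := hx
      exact ⟨fun t => (a t)⁻¹, a1.inv, by simp [a2], by simp [a3], fun t => N.inv_mem (a4 t)⟩
  have hcl : ∀ k, IsClosed ((N ⊓ P k : Subgroup G) : Set G) := fun k => hN.inter (hPc k)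
  have hcon : ∀ k, IsPreconnected ((N ⊓ P k : Subgroup G) : Set G) := by
    intro k
    induction k with
    | zero =>
      rw [inf_eq_left.2 hle]
      refine isPreconnected_of_forall 1 fun g hg => ?_
      obtain ⟨a, a1, a2, a3, a4⟩ := hpath g hg
      exact ⟨Set.range a, by rintro _ ⟨t, rfl⟩; exact a4 t, ⟨0, a2⟩, ⟨1, a3⟩,
        isPreconnected_range a1⟩
    | succ k ih =>
      let 𝔰 := h.lie _ (hcl k)
      have h𝔰 : ∀ X : 𝔰, φ X ∈ T (k + 1) := fun X => hder _ _ fun t => (hP k _).1 (X.2 t).2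
      let f : 𝔰 →ₗ[ℝ] A ⧸ T (k + 2) := (T (k + 2)).mkQ ∘ₗ φ.toLinearMap ∘ₗ 𝔰.subtype
      obtain ⟨s, hs⟩ := exists_genInv f
      obtain ⟨Q, hQ⟩ := hT.exists_sub ρ hG k (T (k + 1) ⊓ f.range.comap (T (k + 2)).mkQ)
        (le_inf (hT.anti (by omega)) fun a ha => by
          rw [Submodule.mem_comap, Submodule.mkQ_apply, (Submodule.Quotient.mk_eq_zero _).2 ha]
          exact Submodule.zero_mem _) inf_le_left
      have hNQ : N ⊓ P k ≤ Q := h.le_of_preconnected (hcl k) ih fun X hX => by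
        rw [hQ, hφ]
        refine ⟨hT.exp_sub_one (h𝔰 ⟨X, hX⟩), ⟨X, hX⟩, ?_⟩
        exact ((Submodule.Quotient.eq _).2 (hT.exp_sub (h𝔰 ⟨X, hX⟩))).symm
      let r : G → 𝔰 := fun g => s ((T (k + 2)).mkQ ((ρ g : A) - 1))
      have hr : Continuous r := (s ∘ₗ (T (k + 2)).mkQ).continuous_of_finiteDimensional.comp hc
      have := ih.image (fun g => g * e (-(r g : E)))
        (continuous_id.mul (h.cont.comp (continuous_subtype_val.comp hr).neg)).continuousOn
      convert this using 1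
      refine Set.Subset.antisymm (fun g hg => ⟨g, ⟨hg.1, (hP k g).2 (hT.anti (by omega)
        ((hP _ g).1 hg.2))⟩, ?_⟩) ?_
      · have : r g = 0 := by
          simp only [r]
          rw [Submodule.mkQ_apply, (Submodule.Quotient.mk_eq_zero _).2 ((hP _ g).1 hg.2), map_zero]
        simp [this, h.e_zero]
      · rintro _ ⟨g, hg, rfl⟩
        refine ⟨N.mul_mem hg.1 (h.e_mem (-(r g)).2).1, (hP _ _).2 ?_⟩
        obtain ⟨h1, X, hX⟩ := (hQ g).1 (hNQ hg)
        have h2 : (ρ g : A) - 1 - φ (r g) ∈ T (k + 2) := by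
          refine (Submodule.Quotient.eq _).1 ?_
          have := hs X
          rw [hX] at this
          exact this.symm
        have h3 := h𝔰 (-(r g))
        have := (T _).add_mem ((T _).add_mem (hT.mul' h1 (hT.exp_sub_one h3)) h2) (hT.exp_sub h3)
        convert this using 1
        rw [map_mul, Units.val_mul, hφ, Submodule.coe_neg, map_neg]
        noncomm_ring
  refine ⟨N, hnorm, hN, fun X => ⟨fun hX => hder _ X fun t => (hP 0 _).1 (hle (hX t)),
    fun hX t => heN X t hX⟩, eq_bot_iff.2 ?_⟩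
  obtain ⟨n, hn⟩ := hT.bot
  refine le_trans (inf_le_inf le_rfl (fun g hg => ?_ : ρ.ker ≤ P n))
    (h.le_of_preconnected (hcl n) (hcon n) fun X hX => ?_)
  · rw [hP, MonoidHom.mem_ker.1 hg]
    simp
  · have := hT.anti (Nat.le_succ n) (hder _ X fun t => (hP n _).1 (hX t).2)
    rw [hn, Submodule.mem_bot] at this
    rw [hinj X this, h.e_zero]
    exact Subgroup.one_mem _

end Filt

variable {E : Type} [NormedAddCommGroup E] [NormedSpace ℝ E] {G : Type u} [Group G]
  {e : E → G} {l : G → E} [TopologicalSpace G] [IsTopologicalGroup G] [FiniteDimensional ℝ E]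
  [T2Space G]

omit [T2Space G] in
theorem IsE.exists_faithful (h : IsE e l) (hK : h.lie (KO G) (isClosed_KO G) = ⊥) :
    ∃ (ι : Type) (_ : Fintype ι) (_ : DecidableEq ι) (ρ : G →* GL ι ℂ), Continuous ρ ∧
      ∀ X, (∀ t : ℝ, ρ (e (t • X)) = 1) → X = 0 := by
  have hker : ∀ {ι : Type} [Fintype ι] [DecidableEq ι] (ρ : G →* GL ι ℂ), Continuous ρ →
      IsClosed (ρ.ker : Set G) := fun ρ hρ => isClosed_singleton.preimage hρ
  obtain ⟨M, ⟨ι, _, _, ρ, hρ, rfl⟩, hM⟩ := wellFounded_lt.has_min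
    {M : Submodule ℝ E | ∃ (ι : Type) (_ : Fintype ι) (_ : DecidableEq ι) (ρ : G →* GL ι ℂ)
      (hρ : Continuous ρ), M = h.lie ρ.ker (hker ρ hρ)}
    ⟨_, Unit, inferInstance, inferInstance, 1, continuous_const, rfl⟩
  refine ⟨ι, _, _, ρ, hρ, fun X hX => ?_⟩
  rw [← Submodule.mem_bot ℝ, ← hK]
  intro t
  simp only [KO, Subgroup.mem_iInf, MonoidHom.mem_ker]
  intro n ρ'
  by_contra hne
  let B : G →* Matrix (ι ⊕ Fin n) (ι ⊕ Fin n) ℂ :=
    { toFun := fun g => fromBlocks (ρ g : Matrix ι ι ℂ) 0 0 (ρ' g : Matrix (Fin n) (Fin n) ℂ)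
      map_one' := by simp
      map_mul' := fun a b => by simp [fromBlocks_multiply] }
  have hB : Continuous B := (Units.continuous_val.comp hρ).matrix_fromBlocks continuous_const
    continuous_const (Units.continuous_val.comp ρ'.continuous)
  have hB' : Continuous B.toHomUnits :=
    Units.continuous_iff.2 ⟨hB, hB.comp continuous_inv⟩
  have hk : ∀ g, B.toHomUnits g = 1 → ρ g = 1 ∧ ρ' g = 1 := fun g hg => by
    have := congrArg Units.val hg
    rw [Units.val_one, ← fromBlocks_one] at this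
    obtain ⟨a, -, -, b⟩ := fromBlocks_inj.1 this
    exact ⟨Units.ext a, Units.ext b⟩
  exact hM _ ⟨_, _, _, _, hB', rfl⟩ (lt_of_le_not_ge (fun Y hY t => (hk _ (hY t)).1)
    fun hle => hne (hk _ (hle hX t)).2)

variable [LieBr E] {q : Type} [LieRing q] [LieAlgebra ℝ q]

omit [T2Space G] in
theorem IsL.descend (h : IsL e l) (N : Subgroup G) [N.Normal] (hN : IsClosed (N : Set G))
    (π : E →ₗ⁅ℝ⁆ q) (hπ : ∀ X ∈ h.toIsE.lie N hN, π X = 0) :
    ∃ (E' : Type) (_ : NormedAddCommGroup E') (_ : NormedSpace ℝ E') (_ : FiniteDimensional ℝ E')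
      (_ : LieBr E') (e' : E' → G ⧸ N) (l' : G ⧸ N → E') (p : E →ₗ⁅ℝ⁆ E') (π' : E' →ₗ⁅ℝ⁆ q),
      IsL e' l' ∧ Function.Surjective p ∧ (∀ X, p X = 0 ↔ X ∈ h.toIsE.lie N hN) ∧
      (∀ X, (e X : G ⧸ N) = e' (p X)) ∧ ∀ X, π' (p X) = π X := by
  obtain ⟨E', _, _, _, e', l', p, h', hp, hk, he⟩ := h.toIsE.exists_quot N hN
  obtain ⟨_, h''⟩ := h'.exists_isL
  have hl := h.deriv_lie h'' (QuotientGroup.mk' N) p he
  obtain ⟨r, hr⟩ := p.toLinearMap.exists_rightInverse_of_surjective (LinearMap.range_eq_top.2 hp)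
  have key : ∀ X, π (r (p X)) = π X := fun X => by
    rw [← sub_eq_zero, ← map_sub]
    refine hπ _ ((hk _).1 ?_)
    rw [map_sub, sub_eq_zero]
    exact LinearMap.congr_fun hr (p X)
  refine ⟨E', _, _, inferInstance, _, e', l', toLie p.toLinearMap hl,
    toLie (π.toLinearMap ∘ₗ r) fun X Y => ?_, h'', hp, hk, he, key⟩
  obtain ⟨X, rfl⟩ := hp X
  obtain ⟨Y, rfl⟩ := hp Y
  show π (r ⁅p X, p Y⁆) = ⁅π (r (p X)), π (r (p Y))⁆
  rw [← hl, key, key, key, LieHom.map_lie]

omit [T2Space G] [IsTopologicalGroup G] in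
theorem mem_KO_of_mk (N : Subgroup G) [N.Normal] (hN : N ≤ KO G) {g : G}
    (hg : (g : G ⧸ N) ∈ KO (G ⧸ N)) : g ∈ KO G := by
  simp only [KO, Subgroup.mem_iInf, MonoidHom.mem_ker]
  intro n ρ
  have h1 := hN.trans (KO_le_ker ρ.toMonoidHom ρ.continuous)
  exact KO_le_ker (QuotientGroup.lift N ρ.toMonoidHom h1)
    ((QuotientGroup.isQuotientMap_mk N).continuous_iff.2 ρ.continuous) hg

variable [FiniteDimensional ℝ q] [LieAlgebra.IsKilling ℝ q]

theorem IsL.KO_eq_bot [ConnectedSpace G] (h : IsL e l) (π : E →ₗ⁅ℝ⁆ q) (σ : q →ₗ⁅ℝ⁆ E)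
    (hσ : ∀ x, π (σ x) = x) [LieAlgebra.IsSolvable π.ker] (hW : ∀ c ∈ Wd q, wv e σ c = 1)
    (hK : h.toIsE.lie (KO G) (isClosed_KO G) = ⊥) : KO G = ⊥ := by
  obtain ⟨ι, _, _, ρ, hρ, hf⟩ := h.toIsE.exists_faithful hK
  obtain ⟨φ, h1, h2⟩ := h.exists_rep ρ hρ
  have hinj : ∀ X, φ X = 0 → X = 0 := fun X hX => hf X fun t => Units.ext (by simp [h1, hX])
  obtain ⟨U, u0, ⟨n, un⟩, um, u1, u2⟩ := exists_flag (g := E) ⟨ι, φ.toLinearMap, h2⟩ π.ker
  let T : ℕ → Submodule ℝ (Matrix ι ι ℂ) := fun k =>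
    { carrier := {a | ∀ i, ∀ v ∈ U i, a *ᵥ v ∈ U (i - k)}
      add_mem' := fun ha hb i v hv => by
        rw [add_mulVec]; exact (U _).add_mem (ha i v hv) (hb i v hv)
      zero_mem' := fun i v _ => by rw [zero_mulVec]; exact (U _).zero_mem
      smul_mem' := fun c a ha i v hv => by
        rw [smul_mulVec]; exact (U _).smul_of_tower_mem c (ha i v hv) }
  have hT : Filt T :=
    { one := fun i v hv => by rw [one_mulVec]; exact hv
      mul := fun {i j a b} ha hb k v hv => by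
        have := ha _ _ (hb k v hv)
        rwa [mulVec_mulVec, Nat.sub_sub, add_comm] at this
      anti := fun i j hij a ha k v hv => um (by omega) (ha k v hv)
      bot := ⟨n, eq_bot_iff.2 fun a ha => by
        refine (Submodule.mem_bot ℝ).2 (ext_of_mulVec_single fun i => ?_)
        have := ha n (Pi.single i 1) (un ▸ Submodule.mem_top)
        rw [Nat.sub_self, u0, Submodule.mem_bot] at this
        rw [this, zero_mulVec]⟩ }
  have h0 : ∀ X, φ X ∈ T 0 := fun X i v hv => u1 i X v hv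
  obtain ⟨N, _, hN, hl, hb⟩ := h.toIsE.exists_unip hT ρ hρ φ (fun X => by rw [h1]; rfl) h0 hinj
  let I : ℕ → LieIdeal ℝ E := fun k =>
    { toSubmodule := (T k).comap φ.toLinearMap
      lie_mem := fun {X Y} hY => by
        show φ ⁅X, Y⁆ ∈ T k
        rw [h2]
        exact (T k).sub_mem (hT.mul_left (h0 X) hY) (hT.mul hY (h0 X)) }
  have hI : ∀ k, LieAlgebra.derivedSeriesOfIdeal ℝ E k (I 1) ≤ I (k + 1) := by
    intro k
    induction k with
    | zero => exact le_rfl
    | succ k ih =>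
      rw [LieAlgebra.derivedSeriesOfIdeal_succ, LieSubmodule.lie_le_iff]
      intro X hX Y hY
      show φ ⁅X, Y⁆ ∈ T (k + 2)
      rw [h2]
      exact (T _).sub_mem (hT.mul' (ih hX) (ih hY)) (hT.mul' (ih hY) (ih hX))
  have : LieAlgebra.IsSolvable (I 1) := by
    obtain ⟨m, hm⟩ := hT.bot
    refine (LieAux.solvable_iff _).2 ⟨m, eq_bot_iff.2 fun X hX => ?_⟩
    have := hT.anti (Nat.le_succ m) (hI m hX)
    rw [hm, Submodule.mem_bot] at this
    exact (LieSubmodule.mem_bot _).2 (hinj X this)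
  obtain ⟨E', _, _, _, _, e', l', p, π', h', hp, hk, he, hπ⟩ := h.descend N hN π fun X hX =>
    map_solvable_eq_zero π (fun x => ⟨σ x, hσ x⟩) (I 1) X ((hl X).1 hX)
  have : ConnectedSpace (G ⧸ N) := (QuotientGroup.mk_surjective).connectedSpace
    QuotientGroup.continuous_mk
  have hq := h'.KO_eq_bot_of_central π' (p.comp σ) (fun x => (hπ _).trans (hσ x))
    (fun X Y hY => by
      obtain ⟨X, rfl⟩ := hp X
      obtain ⟨Y, rfl⟩ := hp Y
      rw [← LieHom.map_lie, hk, hl]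
      rintro (_ | i) v hv
      · rw [u0, Submodule.mem_bot] at hv
        rw [hv, mulVec_zero]
        exact (U _).zero_mem
      · exact u2 i X Y (LieHom.mem_ker.2 ((hπ Y).symm.trans hY)) v hv)
    (fun c hc => by
      rw [← map_wv (QuotientGroup.mk' N) σ (p.comp σ) (fun x => he _), hW c hc, map_one])
  rw [eq_bot_iff, ← hb]
  refine le_inf (fun g hg => ?_) (KO_le_ker ρ hρ)
  have := map_KO (QuotientGroup.mk' N) QuotientGroup.continuous_mk hg
  rw [hq, Subgroup.mem_bot] at this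
  exact (QuotientGroup.eq_one_iff g).1 this

/-- `KO G` is topologically generated by its one-parameter subgroups and the universally trivial
words of a Levi factor -/
theorem IsL.KO_le [ConnectedSpace G] (h : IsL e l) (π : E →ₗ⁅ℝ⁆ q) (σ : q →ₗ⁅ℝ⁆ E)
    (hσ : ∀ x, π (σ x) = x) [LieAlgebra.IsSolvable π.ker] (C : Subgroup G)
    (hC : IsClosed (C : Set G)) (hW : ∀ c ∈ Wd q, wv e σ c ∈ C)
    (hK : ∀ X ∈ h.toIsE.lie (KO G) (isClosed_KO G), e X ∈ C) : KO G ≤ C := by
  let N := KO G ⊓ C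
  have hN : IsClosed (N : Set G) := (isClosed_KO G).inter hC
  have : N.Normal := ⟨fun n hn g => by
    rwa [Subgroup.mem_center_iff.1 (h.toIsE.KO_le_center hn.1) g, mul_inv_cancel_right]⟩
  obtain ⟨E', _, _, _, _, e', l', p, π', h', hp, hk, he, hπ⟩ := h.descend N hN π fun X hX => by
    refine LieAux.eq_zero_of_central fun y => ?_
    rw [← hσ y, ← LieHom.map_lie]
    have := deriv_mem ⊥ ((hasDerivAt_exp_zero' (LieBr.ad X)).clm_apply
      (hasDerivAt_const (0 : ℝ) (σ y))) fun t => by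
        have : exp (LieBr.ad (t • X)) (σ y) = σ y := h.toIsE.ext fun s => by
          rw [← map_smul, ← h.conj, ← Subgroup.mem_center_iff.1 (h.toIsE.KO_le_center (hX t).1),
            mul_inv_cancel_right]
        rw [← map_smul, this]
        simp
    simp only [map_zero, add_zero, Submodule.mem_bot] at this
    rw [← LieBr.ad_apply, this, map_zero]
  have : ConnectedSpace (G ⧸ N) := (QuotientGroup.mk_surjective).connectedSpace
    QuotientGroup.continuous_mk
  have : LieAlgebra.IsSolvable π'.ker := by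
    obtain ⟨k, hk⟩ := (LieAux.solvable_iff π.ker).1 inferInstance
    have h1 : π'.ker ≤ π.ker.map p := fun X hX => by
      obtain ⟨X, rfl⟩ := hp X
      exact LieIdeal.mem_map (LieHom.mem_ker.2 ((hπ X).symm.trans (LieHom.mem_ker.1 hX)))
    refine (LieAux.solvable_iff _).2 ⟨k, eq_bot_iff.2
      ((LieAlgebra.derivedSeriesOfIdeal_mono h1 k).trans ?_)⟩
    rw [← LieAux.map_derived p hp, hk]
    exact (LieIdeal.map_eq_bot_iff.2 bot_le).le
  have hq := h'.KO_eq_bot π' (p.comp σ) (fun x => (hπ _).trans (hσ x))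
    (fun c hc => by
      rw [← map_wv (QuotientGroup.mk' N) σ (p.comp σ) (fun x => he _)]
      exact (QuotientGroup.eq_one_iff _).2 ⟨h.wv_mem_KO σ hc, hW c hc⟩)
    (eq_bot_iff.2 fun X hX => by
      obtain ⟨X, rfl⟩ := hp X
      have h1 : X ∈ h.toIsE.lie (KO G) (isClosed_KO G) := fun t =>
        mem_KO_of_mk N inf_le_left (by rw [he, map_smul]; exact hX t)
      exact (hk X).2 fun t => ⟨h1 t, hK _ (Submodule.smul_mem _ t h1)⟩)
  intro g hg
  have := map_KO (QuotientGroup.mk' N) QuotientGroup.continuous_mk hg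
  rw [hq, Subgroup.mem_bot] at this
  exact ((QuotientGroup.eq_one_iff g).1 this).2

end Pool.Agent.MP_c15733_al.H87
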