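import Pool.Agent.MP_c15733_al.H87.Base

namespace Pool.Agent.MP_c15733_al.H87

open Filter Topology NormedSpace Matrix

universe u

attribute [local instance 100] LieRing.ofAssociativeRing

namespace Smooth

open Set

variable {E : Type} [NormedAddCommGroup E] [NormedSpace ℝ E]
  {G : Type u} [Group G] [TopologicalSpace G] {e : E → G} {l : G → E}

theorem slope_bound {f : ℝ → E} {K : ℝ} (hf : ContinuousOn f (Icc 0 1)) (h0 : f 0 = 0)
    (hK : ∀ s ∈ Ico (0 : ℝ) 1, ∀ r, K < r → ∀ᶠ z in 𝓝[>] s, ‖f z - f s‖ ≤ r * (z - s)) :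
    ‖f 1‖ ≤ K := by
  have h := image_le_of_liminf_slope_right_le_deriv_boundary (f := fun x => ‖f x‖) (a := 0) (b := 1)
    hf.norm (B := fun x => K * x) (B' := fun _ => K) (by simp [h0]) (by fun_prop)
    (fun x _ => by simpa using ((hasDerivAt_id x).const_mul K).hasDerivWithinAt)
    (fun x hx r hr => by
      obtain ⟨r', h1, h2⟩ := exists_between hr
      refine ((hK x hx r' h1).and self_mem_nhdsWithin).frequently.mono fun z ⟨hz, hz'⟩ => ?_
      have hz'' : 0 < z - x := sub_pos.2 hz'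
      rw [slope_def_field, div_lt_iff₀ hz'']
      have := norm_sub_norm_le (f z) (f x)
      nlinarith)
  simpa using h (x := 1) (by simp)

/-- the block operator whose exponential computes the integral of an exponential -/
noncomputable def blk (A : E →L[ℝ] E) : (E × E) →L[ℝ] (E × E) :=
  (ContinuousLinearMap.inl ℝ E E).comp
    ((-A).comp (ContinuousLinearMap.fst ℝ E E) + ContinuousLinearMap.snd ℝ E E)

/-- the integral of `exp (-σ A)` from `0` to `s` -/
noncomputable def P (s : ℝ) (A : E →L[ℝ] E) : E →L[ℝ] E :=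
  (ContinuousLinearMap.fst ℝ E E).comp ((exp (s • blk A)).comp (ContinuousLinearMap.inr ℝ E E))

section Fin

variable [FiniteDimensional ℝ E]

theorem P_zero (A : E →L[ℝ] E) (V : E) : P 0 A V = 0 := by simp [P]

theorem P_deriv (A : E →L[ℝ] E) (V : E) (s : ℝ) :
    HasDerivAt (fun s => P s A V) (exp (s • -A) V) s := by
  have h1 := (hasDerivAt_exp_smul_const (𝕂 := ℝ) (blk A) s).clm_apply
    (hasDerivAt_const s ((0, V) : E × E))
  have h2 := (ContinuousLinearMap.fst ℝ E E).hasFDerivAt.comp_hasDerivAt s h1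
  have h3 := map_exp_eq (a := s • blk A) (b := s • -A)
    ((ContinuousLinearMap.fst ℝ E E).comp (ContinuousLinearMap.apply ℝ (E × E) ((V, 0) : E × E)))
    (ContinuousLinearMap.apply ℝ E V) (fun n => by
      have : ((s • blk A) ^ n) (V, 0) = (((s • -A) ^ n) V, 0) := by
        induction n with
        | zero => simp
        | succ n ih =>
          rw [pow_succ', pow_succ', ContinuousLinearMap.mul_apply, ih]
          simp [blk]
      simp [this])
  refine h2.congr_deriv ?_
  simpa [blk] using h3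

theorem P_smooth : ContDiff ℝ ((⊤ : ℕ∞) : WithTop ℕ∞) (fun A : E →L[ℝ] E => P 1 A) := by
  have h1 : ContDiff ℝ ((⊤ : ℕ∞) : WithTop ℕ∞) (fun A : E →L[ℝ] E => blk A) :=
    contDiff_const.clm_comp ((contDiff_id.neg.clm_comp contDiff_const).add contDiff_const)
  have h2 : ContDiff ℝ ((⊤ : ℕ∞) : WithTop ℕ∞)
      (exp : ((E × E) →L[ℝ] (E × E)) → ((E × E) →L[ℝ] (E × E))) :=
    contDiff_iff_contDiffAt.2 fun x => (exp_analytic (𝕂 := ℝ) x).contDiffAt
  simp only [P, one_smul]
  exact contDiff_const.clm_comp ((h2.comp h1).clm_comp contDiff_const)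

end Fin

/-- multiplication in the exponential chart -/
def mm (e : E → G) (l : G → E) (p : E × E) : E := l (e p.1 * e p.2)

section Basic


theorem e_zero (h : IsE e l) : e 0 = 1 := by
  have := h.add 0 0 0
  simpa using this

theorem e_neg (h : IsE e l) (X : E) : e (-X) = (e X)⁻¹ := by
  have := h.add X (-1) 1
  simp only [neg_add_cancel, zero_smul, e_zero h, neg_smul, one_smul] at this
  exact eq_inv_of_mul_eq_one_left this.symm

theorem l_one (h : IsE e l) : l 1 = 0 := by
  have := h.le.self_of_nhds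
  rwa [e_zero h] at this

theorem mm_zero (h : IsE e l) : mm e l 0 = 0 := by
  simp [mm, e_zero h, l_one h]

theorem e_tend (h : IsE e l) : Tendsto e (𝓝 0) (𝓝 1) := by
  simpa [e_zero h] using h.cont.tendsto 0

theorem mul_tend [IsTopologicalGroup G] (h : IsE e l) : Tendsto (fun p : E × E => e p.1 * e p.2) (𝓝 0) (𝓝 1) := by
  have : Continuous fun p : E × E => e p.1 * e p.2 :=
    (h.cont.comp continuous_fst).mul (h.cont.comp continuous_snd)
  simpa [e_zero h] using this.tendsto 0

theorem mm_cont (h : IsE e l) : ∀ᶠ p in 𝓝 (0 : E × E), ContinuousAt (mm e l) p := by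
  obtain ⟨K, s, hs, hK⟩ := h.strict.exists_lipschitzOnWith
  filter_upwards [eventually_mem_nhds_iff.2 hs] with p hp
  exact hK.continuousOn.continuousAt hp

theorem l_cont [IsTopologicalGroup G] (h : IsE e l) : ∀ᶠ g in 𝓝 (1 : G), ContinuousAt l g := by
  have h1 : Tendsto (fun g => (l g, (0 : E))) (𝓝 (1 : G)) (𝓝 0) :=
    h.tend.prodMk_nhds tendsto_const_nhds
  filter_upwards [h1.eventually (mm_cont h), h.el] with g hg hg'
  have h2 : Tendsto (fun x => g⁻¹ * x) (𝓝 g) (𝓝 1) := by
    simpa using (continuous_mul_left g⁻¹).tendsto g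
  have h3 : Tendsto (fun x => (l g, l (g⁻¹ * x))) (𝓝 g) (𝓝 (l g, 0)) :=
    tendsto_const_nhds.prodMk_nhds (h.tend.comp h2)
  have h4 := hg.tendsto.comp h3
  have h5 : mm e l (l g, 0) = l g := by simp [mm, e_zero h, hg']
  rw [h5] at h4
  refine h4.congr' ?_
  filter_upwards [h2.eventually h.el] with x hx
  simp [mm, hx, hg']

theorem mm_small (h : IsE e l) {ε : ℝ} (hε : 0 < ε) :
    ∀ᶠ b in 𝓝 (0 : E), ∀ᶠ a in 𝓝 (0 : E), ‖mm e l (a, b) - a - b‖ ≤ ε * ‖a‖ := by
  have h1 := h.strict.isLittleO.def hε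
  have h2 : Tendsto (fun q : E × E => (((q.2, q.1), ((0 : E), q.1)) : (E × E) × (E × E)))
      (𝓝 (0, 0)) (𝓝 (0, 0)) := by
    have : Continuous (fun q : E × E => (((q.2, q.1), ((0 : E), q.1)) : (E × E) × (E × E))) := by
      fun_prop
    exact this.tendsto' _ _ rfl
  have h3 := h2.eventually h1
  rw [nhds_prod_eq] at h3
  filter_upwards [h3.curry, h.le] with b hb hb'
  filter_upwards [hb] with a ha
  simp only [e_zero h, one_mul, hb', Prod.mk_sub_mk, sub_zero, sub_self,
    ContinuousLinearMap.add_apply, ContinuousLinearMap.coe_fst', ContinuousLinearMap.coe_snd',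
    add_zero, Prod.norm_mk, norm_zero, norm_nonneg, sup_of_le_left] at ha
  rw [sub_right_comm]
  exact ha

end Basic

variable [FiniteDimensional ℝ E] [LieBr E] [IsTopologicalGroup G]

/-- the derivative of the exponential map -/
theorem dexp (h : IsL e l) (Z : E) :
    HasFDerivAt (fun V => l (e (-Z) * e V)) (P 1 (LieBr.ad Z)) Z := by
  have hE := h.toIsE
  rw [hasFDerivAt_iff_isLittleO_nhds_zero, Asymptotics.isLittleO_iff]
  intro c hc
  obtain ⟨C, hC⟩ := (isCompact_Icc (a := (0 : ℝ)) (b := 1)).exists_bound_of_continuousOn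
    (f := fun s : ℝ => exp (s • -(LieBr.ad Z : E →L[ℝ] E)))
    (exp_cont.comp (continuous_id.smul continuous_const)).continuousOn
  have hC0 : 0 ≤ C := (norm_nonneg _).trans (hC 0 (by simp))
  set ε := c / (C + 1) with hεd
  have hε : 0 < ε := by positivity
  have hεC : ε * C ≤ c := by
    rw [hεd, div_mul_eq_mul_div, div_le_iff₀ (by positivity)]
    nlinarith
  set u : E → ℝ → G := fun W s => e ((-s) • Z) * e (s • (Z + W)) with hu
  have huc : Continuous fun q : E × ℝ => u q.1 q.2 :=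
    (hE.cont.comp (by fun_prop)).mul (hE.cont.comp (by fun_prop))
  have hQ : ∀ᶠ g in 𝓝 (1 : G), e (l g) = g ∧ ContinuousAt l g ∧
      ∀ᶠ a in 𝓝 (0 : E), ‖mm e l (a, l g) - a - l g‖ ≤ ε * ‖a‖ :=
    hE.el.and ((l_cont hE).and (hE.tend.eventually (mm_small hE hε)))
  have hW := (isCompact_Icc (a := (0 : ℝ)) (b := 1)).eventually_forall_of_forall_eventually
    (x₀ := (0 : E)) (P := fun W s => e (l (u W s)) = u W s ∧ ContinuousAt l (u W s) ∧
      ∀ᶠ a in 𝓝 (0 : E), ‖mm e l (a, l (u W s)) - a - l (u W s)‖ ≤ ε * ‖a‖) (fun s _ => by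
      have h1 : Tendsto (fun q : E × ℝ => u q.1 q.2) (𝓝 (0, s)) (𝓝 1) :=
        huc.tendsto' _ _ (by simp [hu, e_neg hE])
      exact h1.eventually hQ)
  filter_upwards [hW] with W hW
  have key := slope_bound (f := fun s => l (u W s) - P s (LieBr.ad Z) W) (K := ε * (C * ‖W‖))
    (fun s hs => by
      refine ContinuousAt.continuousWithinAt (ContinuousAt.sub ?_ (P_deriv _ W s).continuousAt)
      exact ContinuousAt.comp (f := fun s => u W s) (hW s hs).2.1
        (huc.comp (continuous_const.prodMk continuous_id)).continuousAt)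
    (by simp [hu, e_zero hE, l_one hE, P_zero])
    (fun s hs r hr => by
      obtain ⟨h1, -, h3⟩ := hW s (Ico_subset_Icc_self hs)
      set T := exp (s • -(LieBr.ad Z : E →L[ℝ] E)) with hT
      have hγ : HasDerivAt (fun z : ℝ => ((-(z - s)) • Z, (z - s) • (Z + W))) (-Z, Z + W) s := by
        have a1 := (((hasDerivAt_id s).sub_const s).neg.smul_const Z).prodMk
          (((hasDerivAt_id s).sub_const s).smul_const (Z + W))
        simpa using a1
      have hγ0 : ((-(s - s)) • Z, (s - s) • (Z + W)) = (0 : E × E) := by simp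
      have hm : HasDerivAt (fun z : ℝ => mm e l ((-(z - s)) • Z, (z - s) • (Z + W))) W s := by
        have a1 : HasFDerivAt (mm e l) (ContinuousLinearMap.fst ℝ E E +
            ContinuousLinearMap.snd ℝ E E) ((-(s - s)) • Z, (s - s) • (Z + W)) := by
          rw [hγ0]; exact hE.strict.hasFDerivAt
        have a2 := a1.comp_hasDerivAt s hγ
        exact a2.congr_deriv (by simp)
      set a : ℝ → E := fun z => T (mm e l ((-(z - s)) • Z, (z - s) • (Z + W))) with ha
      have ha' : HasDerivAt a (T W) s := T.hasFDerivAt.comp_hasDerivAt s hm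
      have ha0 : a s = 0 := by simp only [ha, hγ0, mm_zero hE, map_zero]
      have hat : Tendsto a (𝓝 s) (𝓝 0) := ha0 ▸ ha'.continuousAt
      have hγt : Tendsto (fun z : ℝ => ((-(z - s)) • Z, (z - s) • (Z + W))) (𝓝 s) (𝓝 0) :=
        hγ0 ▸ hγ.continuousAt
      set δ := (r - ε * (C * ‖W‖)) / (ε + 1) with hδd
      have hδ : 0 < δ := div_pos (sub_pos.2 hr) (by positivity)
      have hδr : ε * (C * ‖W‖) + δ * (ε + 1) = r := by
        rw [hδd, div_mul_cancel₀ _ (by positivity)]; ring
      have b1 := ha'.isLittleO.def hδ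
      have b2 := (ha'.sub (P_deriv (LieBr.ad Z) W s)).isLittleO.def hδ
      have b3 := hat.eventually h3
      have b4 := (((mul_tend hE).comp hγt).eventually hE.el)
      have hTW : ‖T W‖ ≤ C * ‖W‖ :=
        (T.le_opNorm W).trans (mul_le_mul_of_nonneg_right (hC s (Ico_subset_Icc_self hs))
          (norm_nonneg _))
      filter_upwards [nhdsWithin_le_nhds b1, nhdsWithin_le_nhds b2, nhdsWithin_le_nhds b3,
        nhdsWithin_le_nhds b4, self_mem_nhdsWithin] with z c1 c2 c3 c4 hz
      have hz' : 0 < z - s := sub_pos.2 hz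
      have huz : l (u W z) = mm e l (a z, l (u W s)) := by
        have d1 : T = exp (LieBr.ad ((-s) • Z)) := by rw [hT, map_smul, neg_smul, smul_neg]
        have d2 := hE.add Z (-s) (-(z - s))
        have d3 := hE.add (Z + W) (z - s) s
        rw [show -s + -(z - s) = -z by ring] at d2
        rw [sub_add_cancel] at d3
        simp only [Function.comp_apply] at c4
        simp only [mm, h1, ha, d1, ← h.conj, c4]
        simp only [hu, d2, d3]
        congr 1
        group
      simp only [ha0, sub_zero, Real.norm_eq_abs, abs_of_pos hz', Pi.sub_apply, ← hT, sub_self,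
        smul_zero, zero_sub] at c1 c2
      have c5 : ‖a z‖ ≤ (C * ‖W‖ + δ) * (z - s) := by
        have := norm_add_le (a z - (z - s) • T W) ((z - s) • T W)
        rw [sub_add_cancel, norm_smul, Real.norm_eq_abs, abs_of_pos hz'] at this
        nlinarith
      have c6 := norm_add_le (mm e l (a z, l (u W s)) - a z - l (u W s))
        (a z - P z (LieBr.ad Z) W - -P s (LieBr.ad Z) W)
      rw [huz]
      calc _ = ‖mm e l (a z, l (u W s)) - a z - l (u W s) +
            (a z - P z (LieBr.ad Z) W - -P s (LieBr.ad Z) W)‖ := by congr 1; abel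
        _ ≤ ε * ((C * ‖W‖ + δ) * (z - s)) + δ * (z - s) :=
          c6.trans (add_le_add (c3.trans (mul_le_mul_of_nonneg_left c5 hε.le)) c2)
        _ = r * (z - s) := by rw [← hδr]; ring)
  simp only [hu, neg_smul, one_smul] at key
  simp only [e_neg hE, inv_mul_cancel, l_one hE, sub_zero] at key ⊢
  refine key.trans ?_
  rw [← mul_assoc]
  exact mul_le_mul_of_nonneg_right hεC (norm_nonneg _)

theorem P_one (h : IsL e l) : P 1 (LieBr.ad (0 : E)) = 1 := by
  have h1 := dexp h 0
  have h2 : HasFDerivAt (fun V => l (e (-0) * e V)) (1 : E →L[ℝ] E) (0 : E) := by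
    refine (hasFDerivAt_id (𝕜 := ℝ) (0 : E)).congr_of_eventuallyEq ?_
    filter_upwards [h.le] with V hV
    simp [e_zero h.toIsE, hV]
  exact h1.unique h2

/-- the derivative of left multiplication in the chart -/
theorem dleft (h : IsL e l) : ∀ᶠ Z in 𝓝 (0 : E), IsUnit (P 1 (LieBr.ad Z)) ∧
    HasFDerivAt (fun W => mm e l (Z, W)) (Ring.inverse (P 1 (LieBr.ad Z))) 0 := by
  have hE := h.toIsE
  have h1 : ∀ᶠ Z in 𝓝 (0 : E), IsUnit (P 1 (LieBr.ad Z)) := by
    have : Tendsto (fun Z : E => P 1 (LieBr.ad Z)) (𝓝 0) (𝓝 1) :=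
      (P_smooth.continuous.comp LieBr.ad.continuous).tendsto' _ _ (P_one h)
    exact this.eventually (Units.isOpen.mem_nhds isUnit_one)
  have h2 : Tendsto (fun Z : E => (Z, (0 : E))) (𝓝 0) (𝓝 0) :=
    (continuous_id.prodMk continuous_const).tendsto' _ _ rfl
  have h3 := (mul_tend hE).eventually hE.el
  filter_upwards [h1, h2.eventually (mm_cont hE), h2.eventually h3.eventually_nhds, hE.le]
    with Z hZ hc hm hl
  refine ⟨hZ, ?_⟩
  obtain ⟨v, hv⟩ := hZ
  have h4 : Tendsto (fun W : E => (Z, W)) (𝓝 0) (𝓝 (Z, 0)) :=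
    (continuous_const.prodMk continuous_id).tendsto' _ _ rfl
  have h5 : mm e l (Z, 0) = Z := by simp [mm, e_zero hE, hl]
  have h6 := HasFDerivAt.of_local_left_inverse (g := fun W => mm e l (Z, W))
    (f := fun V => l (e (-Z) * e V)) (f' := ContinuousLinearEquiv.unitsEquiv ℝ E v) (a := 0)
    (hc.tendsto.comp h4) (by
      rw [h5]
      have := dexp h Z
      rw [← hv] at this
      exact this) (by
      filter_upwards [h4.eventually hm, hE.le] with W a1 a2
      simp only [mm, a1, e_neg hE, inv_mul_cancel_left, a2])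
  rw [← hv, Ring.inverse_unit]
  exact h6

/-- the derivative of multiplication in the chart -/
noncomputable def DD (e : E → G) (l : G → E) (p : E × E) : (E × E) →L[ℝ] E :=
  (Ring.inverse (P 1 (LieBr.ad (mm e l p)))).comp
    (((exp (LieBr.ad (-p.2))).comp (P 1 (LieBr.ad p.1))).comp (ContinuousLinearMap.fst ℝ E E) +
      (P 1 (LieBr.ad p.2)).comp (ContinuousLinearMap.snd ℝ E E))

theorem dmul (h : IsL e l) : ∀ᶠ p in 𝓝 (0 : E × E), IsUnit (P 1 (LieBr.ad (mm e l p))) ∧
    HasFDerivAt (mm e l) (DD e l p) p := by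
  have hE := h.toIsE
  have h1 : Tendsto (mm e l) (𝓝 0) (𝓝 0) := hE.tend.comp (mul_tend hE)
  filter_upwards [h1.eventually (dleft h), (mul_tend hE).eventually hE.el] with p ⟨hu, hd⟩ hm
  refine ⟨hu, ?_⟩
  obtain ⟨X, Y⟩ := p
  set T := exp (LieBr.ad (-Y) : E →L[ℝ] E) with hT
  set k : E × E → E × E := fun q => (T (l (e (-X) * e q.1)), l (e (-Y) * e q.2)) with hk
  have a1 : HasFDerivAt k (((T.comp (P 1 (LieBr.ad X))).comp (ContinuousLinearMap.fst ℝ E E)).prod
      ((P 1 (LieBr.ad Y)).comp (ContinuousLinearMap.snd ℝ E E))) (X, Y) := by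
    have b1 := HasFDerivAt.comp (f := Prod.fst) ((X, Y) : E × E)
      (T.hasFDerivAt.comp X (dexp h X)) (ContinuousLinearMap.fst ℝ E E).hasFDerivAt
    have b2 := HasFDerivAt.comp (f := Prod.snd) ((X, Y) : E × E)
      (dexp h Y) (ContinuousLinearMap.snd ℝ E E).hasFDerivAt
    exact b1.prodMk b2
  have a2 : k (X, Y) = 0 := by simp [hk, e_neg hE, l_one hE]
  have a3 : HasFDerivAt (mm e l) (ContinuousLinearMap.fst ℝ E E + ContinuousLinearMap.snd ℝ E E)
      (k (X, Y)) := by rw [a2]; exact hE.strict.hasFDerivAt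
  have a4 := a3.comp (X, Y) a1
  have a5 : (mm e l ∘ k) (X, Y) = 0 := by simp [a2, mm_zero hE]
  rw [← a5] at hd
  have a6 := hd.comp (X, Y) a4
  have t1 : Tendsto (fun q : E × E => e (-X) * e q.1) (𝓝 (X, Y)) (𝓝 1) :=
    (continuous_const.mul (hE.cont.comp continuous_fst)).tendsto' _ _ (by simp [e_neg hE])
  have t2 : Tendsto (fun q : E × E => e (-Y) * e q.2) (𝓝 (X, Y)) (𝓝 1) :=
    (continuous_const.mul (hE.cont.comp continuous_snd)).tendsto' _ _ (by simp [e_neg hE])
  have t3 : Tendsto k (𝓝 (X, Y)) (𝓝 0) := a2 ▸ a1.continuousAt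
  refine (a6.congr_of_eventuallyEq ?_).congr_fderiv ?_
  · filter_upwards [t1.eventually hE.el, t2.eventually hE.el,
      ((mul_tend hE).comp t3).eventually hE.el] with q b1 b2 b3
    simp only [Function.comp_apply] at b3
    simp only [Function.comp_apply, mm, hm, b3]
    simp only [hk, hT, ← h.conj, b1, b2]
    simp only [e_neg hE]
    congr 1
    group
  · ext <;> simp [DD, hT]

theorem mm_smooth (h : IsL e l) :
    ∀ᶠ p in 𝓝 (0 : E × E), ContDiffAt ℝ ((⊤ : ℕ∞) : WithTop ℕ∞) (mm e l) p := by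
  obtain ⟨U, hU, hUo, hU0⟩ := eventually_nhds_iff.1 (dmul h)
  have h2 : ContDiff ℝ ((⊤ : ℕ∞) : WithTop ℕ∞) (exp : (E →L[ℝ] E) → (E →L[ℝ] E)) :=
    contDiff_iff_contDiffAt.2 fun x => (exp_analytic (𝕂 := ℝ) x).contDiffAt
  have h4 : ContDiff ℝ ((⊤ : ℕ∞) : WithTop ℕ∞) (fun Z : E => (LieBr.ad Z : E →L[ℝ] E)) :=
    ContinuousLinearMap.contDiff (E := E) (F := E →L[ℝ] E) LieBr.ad
  have h3 : ContDiff ℝ ((⊤ : ℕ∞) : WithTop ℕ∞) (fun Z : E => P 1 (LieBr.ad Z)) :=
    P_smooth.comp h4
  have key : ∀ n : ℕ, ContDiffOn ℝ n (mm e l) U := by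
    intro n
    induction n with
    | zero =>
      exact contDiffOn_zero.2 fun p hp => (hU p hp).2.continuousAt.continuousWithinAt
    | succ n ih =>
      rw [Nat.cast_succ, contDiffOn_succ_iff_fderiv_of_isOpen hUo]
      refine ⟨fun p hp => (hU p hp).2.differentiableAt.differentiableWithinAt, by simp, ?_⟩
      refine ContDiffOn.congr (f := DD e l) (fun p hp => ?_) fun p hp => (hU p hp).2.fderiv
      have hn : (n : WithTop ℕ∞) ≤ ((⊤ : ℕ∞) : WithTop ℕ∞) := by exact_mod_cast le_top
      obtain ⟨v, hv⟩ := (hU p hp).1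
      have b1 : ContDiffAt ℝ n Ring.inverse (P 1 (LieBr.ad (mm e l p))) :=
        hv ▸ contDiffAt_ringInverse ℝ v
      have b2 := b1.comp_contDiffWithinAt p
        ((h3.of_le hn).contDiffAt.comp_contDiffWithinAt p (ih p hp))
      refine b2.clm_comp (ContDiff.contDiffWithinAt (ContDiff.of_le ?_ hn))
      exact (((h2.comp (h4.comp contDiff_snd.neg)).clm_comp
        (h3.comp contDiff_fst)).clm_comp contDiff_const).add
        ((h3.comp contDiff_snd).clm_comp contDiff_const)
  filter_upwards [hUo.mem_nhds hU0] with p hp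
  exact (contDiffOn_infty.2 key).contDiffAt (hUo.mem_nhds hp)

/-- a good radius -/
structure Good (e : E → G) (l : G → E) (r : ℝ) : Prop where
  pos : 0 < r
  le : ∀ X, ‖X‖ < r → l (e X) = X
  cont : ∀ X, ‖X‖ < r → ContinuousAt l (e X)
  el : ∀ X, ‖X‖ < r → ∀ᶠ g in 𝓝 (e X), e (l g) = g
  smooth : ∀ X Y, ‖X‖ < r → ‖Y‖ < r → ContDiffAt ℝ ((⊤ : ℕ∞) : WithTop ℕ∞) (mm e l) (X, Y)

theorem exists_good (h : IsL e l) : ∃ r, Good e l r := by
  have hE := h.toIsE
  have h1 := hE.le.and ((e_tend hE).eventually ((l_cont hE).and hE.el.eventually_nhds))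
  have h2 := ((continuous_fst.tendsto' (0 : E × E) 0 rfl).eventually h1).and (mm_smooth h)
  obtain ⟨r, hr, h3⟩ := Metric.eventually_nhds_iff.1 h2
  have h4 : ∀ X Y : E, ‖X‖ < r → ‖Y‖ < r → dist ((X, Y) : E × E) 0 < r := fun X Y a b => by
    simp [a, b]
  have h5 : ‖(0 : E)‖ < r := by simpa using hr
  exact ⟨r, hr, fun X a => (h3 (h4 X 0 a h5)).1.1, fun X a => (h3 (h4 X 0 a h5)).1.2.1,
    fun X a => (h3 (h4 X 0 a h5)).1.2.2, fun X Y a b => (h3 (h4 X Y a b)).2⟩

variable {r : ℝ}

/-- the logarithm as a chart -/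
def logChart (h : IsE e l) (hr : Good e l r) : OpenPartialHomeomorph G E where
  toFun := l
  invFun := e
  source := e '' Metric.ball 0 r
  target := Metric.ball 0 r
  map_source' := by
    rintro _ ⟨X, hX, rfl⟩
    rwa [hr.le X (by simpa using hX)]
  map_target' X hX := ⟨X, hX, rfl⟩
  left_inv' := by
    rintro _ ⟨X, hX, rfl⟩
    rw [hr.le X (by simpa using hX)]
  right_inv' X hX := hr.le X (by simpa using hX)
  open_source := by
    rw [isOpen_iff_mem_nhds]
    rintro _ ⟨X, hX, rfl⟩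
    have hX' : ‖X‖ < r := by simpa using hX
    have h1 := (hr.cont X hX').tendsto
    rw [hr.le X hX'] at h1
    filter_upwards [h1.eventually (Metric.isOpen_ball.mem_nhds hX), hr.el X hX'] with g a b
    exact ⟨l g, a, b⟩
  open_target := Metric.isOpen_ball
  continuousOn_toFun := by
    rintro _ ⟨X, hX, rfl⟩
    exact (hr.cont X (by simpa using hX)).continuousWithinAt
  continuousOn_invFun := h.cont.continuousOn

/-- the chart at `g` -/
def chart (h : IsE e l) (hr : Good e l r) (g : G) : OpenPartialHomeomorph G E :=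
  (Homeomorph.mulLeft g⁻¹).toOpenPartialHomeomorph.trans (logChart h hr)

theorem chart_apply (h : IsE e l) (hr : Good e l r) (g x : G) : chart h hr g x = l (g⁻¹ * x) := rfl

theorem chart_symm (h : IsE e l) (hr : Good e l r) (g : G) (X : E) :
    (chart h hr g).symm X = g * e X := by
  simp [chart, logChart, Homeomorph.mulLeft_symm]

theorem chart_source (h : IsE e l) (hr : Good e l r) (g x : G) :
    x ∈ (chart h hr g).source ↔ ∃ X, ‖X‖ < r ∧ e X = g⁻¹ * x := by
  simp [chart, logChart]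

theorem chart_target (h : IsE e l) (hr : Good e l r) (g : G) (X : E) :
    X ∈ (chart h hr g).target ↔ ‖X‖ < r := by
  simp [chart, logChart]

/-- the atlas -/
@[reducible] def atl (h : IsE e l) (hr : Good e l r) : ChartedSpace E G where
  atlas := range (chart h hr)
  chartAt := chart h hr
  mem_chart_source g := (chart_source h hr g g).2 ⟨0, by simpa using hr.pos, by simp [e_zero h]⟩
  chart_mem_atlas g := ⟨g, rfl⟩

theorem trans_smooth (h : IsE e l) (hr : Good e l r) (g : G) {X0 X1 : E} (h0 : ‖X0‖ < r)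
    (h1 : ‖X1‖ < r) (h2 : e X1 = g * e X0) :
    ContDiffAt ℝ ((⊤ : ℕ∞) : WithTop ℕ∞) (fun X => l (g * e X)) X0 := by
  have a1 : ContDiffAt ℝ ((⊤ : ℕ∞) : WithTop ℕ∞) (fun X => mm e l (-X0, X)) X0 :=
    (hr.smooth (-X0) X0 (by simpa using h0) h0).comp X0 (contDiffAt_const.prodMk contDiffAt_id)
  have a2 : mm e l (-X0, X0) = 0 := by simp [mm, e_neg h, l_one h]
  have a3 := hr.smooth X1 0 h1 (by simpa using hr.pos)
  rw [← a2] at a3
  have a4 := a3.comp X0 (contDiffAt_const.prodMk a1)
  have t1 : Tendsto (fun X : E => e (-X0) * e X) (𝓝 X0) (𝓝 1) :=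
    (continuous_const.mul h.cont).tendsto' _ _ (by simp [e_neg h])
  refine a4.congr_of_eventuallyEq ?_
  filter_upwards [t1.eventually h.el] with X hX
  simp only [Function.comp_apply, mm, hX, h2]
  simp [e_neg h, mul_assoc]

end Smooth

variable {E : Type} [NormedAddCommGroup E] [NormedSpace ℝ E] [FiniteDimensional ℝ E] [LieBr E]
  {G : Type u} [Group G] [TopologicalSpace G] [IsTopologicalGroup G] [T2Space G]
  {e : E → G} {l : G → E}

/-- a group with an exponential chart is a Lie group -/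
theorem IsL.isLie (h : IsL e l)
    (hAd : ∀ g : G, ∃ A : E →L[ℝ] E, ∀ X, g * e X * g⁻¹ = e (A X)) : IsLie G := by
  have hE := h.toIsE
  obtain ⟨r, hr⟩ := Smooth.exists_good h
  letI := Smooth.atl hE hr
  have hc : ∀ g : G, chartAt E g = Smooth.chart hE hr g := fun _ => rfl
  have hM : IsManifold (modelWithCornersSelf ℝ E) ((⊤ : ℕ∞) : WithTop ℕ∞) G := by
    refine isManifold_of_contDiffOn _ _ _ ?_
    rintro _ _ ⟨g, rfl⟩ ⟨g', rfl⟩ X hX
    simp only [modelWithCornersSelf_coe_symm, Set.preimage_id_eq, id_eq,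
      OpenPartialHomeomorph.trans_source, OpenPartialHomeomorph.symm_source, Set.mem_inter_iff,
      Set.mem_preimage, Smooth.chart_target, Smooth.chart_symm, Smooth.chart_source] at hX
    obtain ⟨⟨h0, X1, h1, h2⟩, -⟩ := hX
    rw [← mul_assoc] at h2
    refine ContDiffAt.contDiffWithinAt ?_
    convert Smooth.trans_smooth hE hr (g'⁻¹ * g) h0 h1 h2 using 1
    ext Y
    simp [Smooth.chart_symm, Smooth.chart_apply, mul_assoc]
  refine ⟨inferInstance, E, inferInstance, inferInstance, inferInstance, Smooth.atl hE hr,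
    { contMDiff_mul := ?_, contMDiff_inv := ?_ }⟩
  · rintro ⟨g, g'⟩
    rw [contMDiffAt_iff]
    refine ⟨continuous_mul.continuousAt, ContDiffAt.contDiffWithinAt ?_⟩
    obtain ⟨A, hA⟩ := hAd g'⁻¹
    have h0 : ‖(0 : E)‖ < r := by simpa using hr.pos
    have a1 : ContDiffAt ℝ ((⊤ : ℕ∞) : WithTop ℕ∞) (Smooth.mm e l) (A (0 : E × E).1, (0 : E × E).2) := by
      simpa using hr.smooth 0 0 h0 h0
    have a2 := a1.comp (0 : E × E) ((A.contDiff.comp contDiff_fst).prodMk contDiff_snd).contDiffAt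
    rw [extChartAt_prod]
    convert a2 using 1
    · ext q
      simp [hc, Smooth.chart_symm, Smooth.chart_apply, Smooth.mm, ← hA, mul_assoc]
    · simp [hc, Smooth.chart_apply, Smooth.l_one hE]
  · intro g
    rw [contMDiffAt_iff]
    refine ⟨continuous_inv.continuousAt, ContDiffAt.contDiffWithinAt ?_⟩
    obtain ⟨A, hA⟩ := hAd g
    have h0 : extChartAt (modelWithCornersSelf ℝ E) g g = 0 := by
      simp [hc, Smooth.chart_apply, Smooth.l_one hE]
    rw [h0]
    have a1 : ContDiff ℝ ((⊤ : ℕ∞) : WithTop ℕ∞) fun X => A (-X) := A.contDiff.comp contDiff_neg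
    refine a1.contDiffAt.congr_of_eventuallyEq ?_
    filter_upwards [(a1.continuous.tendsto' 0 0 (by simp)).eventually hE.le] with X hX
    rw [← hX, ← hA, Smooth.e_neg hE]
    simp [hc, Smooth.chart_symm, Smooth.chart_apply, mul_assoc]

end Pool.Agent.MP_c15733_al.H87
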