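import Pool.Agent.MP_c15733_al.H87.Sys
import Pool.Agent.MP_c15733_al.H87.Smooth
import Pool.Agent.MP_c15733_al.H87.Chart

/-! The completion of `KO G / N` is `KO H` for the limit `H` of the quotients. -/

namespace Pool.Agent.MP_c15733_al.H87

open Filter Topology

universe u

section Sys

variable {G : Type u} [Group G] [TopologicalSpace G] [IsTopologicalGroup G] {J : Type u}
  [PartialOrder J] {L : J → Type u} [∀ j, Group (L j)] [∀ j, TopologicalSpace (L j)]
  [∀ j, IsTopologicalGroup (L j)] {f : ∀ i j, i ≤ j → L j →* L i} {p : ∀ j, G →* L j}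
  [∀ j, T2Space (L j)] [IsDirectedOrder J] [Nonempty J] [ConnectedSpace G] {E : J → Type}
  [∀ j, NormedAddCommGroup (E j)] [∀ j, NormedSpace ℝ (E j)] [∀ j, FiniteDimensional ℝ (E j)]
  {e : ∀ j, E j → L j} {l : ∀ j, L j → E j}

theorem Sys.main (S : Sys f p) (h : ∀ j, IsE (e j) (l j)) (N : Subgroup (KO G)) [N.Normal]
    (hN : IsClosed (N : Set (KO G))) :
    ∃ (H : Type u) (_ : Group H) (_ : TopologicalSpace H) (_ : IsTopologicalGroup H),
      ConnectedSpace H ∧ IsProLie H ∧ IsCompletion (KO G ⧸ N) (KO H) := by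
  have : ∀ j, ConnectedSpace (L j) := fun j => { (S.pd j).preconnectedSpace (S.pc j) with
    toNonempty := ⟨1⟩ }
  choose _ hL using fun j => (h j).exists_isL
  let M : ∀ j, Subgroup (L j) := fun j => (N.map ((p j).comp (KO G).subtype)).topologicalClosure
  have hMc : ∀ j, IsClosed (M j : Set (L j)) := fun j => Subgroup.isClosed_topologicalClosure _
  have hMK : ∀ j, M j ≤ KO (L j) := fun j => Subgroup.topologicalClosure_minimal _ (by
    rintro _ ⟨x, -, rfl⟩
    exact map_KO _ (S.pc j) x.2) (isClosed_KO _)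
  have : ∀ j, (M j).Normal := fun j => ⟨fun n hn g => by
    rwa [Subgroup.mem_center_iff.1 ((h j).KO_le_center (hMK j hn)) g, mul_inv_cancel_right]⟩
  have hMf : ∀ i j hij, M j ≤ (M i).comap (f i j hij) := fun i j hij =>
    Subgroup.topologicalClosure_minimal _ (by
      rintro _ ⟨x, hx, rfl⟩
      exact Subgroup.le_topologicalClosure _ ⟨x, hx, (S.fp _ _ _ _).symm⟩)
      ((hMc i).preimage (S.fc _ _ _))
  let F : ∀ i j, i ≤ j → L j ⧸ M j →* L i ⧸ M i := fun i j hij =>
    QuotientGroup.map _ _ (f i j hij) (hMf i j hij)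
  have hF : ∀ i j hij (x : L j), F i j hij x = (f i j hij x : L i ⧸ M i) := fun _ _ _ _ => rfl
  have hFc : ∀ i j hij, Continuous (F i j hij) := fun i j hij =>
    (QuotientGroup.isQuotientMap_mk _).continuous_iff.2
      (QuotientGroup.continuous_mk.comp (S.fc i j hij))
  have hlie : ∀ j, IsLie (L j ⧸ M j) ∧ LocallyCompactSpace (L j ⧸ M j) := fun j => by
    obtain ⟨E', _, _, _, e', l', -, h', -⟩ := (h j).exists_quot (M j) (hMc j)
    obtain ⟨_, h''⟩ := h'.exists_isL
    obtain ⟨Ad, -, hA⟩ := h'.exists_Ad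
    exact ⟨h''.isLie fun g => ⟨_, hA g⟩, h'.locallyCompact⟩
  have : ∀ j, LocallyCompactSpace (L j ⧸ M j) := fun j => (hlie j).2
  have hcomp := limit_complete (fun j => L j ⧸ M j) F hFc
  let Φ : G →* limit (fun j => L j ⧸ M j) F :=
    (MonoidHom.pi fun j => (QuotientGroup.mk' (M j)).comp (p j)).codRestrict _ fun x i j hij =>
      congrArg QuotientGroup.mk (S.fp i j hij x)
  have hΦ : ∀ x j, (Φ x).1 j = (p j x : L j ⧸ M j) := fun _ _ => rfl
  have hΦc : Continuous Φ :=
    (continuous_pi fun j => QuotientGroup.continuous_mk.comp (S.pc j)).subtype_mk _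
  have hπc : ∀ j, Continuous fun y : limit (fun j => L j ⧸ M j) F => y.1 j := fun j =>
    (continuous_apply j).comp continuous_subtype_val
  have hΦd : DenseRange Φ := fun y => mem_closure_iff_nhds.2 fun U hU => by
    obtain ⟨j, V, hV, hVU⟩ := limit_nhds _ F hFc y U hU
    obtain ⟨x, hx⟩ := ((QuotientGroup.mk_surjective (s := M j)).denseRange.comp (S.pd j)
      QuotientGroup.continuous_mk).mem_nhds hV
    exact ⟨Φ x, hVU _ hx, x, rfl⟩
  refine ⟨limit (fun j => L j ⧸ M j) F, inferInstance, inferInstance, inferInstance,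
    { hΦd.preconnectedSpace hΦc with toNonempty := ⟨1⟩ },
    ⟨hcomp, J, _, inferInstance, inferInstance, fun j => L j ⧸ M j, _, _, F, fun j => (hlie j).1,
      hFc, fun i x => ?_, fun i j k hij hjk x => ?_, ⟨ContinuousMulEquiv.refl _⟩⟩,
    inferInstance, hcomp.subgroup _ (isClosed_KO _), ?_⟩
  · obtain ⟨x, rfl⟩ := QuotientGroup.mk_surjective x
    rw [hF, S.id]
  · obtain ⟨x, rfl⟩ := QuotientGroup.mk_surjective x
    rw [hF, hF, hF, S.comp]
  let Ψ : KO G →* KO (limit (fun j => L j ⧸ M j) F) :=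
    (Φ.comp (KO G).subtype).codRestrict _ fun x => map_KO Φ hΦc x.2
  have hΨc : Continuous Ψ := (hΦc.comp continuous_subtype_val).subtype_mk _
  let ι := QuotientGroup.lift N Ψ fun x hx => Subtype.ext (Subtype.ext (funext fun j =>
    (QuotientGroup.eq_one_iff _).2 (Subgroup.le_topologicalClosure _ ⟨x, hx, rfl⟩)))
  have hι : IsInducing ι := by
    refine IsTopologicalGroup.isInducing_iff_nhds_one.2 (le_antisymm ?_ fun U hU => ?_)
    · have := (((QuotientGroup.isQuotientMap_mk N).continuous_iff (g := ι)).2 hΨc).tendsto 1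
      rw [map_one] at this
      exact this.le_comap
    · obtain ⟨W, hW, hWU⟩ := (mem_nhds_subtype _ _ _).1
        ((QuotientGroup.continuous_mk (N := N)).tendsto 1 hU)
      obtain ⟨j, V, hV, hVW⟩ := S.basis W hW
      obtain ⟨V', h1, h2, h3⟩ := mem_nhds_iff.1 hV
      refine mem_comap.2 ⟨(fun y => y.1.1 j) ⁻¹' (QuotientGroup.mk '' V'),
        ((hπc j).comp continuous_subtype_val).continuousAt.preimage_mem_nhds
          ((QuotientGroup.isOpenMap_coe _ h2).mem_nhds ⟨1, h3, rfl⟩), fun a ha => ?_⟩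
      obtain ⟨a, rfl⟩ := QuotientGroup.mk_surjective a
      obtain ⟨v, hv, hva⟩ := ha
      have h4 : (p j a)⁻¹ * v ∈ M j := QuotientGroup.eq.1 hva.symm
      obtain ⟨_, h5, n, hn, rfl⟩ := mem_closure_iff.1 h4 _
        (h2.preimage (continuous_const_mul (p j a))) (by simpa using hv)
      have h6 : a * n ∈ Subtype.val ⁻¹' W := hVW (h1 (by simpa using h5))
      have h7 := hWU h6
      rwa [Set.mem_preimage, QuotientGroup.mk_mul_of_mem a hn] at h7
  refine ⟨ι, ⟨hι, fun y => mem_closure_iff_nhds.2 fun U hU => ?_⟩, hι.injective⟩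
  obtain ⟨U', hU', hUU⟩ := (mem_nhds_subtype _ _ _).1 hU
  obtain ⟨i, V, hV, hVU⟩ := limit_nhds _ F hFc y.1 U' hU'
  obtain ⟨j, hij, hj⟩ := S.key hL i
  obtain ⟨g, hg⟩ := QuotientGroup.mk_surjective (y.1.1 j)
  have h1 : g ∈ KO (L j) := mem_KO_of_mk (M j) (hMK j) (hg ▸ map_KO
    ((Pi.evalMonoidHom _ j).comp (limit (fun j => L j ⧸ M j) F).subtype) (hπc j) y.2)
  rw [← y.1.2 i j hij, ← hg, hF] at hV
  obtain ⟨_, h2, x, hx, rfl⟩ := mem_closure_iff_nhds.1 (hj g h1) _
    (QuotientGroup.continuous_mk.continuousAt.preimage_mem_nhds hV)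
  exact ⟨Ψ ⟨x, hx⟩, hUU (hVU _ h2), (⟨x, hx⟩ : KO G), rfl⟩

end Sys

/-- completions are unique up to topological isomorphism -/
theorem IsCompletion.unique {A B C : Type u} [Group A] [TopologicalSpace A] [Group B]
    [TopologicalSpace B] [IsTopologicalGroup B] [Group C] [TopologicalSpace C]
    [IsTopologicalGroup C] (hB : IsCompletion A B) (hC : IsCompletion A C) :
    Nonempty (B ≃ₜ* C) := by
  obtain ⟨_, b, i, hi⟩ := hB
  obtain ⟨_, c, j, hj⟩ := hC
  obtain ⟨φ, h1, h2⟩ := Ext.extend c i hi.dense j (by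
    rw [← map_one i, ← hi.isInducing.nhds_eq_comap, ← map_one j]
    exact hj.continuous.tendsto 1)
  obtain ⟨ψ, h3, h4⟩ := Ext.extend b j hj.dense i (by
    rw [← map_one j, ← hj.isInducing.nhds_eq_comap, ← map_one i]
    exact hi.continuous.tendsto 1)
  exact ⟨{ φ.toMulEquiv ψ
      (MonoidHom.ext fun x => hi.dense.induction_on x (isClosed_eq (h3.comp h1) continuous_id)
        fun a => by simp [h2, h4])
      (MonoidHom.ext fun x => hj.dense.induction_on x (isClosed_eq (h1.comp h3) continuous_id)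
        fun a => by simp [h2, h4]) with
    continuous_toFun := h1
    continuous_invFun := h3 }⟩

theorem main {G : Type u} [Group G] [TopologicalSpace G] [IsTopologicalGroup G] [ConnectedSpace G]
    (hG : IsProLie G) (N : Subgroup (KO G)) (hN : IsClosed (N : Set (KO G))) :
    ∃ (_ : N.Normal) (H : Type u) (_ : Group H) (_ : TopologicalSpace H)
      (_ : IsTopologicalGroup H),
      ConnectedSpace H ∧ IsProLie H ∧ IsCompletion (KO G ⧸ N) (KO H) := by
  obtain ⟨-, J, _, _, _, L, _, _, f, hL, hf, -, -, ⟨φ⟩⟩ := hG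
  have := fun j => (hL j).isTopologicalGroup
  have := fun j => (hL j).1
  choose E _ _ _ e l h using fun j => (hL j).exists_isE
  let p : ∀ j, G →* L j := fun j =>
    ((Pi.evalMonoidHom _ j).comp (limit L f).subtype).comp φ.toMulEquiv.toMonoidHom
  have hp : ∀ j, Continuous (p j) := fun j =>
    ((continuous_apply j).comp continuous_subtype_val).comp φ.continuous
  have hfp : ∀ i j hij x, f i j hij (p j x) = p i x := fun i j hij x => (φ x).2 i j hij
  let S : ∀ j, Subgroup (L j) := fun j => (p j).range.topologicalClosure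
  have hS : ∀ j, IsClosed (S j : Set (L j)) := fun j => Subgroup.isClosed_topologicalClosure _
  have hSf : ∀ i j hij, S j ≤ (S i).comap (f i j hij) := fun i j hij =>
    Subgroup.topologicalClosure_minimal _ (by
      rintro _ ⟨x, rfl⟩
      exact Subgroup.le_topologicalClosure _ ⟨x, (hfp _ _ _ _).symm⟩)
      ((hS i).preimage (hf _ _ _))
  choose l' h' using fun j => (h j).exists_sub (S j) (hS j)
  let p' : ∀ j, G →* S j := fun j =>
    (p j).codRestrict _ fun x => Subgroup.le_topologicalClosure _ ⟨x, rfl⟩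
  have hp' : ∀ j, Continuous (p' j) := fun j => (hp j).subtype_mk _
  have hd : ∀ j, DenseRange (p' j) := fun j y => by
    rw [closure_subtype, ← Set.range_comp]
    exact y.2
  have hn : N.Normal := ⟨fun n hn g => by
    have : g * n = n * g := Subtype.ext (φ.injective (Subtype.ext (funext fun j => by
      have : ConnectedSpace (S j) := { (hd j).preconnectedSpace (hp' j) with toNonempty := ⟨1⟩ }
      have := Subgroup.mem_center_iff.1 ((h' j).KO_le_center (map_KO _ (hp' j) n.2)) (p' j g)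
      rw [← map_mul, ← map_mul] at this
      exact congrArg Subtype.val this)))
    rwa [this, mul_inv_cancel_right]⟩
  refine ⟨hn, Sys.main (L := fun j => S j)
    (f := fun i j hij => ((f i j hij).comp (S j).subtype).codRestrict _ fun x => hSf i j hij x.2)
    (p := p') ⟨fun i j hij => ((hf i j hij).comp continuous_subtype_val).subtype_mk _,
      hp', hd, fun i j hij x => Subtype.ext (hfp i j hij x),
      fun U hU => ?_, fun a ha => ?_⟩ h' N hN⟩
  · obtain ⟨j, V, hV, hVU⟩ := limit_nhds L f hf 1 (φ.symm ⁻¹' U)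
      (φ.symm.continuous.continuousAt.preimage_mem_nhds ((map_one φ.symm).symm ▸ hU : U ∈ 𝓝 (φ.symm 1)))
    refine ⟨j, Subtype.val ⁻¹' V, continuous_subtype_val.continuousAt.preimage_mem_nhds hV,
      fun x hx => ?_⟩
    simpa using hVU (φ x) hx
  · refine ⟨φ.symm ⟨fun j => a j, fun i j hij => congrArg Subtype.val (ha i j hij)⟩,
      fun j => Subtype.ext ?_⟩
    show (φ (φ.symm _)).1 j = _
    rw [φ.apply_symm_apply]

end Pool.Agent.MP_c15733_al.H87
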