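import Pool.Agent.MP_c15733_al.H87.FD2

/-! Canonical Levi sections along a projective system of connected Lie groups. -/

namespace Pool.Agent.MP_c15733_al.H87

open Filter Topology NormedSpace LieAlgebra

universe u v

section Good

variable {q : Type} [LieRing q] [LieAlgebra ℝ q] [FiniteDimensional ℝ q] [IsKilling ℝ q]
  {g : Type} [LieRing g] [LieAlgebra ℝ g] [FiniteDimensional ℝ g]

/-- the projection onto the semisimple quotient -/
def rmk (g : Type) [LieRing g] [LieAlgebra ℝ g] : g →ₗ⁅ℝ⁆ g ⧸ radical ℝ g :=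
  { toLinearMap := (LieSubmodule.Quotient.mk' (radical ℝ g)).toLinearMap
    map_lie' := fun {x y} => LieSubmodule.Quotient.mk_bracket _ x y }

omit [FiniteDimensional ℝ g] in
theorem rmk_surj : Function.Surjective (rmk g) := LieSubmodule.Quotient.surjective_mk' _

omit [FiniteDimensional ℝ g] in
theorem rmk_eq_zero {x : g} : rmk g x = 0 ↔ x ∈ radical ℝ g := LieSubmodule.Quotient.mk_eq_zero _

instance : IsSolvable (rmk g).ker := by
  have : (rmk g).ker = radical ℝ g := LieSubmodule.ext _ _ fun x => LieHom.mem_ker.trans rmk_eq_zero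
  rw [this]
  infer_instance

instance : IsKilling ℝ (g ⧸ radical ℝ g) := killing_quot_radical g

/-- a section that centralizes the kernel modulo the radical -/
def Good (θ : g →ₗ⁅ℝ⁆ q) (σ : q →ₗ⁅ℝ⁆ g) : Prop :=
  (∀ x, θ (σ x) = x) ∧ ∀ x y, θ y = 0 → ⁅σ x, y⁆ ∈ radical ℝ g

theorem exists_bar (θ : g →ₗ⁅ℝ⁆ q) (hθ : Function.Surjective θ) :
    ∃ θ' : (g ⧸ radical ℝ g) →ₗ⁅ℝ⁆ q, ∀ x, θ' (rmk g x) = θ x := by
  obtain ⟨s, hs⟩ := levi (rmk g) rmk_surj
  refine ⟨θ.comp s, fun x => ?_⟩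
  rw [LieHom.comp_apply, ← sub_eq_zero, ← map_sub]
  exact map_solvable_eq_zero θ hθ (radical ℝ g) _ (rmk_eq_zero.1 (by rw [map_sub, hs, sub_self]))

theorem exists_Good (θ : g →ₗ⁅ℝ⁆ q) (hθ : Function.Surjective θ) : ∃ σ, Good θ σ := by
  obtain ⟨θ', h⟩ := exists_bar θ hθ
  obtain ⟨s, hs⟩ := levi (rmk g) rmk_surj
  obtain ⟨τ, h1, h2⟩ := exists_good θ' fun x => by
    obtain ⟨y, rfl⟩ := hθ x
    exact ⟨_, h y⟩
  refine ⟨s.comp τ, fun x => ?_, fun x y hy => rmk_eq_zero.1 ?_⟩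
  · rw [← h, LieHom.comp_apply, hs, h1]
  · rw [LieHom.map_lie, LieHom.comp_apply, hs, h2 _ _ ((h y).trans hy)]

theorem Good.uniq {θ : g →ₗ⁅ℝ⁆ q} {σ σ' : q →ₗ⁅ℝ⁆ g} (h : Good θ σ) (h' : Good θ σ') (x : q) :
    σ' x - σ x ∈ radical ℝ g := by
  obtain ⟨θ', H⟩ := exists_bar θ fun x => ⟨_, h.1 x⟩
  refine rmk_eq_zero.1 (eq_zero_of_centralizes θ'.ker (LieHom.mem_ker.2 ?_) fun y hy => ?_)
  · rw [H, map_sub, h.1, h'.1, sub_self]
  · obtain ⟨y, rfl⟩ := rmk_surj y
    rw [LieHom.mem_ker, H] at hy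
    rw [← LieHom.map_lie, rmk_eq_zero, sub_lie]
    exact (radical ℝ g).sub_mem (h'.2 x y hy) (h.2 x y hy)

theorem Good.push {g' : Type} [LieRing g'] [LieAlgebra ℝ g'] [FiniteDimensional ℝ g']
    {θ : g →ₗ⁅ℝ⁆ q} {θ' : g' →ₗ⁅ℝ⁆ q} {σ : q →ₗ⁅ℝ⁆ g'} (d : g' →ₗ⁅ℝ⁆ g)
    (hd : Function.Surjective ((rmk g).comp d)) (hθ : ∀ y, θ (d y) = θ' y) (h : Good θ' σ) :
    Good θ (d.comp σ) := by
  have h1 : ∀ x, θ (d (σ x)) = x := fun x => (hθ _).trans (h.1 x)
  refine ⟨h1, fun x y hy => ?_⟩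
  obtain ⟨y', hy'⟩ := hd (rmk g y)
  have h2 : y - d y' ∈ radical ℝ g := rmk_eq_zero.1 (by rw [map_sub, ← hy']; exact sub_self _)
  have h3 := map_solvable_eq_zero θ (fun x => ⟨_, h1 x⟩) _ _ h2
  rw [map_sub, hy, hθ, zero_sub, neg_eq_zero] at h3
  have h4 := map_solvable_eq_zero _ hd _ _ (h.2 x y' h3)
  rw [LieHom.comp_apply, rmk_eq_zero, LieHom.map_lie] at h4
  have := (radical ℝ g).add_mem ((radical ℝ g).lie_mem (x := d (σ x)) h2) h4
  rwa [← lie_add, sub_add_cancel] at this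

end Good

section Dense

variable {E : Type} [NormedAddCommGroup E] [NormedSpace ℝ E] {G : Type u} [Group G]
  {e : E → G} {l : G → E} [TopologicalSpace G] [IsTopologicalGroup G] [FiniteDimensional ℝ E]
  [T2Space G] [LieBr E]
  {E' : Type} [NormedAddCommGroup E'] [NormedSpace ℝ E'] {G' : Type u} [Group G']
  {e' : E' → G'} {l' : G' → E'} [TopologicalSpace G'] [IsTopologicalGroup G']
  [FiniteDimensional ℝ E'] [T2Space G']

/-- the derivative of a homomorphism with dense image contains the derived algebra -/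
theorem IsL.bracket_mem [ConnectedSpace G'] (h : IsL e l) (h' : IsE e' l') (f : G' →* G)
    (hf : DenseRange f) (φ : E' →ₗ[ℝ] E) (hφ : ∀ X, f (e' X) = e (φ X)) (X Y : E) :
    ⁅X, Y⁆ ∈ φ.range := by
  obtain ⟨Ad, hc, hA⟩ := h.toIsE.exists_Ad
  obtain ⟨Ad', -, hA'⟩ := h'.exists_Ad
  have hc' : ∀ Y, Continuous fun g => (Ad g : E →L[ℝ] E) Y := fun Y =>
    (Units.continuous_val.comp hc).clm_apply continuous_const
  have hAe : ∀ X, (Ad (e X) : E →L[ℝ] E) = exp (LieBr.ad X) := fun X => h.Ad_e (hA (e X))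
  have hder : ∀ X Y : E, (∀ g, (Ad g : E →L[ℝ] E) Y - Y ∈ φ.range) → ⁅X, Y⁆ ∈ φ.range :=
    fun X Y H => by
      have := deriv_mem φ.range ((hasDerivAt_exp_zero' (LieBr.ad X)).clm_apply
        (hasDerivAt_const (0 : ℝ) Y)) fun t => by
          rw [← map_smul, ← hAe]
          simpa using H _
      simpa [LieBr.ad_apply] using this
  have h1 : ∀ g, ∀ Y ∈ φ.range, (Ad g : E →L[ℝ] E) Y ∈ φ.range := by
    rintro g _ ⟨Y, rfl⟩
    refine hf.induction_on g (φ.range.closed_of_finiteDimensional.preimage (hc' _)) fun g => ?_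
    refine ⟨(Ad' g : E' →L[ℝ] E') Y, h.toIsE.ext fun t => ?_⟩
    rw [← map_smul, ← map_smul, ← map_smul, ← map_smul, ← hφ, ← hA, ← hA', ← hφ, map_mul,
      map_mul, map_inv]
  have h2 : ∀ X, ∀ Y ∈ φ.range, ⁅X, Y⁆ ∈ φ.range := fun X Y hY =>
    hder X Y fun g => φ.range.sub_mem (h1 g Y hY) hY
  let S : Subgroup G :=
    { carrier := {g | ∀ Y, (Ad g : E →L[ℝ] E) Y - Y ∈ φ.range}
      mul_mem' := fun {a b} ha hb Y => by
        simpa using φ.range.add_mem (h1 a _ (hb Y)) (ha Y)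
      one_mem' := fun Y => by simp
      inv_mem' := fun {a} ha Y => by
        have := φ.range.neg_mem (h1 a⁻¹ _ (ha Y))
        rwa [map_sub, ← mul_apply_eq_comp, ← Units.val_mul, ← map_mul, inv_mul_cancel, map_one,
          Units.val_one, one_apply_eq_self, neg_sub] at this }
  have h3 : S.comap f = ⊤ := h'.eq_top _ fun Z Y => by
    rw [hφ, hAe]
    have hZ : ∀ Y : E, ⁅φ Z, Y⁆ ∈ φ.range := fun Y => by
      rw [← lie_skew]
      exact φ.range.neg_mem (h2 _ _ ⟨Z, rfl⟩)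
    have := map_exp_sub_mem (ContinuousLinearMap.apply ℝ E Y) φ.range (a := LieBr.ad (φ Z))
      fun n => by
        rw [pow_succ']
        exact hZ _
    simpa [LieBr.ad_apply] using φ.range.add_mem this (hZ Y)
  refine hder X Y fun g => hf.induction_on g
    (φ.range.closed_of_finiteDimensional.preimage ((hc' _).sub continuous_const)) fun g => ?_
  exact (h3 ▸ Subgroup.mem_top g : g ∈ S.comap f) Y

end Dense

section Sys

variable {G : Type u} [Group G] [TopologicalSpace G] [IsTopologicalGroup G] {J : Type u}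
  [PartialOrder J] {L : J → Type u} [∀ j, Group (L j)] [∀ j, TopologicalSpace (L j)]
  [∀ j, IsTopologicalGroup (L j)]

/-- `G` is the limit of the system `L`, with projections of dense image -/
structure Sys (f : ∀ i j, i ≤ j → L j →* L i) (p : ∀ j, G →* L j) : Prop where
  fc : ∀ i j h, Continuous (f i j h)
  pc : ∀ j, Continuous (p j)
  pd : ∀ j, DenseRange (p j)
  fp : ∀ i j h x, f i j h (p j x) = p i x
  basis : ∀ U ∈ 𝓝 (1 : G), ∃ j, ∃ V ∈ 𝓝 (1 : L j), p j ⁻¹' V ⊆ U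
  surj : ∀ a : ∀ j, L j, (∀ i j h, f i j h (a j) = a i) → ∃ x, ∀ j, p j x = a j

variable {f : ∀ i j, i ≤ j → L j →* L i} {p : ∀ j, G →* L j}

theorem Sys.mem_KO (S : Sys f p) {x : G} (hx : ∀ j, p j x ∈ KO (L j)) : x ∈ KO G := by
  simp only [KO, Subgroup.mem_iInf, MonoidHom.mem_ker]
  intro n ρ
  obtain ⟨j, ρ', h1, h2⟩ := factor_rep L p S.pd S.basis ρ.toMonoidHom ρ.continuous
  rw [← h2]
  exact KO_le_ker ρ' h1 (hx j)

variable [∀ j, T2Space (L j)]

omit [IsTopologicalGroup G] [∀ j, IsTopologicalGroup (L j)] in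
theorem Sys.id (S : Sys f p) (i : J) (x : L i) : f i i le_rfl x = x :=
  (S.pd i).induction_on x (isClosed_eq (S.fc _ _ _) continuous_id) (S.fp _ _ _)

omit [IsTopologicalGroup G] [∀ j, IsTopologicalGroup (L j)] in
theorem Sys.comp (S : Sys f p) {i j k : J} (hij : i ≤ j) (hjk : j ≤ k) (x : L k) :
    f i j hij (f j k hjk x) = f i k (hij.trans hjk) x :=
  (S.pd k).induction_on x (isClosed_eq ((S.fc _ _ _).comp (S.fc _ _ _)) (S.fc _ _ _)) fun x => by
    simp only [S.fp]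

variable [IsDirectedOrder J] [ConnectedSpace G] {E : J → Type} [∀ j, NormedAddCommGroup (E j)]
  [∀ j, NormedSpace ℝ (E j)] [∀ j, FiniteDimensional ℝ (E j)] [∀ j, LieBr (E j)]
  {e : ∀ j, E j → L j} {l : ∀ j, L j → E j}

/-- the key approximation property -/
theorem Sys.key (S : Sys f p) (h : ∀ j, IsL (e j) (l j)) (i : J) :
    ∃ (j : J) (hij : i ≤ j), ∀ g ∈ KO (L j),
      f i j hij g ∈ ((KO G).map (p i)).topologicalClosure := by
  have : ∀ j, ConnectedSpace (L j) := fun j => { (S.pd j).preconnectedSpace (S.pc j) with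
    toNonempty := ⟨1⟩ }
  choose φ hφ using fun i j hij => (h j).toIsE.exists_deriv (h i).toIsE (f i j hij) (S.fc i j hij)
  let d : ∀ i j, i ≤ j → E j →ₗ⁅ℝ⁆ E i := fun i j hij =>
    toLie (φ i j hij).toLinearMap ((h j).deriv_lie (h i) _ _ (hφ i j hij))
  have hd : ∀ i j hij X, f i j hij (e j X) = e i (d i j hij X) := hφ
  have did : ∀ i X, d i i le_rfl X = X := fun i X => (h i).toIsE.ext fun t => by
    rw [← map_smul, ← hd, S.id]
  have dcomp : ∀ i j k (hij : i ≤ j) (hjk : j ≤ k) X,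
      d i j hij (d j k hjk X) = d i k (hij.trans hjk) X := fun i j k hij hjk X =>
    (h i).toIsE.ext fun t => by
      rw [← map_smul, ← map_smul, ← map_smul, ← hd, ← hd, ← hd, S.comp]
  have dsurj : ∀ i j hij, Function.Surjective ((rmk (E i)).comp (d i j hij)) := fun i j hij z => by
    obtain ⟨_, ⟨y, rfl⟩, hy⟩ := surj_of_bracket (rmk (E i)) rmk_surj _
      ((h i).bracket_mem (h j).toIsE (f i j hij) (.of_comp (g := p j) (by
        convert S.pd i using 1
        exact funext (S.fp i j hij))) (d i j hij).toLinearMap (hd i j hij)) z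
    exact ⟨y, hy⟩
  let K : ∀ j, Submodule ℝ (E j) := fun j => (h j).toIsE.lie (KO (L j)) (isClosed_KO _)
  let dK : ∀ i j, i ≤ j → K j →ₗ[ℝ] K i := fun i j hij =>
    (d i j hij).toLinearMap.restrict fun X hX t => by
      have := map_KO _ (S.fc i j hij) (hX t)
      rwa [hd, map_smul] at this
  obtain ⟨j, hij, hj⟩ := lin_compact (fun j => K j) dK (fun i x => Subtype.ext (did i x))
    (fun i j k hij hjk x => Subtype.ext (dcomp i j k hij hjk x)) i
  refine ⟨j, hij, ?_⟩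
  choose σ hσ using fun k (hk : j ≤ k) => exists_Good _ (dsurj j k hk)
  have hσj : ∀ x, rmk (E j) (σ j le_rfl x) = x := fun x => by
    have := (hσ j le_rfl).1 x
    rwa [LieHom.comp_apply, did] at this
  refine (h j).KO_le (rmk (E j)) (σ j le_rfl) hσj
    (((KO G).map (p i)).topologicalClosure.comap (f i j hij))
    ((Subgroup.isClosed_topologicalClosure _).preimage (S.fc _ _ _)) (fun c hc => ?_)
    fun X hX => ?_
  · have hw : ∀ k (hk : j ≤ k) m (hkm : k ≤ m),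
        f k m hkm (wv (e m) (σ m (hk.trans hkm)) c) = wv (e k) (σ k hk) c := fun k hk m hkm => by
      rw [map_wv (f k m hkm) (σ m (hk.trans hkm)) ((d k m hkm).comp (σ m (hk.trans hkm)))
        fun x => hd _ _ _ _]
      refine (h k).wv_eq (radical ℝ (E k)) _ _ ((hσ k hk).uniq
        (Good.push (d k m hkm) (dsurj k m hkm) ?_ (hσ m (hk.trans hkm)))) hc
      exact fun y => congrArg (rmk (E j)) (dcomp j k m hk hkm y)
    choose m hm1 hm2 using fun k => exists_ge_ge j k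
    have ha : ∀ k n (h1 : j ≤ n) (h2 : k ≤ n), f k (m k) (hm2 k) (wv (e _) (σ _ (hm1 k)) c) =
        f k n h2 (wv (e n) (σ n h1) c) := fun k n h1 h2 => by
      obtain ⟨r, r1, r2⟩ := exists_ge_ge (m k) n
      rw [← hw _ (hm1 k) r r1, ← hw n h1 r r2, S.comp, S.comp]
    obtain ⟨x, hx⟩ := S.surj (fun k => f k (m k) (hm2 k) (wv (e _) (σ _ (hm1 k)) c))
      fun k n hkn => by rw [S.comp, ha k (m n) (hm1 n) (hkn.trans (hm2 n))]
    refine Subgroup.le_topologicalClosure _ ⟨x, S.mem_KO fun k => ?_, ?_⟩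
    · rw [hx]
      exact map_KO _ (S.fc _ _ _) ((h _).wv_mem_KO _ hc)
    · rw [hx, ha i j le_rfl hij]
  · obtain ⟨y, hy1, hy2⟩ := hj ⟨X, hX⟩
    obtain ⟨x, hx⟩ := S.surj (fun k => e k (y k)) fun k n hkn => by
      rw [hd, ← hy1 k n hkn]
      rfl
    refine Subgroup.le_topologicalClosure _ ⟨x, S.mem_KO fun k => ?_, ?_⟩
    · rw [hx]
      exact (h k).toIsE.e_mem (y k).2
    · rw [hx, hd, hy2]
      rfl

end Sys

end Pool.Agent.MP_c15733_al.H87
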